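import Mathlib

/-! Windows around the points `v_n • α` of a normed space, and neighbourhoods of the rays through `α`, which contain
no point, or only finitely many points, of a thin set: the exceptional `α` have dimension at most
`(s + τ) / (1 - θ)`, respectively `1 + s / (1 - θ)`, where the thin set has at most `X ^ (s + ε)` points of norm at most
`X`, the sequence `v` has exponent of convergence `τ`, and the radii are `v_n ^ θ`, respectively `r ^ θ` at the point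
`r • α` of the ray. -/

set_option autoImplicit false

open Finset Filter Topology MeasureTheory

namespace Pool.Agent.V35.WM

open scoped ENNReal NNReal

/-- the exponent of convergence of the sequence `v` is at most `τ` -/
def ExpLe (v : ℕ → ℝ) (τ : ℝ) : Prop := ∀ t : ℝ, τ < t → Summable (fun n : ℕ => (v n) ^ (-t))

/-- a sequence with a finite exponent of convergence tends to infinity -/
theorem tendsto_of_expLe {v : ℕ → ℝ} {τ : ℝ} (hpos : ∀ n, 0 < v n) (hτ : 0 ≤ τ) (hv : ExpLe v τ) :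
    Tendsto v atTop atTop := by
  have h1 : Tendsto (fun n : ℕ => (v n) ^ (-(τ + 1))) atTop (𝓝 0) :=
    (hv (τ + 1) (by linarith)).tendsto_atTop_zero
  rw [tendsto_atTop]
  intro b
  have hb : (0 : ℝ) < (max b 1) ^ (-(τ + 1)) := by positivity
  filter_upwards [h1.eventually (gt_mem_nhds hb)] with n hn
  by_contra hcon
  push Not at hcon
  have h2 : v n ≤ max b 1 := hcon.le.trans (le_max_left _ _)
  have h3 := Real.rpow_le_rpow_of_nonpos (hpos n) h2 (by linarith : -(τ + 1) ≤ 0)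
  linarith

/-- the exponent of convergence of `n ^ c` is `1 / c` -/
theorem expLe_pow (c : ℝ) (hc : 0 < c) : ExpLe (fun n : ℕ => ((n : ℝ) + 1) ^ c) (1 / c) := by
  intro t ht
  have h1 : Summable (fun n : ℕ => (n : ℝ) ^ (-(c * t))) := by
    apply Real.summable_nat_rpow.2
    have : 1 < c * t := by
      rw [div_lt_iff₀ hc] at ht
      linarith
    linarith
  have h2 := (summable_nat_add_iff 1).2 h1
  refine h2.congr (fun n => ?_)
  have h3 : (0 : ℝ) ≤ (n : ℝ) + 1 := by positivity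
  rw [← Real.rpow_mul h3]
  congr 1
  · push_cast
    ring
  · ring

/-- the exponent of convergence of `b ^ n` is zero -/
theorem expLe_geom (b : ℝ) (hb : 1 < b) : ExpLe (fun n : ℕ => b ^ n) 0 := by
  intro t ht
  have hb0 : 0 < b := by linarith
  have h1 : b ^ (-t) < 1 := Real.rpow_lt_one_of_one_lt_of_neg hb (by linarith)
  have h2 : Summable (fun n : ℕ => (b ^ (-t)) ^ n) := summable_geometric_of_lt_one (by positivity) h1
  refine h2.congr (fun n => ?_)
  show (b ^ (-t)) ^ n = (b ^ n) ^ (-t)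
  rw [← Real.rpow_natCast (b ^ (-t)) n, ← Real.rpow_natCast b n, ← Real.rpow_mul hb0.le, ← Real.rpow_mul hb0.le]
  congr 1
  ring

variable {V : Type*} [NormedAddCommGroup V] [NormedSpace ℝ V] {T : Type*}

/-- The points `pos t`, `t ∈ S`, are thin of exponent `s`: for each `ε > 0` at most `C X ^ (s + ε)` elements of `S`
have `‖pos t‖ ≤ X`. -/
def Thin (S : Set T) (pos : T → V) (s : ℝ) : Prop :=
  ∀ ε : ℝ, 0 < ε → ∃ C : ℝ, ∀ X : ℝ, 1 ≤ X →
    {t | t ∈ S ∧ ‖pos t‖ ≤ X}.Finite ∧ ({t | t ∈ S ∧ ‖pos t‖ ≤ X}.ncard : ℝ) ≤ C * X ^ (s + ε)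

/-- one bounded range of `α` -/
theorem dim_win (S : Set T) (pos : T → V) {v : ℕ → ℝ} {s τ θ D : ℝ} (hpos : ∀ n, 1 ≤ v n) (hτ : 0 ≤ τ)
    (hv : ExpLe v τ) (hs : 0 ≤ s) (hθ1 : θ < 1) (hD : s + τ < D * (1 - θ)) (C : ℝ) (hC : 0 ≤ C)
    (hS : ∀ X : ℝ, 1 ≤ X → {t | t ∈ S ∧ ‖pos t‖ ≤ X}.Finite ∧
      ({t | t ∈ S ∧ ‖pos t‖ ≤ X}.ncard : ℝ) ≤ C * X ^ s) (A : ℕ) :
    dimH {α : V | ‖α‖ ≤ A ∧ ∀ n1 : ℕ, ∃ n : ℕ, n1 ≤ n ∧ ∃ t ∈ S, ‖pos t - v n • α‖ ≤ (v n) ^ θ} ≤
      ENNReal.ofReal D := by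
  borelize V
  have h1θ : 0 < 1 - θ := by linarith
  have hD0 : 0 < D := by
    have h1 : 0 < D * (1 - θ) := lt_of_le_of_lt (by positivity) hD
    exact (pos_iff_pos_of_mul_pos h1).2 h1θ
  have hDn : ((Real.toNNReal D : ℝ≥0) : ℝ) = D := Real.coe_toNNReal D hD0.le
  have hgoal : ENNReal.ofReal D = ((Real.toNNReal D : ℝ≥0) : ℝ≥0∞) := rfl
  rw [hgoal]
  apply dimH_le_of_hausdorffMeasure_ne_top
  rw [hDn]
  have hvp : ∀ n, 0 < v n := fun n => lt_of_lt_of_le one_pos (hpos n)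
  have hX : ∀ m : ℕ, 1 ≤ ((A : ℝ) + 1) * v m := by
    intro m
    have h1 := hpos m
    have h2 : (0 : ℝ) ≤ A := Nat.cast_nonneg A
    nlinarith
  set U : ℕ → Finset T := fun m => (hS (((A : ℝ) + 1) * v m) (hX m)).1.toFinset with hU
  set K : ℝ := C * ((A : ℝ) + 1) ^ s with hK
  have hK0 : 0 ≤ K := by positivity
  set p : ℝ := D * (1 - θ) - s with hp
  have hp1 : τ < p := by rw [hp]; linarith
  have hp0 : 0 < p := lt_of_le_of_lt hτ hp1
  have hcard : ∀ m : ℕ, ((U m).card : ℝ) ≤ K * (v m) ^ s := by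
    intro m
    have h2 := (hS (((A : ℝ) + 1) * v m) (hX m)).2
    rw [Real.mul_rpow (by positivity) (hvp m).le, ← mul_assoc] at h2
    rw [Set.ncard_eq_toFinset_card _ (hS (((A : ℝ) + 1) * v m) (hX m)).1] at h2
    exact h2
  set r0 : ℕ → ℝ := fun n => 2 * (v n) ^ (θ - 1) with hr0
  have hr0p : ∀ n, 0 < r0 n := fun n => mul_pos two_pos (Real.rpow_pos_of_pos (hvp n) _)
  have hsum : Summable (fun m : ℕ => (2 ^ D * K) * (v m) ^ (-p)) := (hv p hp1).mul_left _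
  have hlev : ∀ m : ℕ, ((U m).card : ℝ) * (r0 m) ^ D ≤ (2 ^ D * K) * (v m) ^ (-p) := by
    intro m
    have hm0 := hvp m
    calc ((U m).card : ℝ) * (r0 m) ^ D ≤ (K * (v m) ^ s) * (r0 m) ^ D :=
          mul_le_mul_of_nonneg_right (hcard m) (Real.rpow_nonneg (hr0p m).le _)
      _ = (2 ^ D * K) * ((v m) ^ s * (v m) ^ ((θ - 1) * D)) := by
          rw [hr0, Real.mul_rpow two_pos.le (Real.rpow_nonneg hm0.le _), ← Real.rpow_mul hm0.le]
          ring
      _ = (2 ^ D * K) * (v m) ^ (-p) := by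
          rw [← Real.rpow_add hm0]
          congr 2
          rw [hp]
          ring
  have htv : Tendsto v atTop atTop := tendsto_of_expLe hvp hτ hv
  have hr0t : Tendsto r0 atTop (𝓝 0) := by
    have h1 : Tendsto (fun n => (v n) ^ (-(1 - θ))) atTop (𝓝 0) := (tendsto_rpow_neg_atTop h1θ).comp htv
    have h2 := h1.const_mul 2
    rw [mul_zero] at h2
    refine h2.congr (fun n => ?_)
    rw [hr0]
    simp only
    congr 2
    ring
  have hr : ∀ ε : ℝ≥0∞, 0 < ε → ∃ N : ℕ, ∀ n : ℕ, N ≤ n → ENNReal.ofReal (r0 n) ≤ ε := by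
    intro ε hε
    have h1 := ENNReal.tendsto_ofReal hr0t
    rw [ENNReal.ofReal_zero] at h1
    exact ((h1.eventually (ge_mem_nhds hε))).exists_forall_of_atTop
  set r : ℕ → ℝ≥0∞ := fun n => ⨆ i : ℕ, ENNReal.ofReal (r0 (n + i)) with hrdef
  have hrt : Tendsto r atTop (𝓝 0) := by
    rw [ENNReal.tendsto_atTop_zero]
    intro ε hε
    obtain ⟨N, hN⟩ := hr ε hε
    exact ⟨N, fun n hn => iSup_le fun i => hN _ (by omega)⟩
  set B : ∀ n : ℕ, (Σ i : ℕ, (U (n + i))) → Set V := fun n q =>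
    Metric.closedBall ((v (n + q.1))⁻¹ • pos (q.2 : T)) ((v (n + q.1)) ^ (θ - 1)) with hB
  have hd : ∀ (n : ℕ) (q : Σ i : ℕ, (U (n + i))), Metric.ediam (B n q) ≤ ENNReal.ofReal (r0 (n + q.1)) := by
    intro n q
    refine Metric.ediam_le fun x hx y hy => ?_
    rw [edist_dist]
    apply ENNReal.ofReal_le_ofReal
    rw [hB] at hx hy
    simp only [Metric.mem_closedBall] at hx hy
    have h1 := dist_triangle_right x y ((v (n + q.1))⁻¹ • pos (q.2 : T))
    rw [hr0]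
    simp only
    linarith
  have key := Measure.hausdorffMeasure_le_liminf_tsum (X := V) (β := ℕ)
    (ι := fun n => Σ i : ℕ, (U (n + i))) D
    {α : V | ‖α‖ ≤ A ∧ ∀ n1 : ℕ, ∃ n : ℕ, n1 ≤ n ∧ ∃ t ∈ S, ‖pos t - v n • α‖ ≤ (v n) ^ θ}
    (l := atTop) r hrt
    (fun n q => B n q)
    (Eventually.of_forall fun n q => by
      exact (hd n q).trans (le_iSup (fun i : ℕ => ENNReal.ofReal (r0 (n + i))) q.1))
    (Eventually.of_forall fun n α hα => by
      obtain ⟨hαA, hlim⟩ := hα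
      obtain ⟨m, hm1, t, ht, hm3⟩ := hlim n
      obtain ⟨i, rfl⟩ := Nat.exists_eq_add_of_le hm1
      have hmp : 0 < v (n + i) := hvp _
      have hw : (v (n + i)) ^ θ ≤ v (n + i) := by
        calc (v (n + i)) ^ θ ≤ (v (n + i)) ^ (1 : ℝ) := Real.rpow_le_rpow_of_exponent_le (hpos _) hθ1.le
          _ = v (n + i) := Real.rpow_one _
      have hmem : t ∈ U (n + i) := by
        rw [hU, Set.Finite.mem_toFinset]
        refine ⟨ht, ?_⟩
        have h1 : ‖v (n + i) • α‖ ≤ A * v (n + i) := by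
          rw [norm_smul, Real.norm_of_nonneg hmp.le, mul_comm]
          exact mul_le_mul_of_nonneg_right hαA hmp.le
        have h2 : ‖pos t‖ ≤ ‖pos t - v (n + i) • α‖ + ‖v (n + i) • α‖ := by
          have := norm_add_le (pos t - v (n + i) • α) (v (n + i) • α)
          rwa [sub_add_cancel] at this
        linarith
      rw [Set.mem_iUnion]
      refine ⟨⟨i, ⟨_, hmem⟩⟩, ?_⟩
      rw [hB]
      simp only [Metric.mem_closedBall]
      rw [dist_eq_norm]
      have h3 : α - (v (n + i))⁻¹ • pos t = -((v (n + i))⁻¹ • (pos t - v (n + i) • α)) := by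
        rw [smul_sub, smul_smul, inv_mul_cancel₀ hmp.ne', one_smul]
        abel
      rw [h3, norm_neg, norm_smul, norm_inv, Real.norm_of_nonneg hmp.le, Real.rpow_sub_one hmp.ne',
        div_eq_inv_mul]
      exact mul_le_mul_of_nonneg_left hm3 (inv_nonneg.2 hmp.le))
  refine ne_top_of_le_ne_top ?_ key
  have hnn : ∀ m : ℕ, 0 ≤ (2 ^ D * K) * (v m) ^ (-p) := fun m =>
    mul_nonneg (by positivity) (Real.rpow_nonneg (hvp m).le _)
  have htot : (∑' m : ℕ, ENNReal.ofReal ((2 ^ D * K) * (v m) ^ (-p))) ≠ ⊤ := by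
    rw [← ENNReal.ofReal_tsum_of_nonneg hnn hsum]
    exact ENNReal.ofReal_ne_top
  have hbound : ∀ n : ℕ, (∑' q : Σ i : ℕ, (U (n + i)), Metric.ediam (B n q) ^ D) ≤
      ∑' m : ℕ, ENNReal.ofReal ((2 ^ D * K) * (v m) ^ (-p)) := by
    intro n
    rw [ENNReal.tsum_sigma']
    calc (∑' i : ℕ, ∑' x : (U (n + i)), Metric.ediam (B n ⟨i, x⟩) ^ D)
        ≤ ∑' i : ℕ, ENNReal.ofReal ((2 ^ D * K) * (v (n + i)) ^ (-p)) := by
          apply ENNReal.tsum_le_tsum
          intro i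
          have h1 : ∀ x : (U (n + i)), Metric.ediam (B n ⟨i, x⟩) ^ D ≤ ENNReal.ofReal ((r0 (n + i)) ^ D) := by
            intro x
            rw [← ENNReal.ofReal_rpow_of_pos (hr0p _)]
            exact ENNReal.rpow_le_rpow (hd n ⟨i, x⟩) hD0.le
          refine (ENNReal.tsum_le_tsum h1).trans ?_
          rw [tsum_fintype]
          simp only [Finset.sum_const, Finset.card_univ, Fintype.card_coe, nsmul_eq_mul]
          rw [← ENNReal.ofReal_natCast, ← ENNReal.ofReal_mul (by positivity)]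
          apply ENNReal.ofReal_le_ofReal
          exact hlev (n + i)
      _ ≤ ∑' m : ℕ, ENNReal.ofReal ((2 ^ D * K) * (v m) ^ (-p)) :=
          ENNReal.tsum_comp_le_tsum_of_injective (f := fun i : ℕ => n + i)
            (fun a b h => by simpa using h) (fun m : ℕ => ENNReal.ofReal ((2 ^ D * K) * (v m) ^ (-p)))
  refine ne_top_of_le_ne_top htot ?_
  apply Filter.liminf_le_of_le
  · isBoundedDefault
  · intro b hb
    obtain ⟨n, hn⟩ := hb.exists
    exact hn.trans (hbound n)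

/-- the set of the `α` for which infinitely many of the windows of radius `v_n ^ θ` around `v_n • α` contain a point
of the set -/
def BadWin (S : Set T) (pos : T → V) (v : ℕ → ℝ) (θ : ℝ) : Set V :=
  {α : V | ∀ n1 : ℕ, ∃ n : ℕ, n1 ≤ n ∧ ∃ t ∈ S, ‖pos t - v n • α‖ ≤ (v n) ^ θ}

/-- **Windows.** -/
theorem dim_badWin {S : Set T} {pos : T → V} {v : ℕ → ℝ} {s τ θ : ℝ} (hpos : ∀ n, 1 ≤ v n) (hτ : 0 ≤ τ)
    (hv : ExpLe v τ) (hs : 0 ≤ s) (hθ1 : θ < 1) (hS : Thin S pos s) :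
    dimH (BadWin S pos v θ) ≤ ENNReal.ofReal ((s + τ) / (1 - θ)) := by
  have h1θ : 0 < 1 - θ := by linarith
  set F : ℕ → Set V := fun A => {α : V | ‖α‖ ≤ A ∧ ∀ n1 : ℕ, ∃ n : ℕ, n1 ≤ n ∧
    ∃ t ∈ S, ‖pos t - v n • α‖ ≤ (v n) ^ θ} with hF
  have hsub : BadWin S pos v θ ⊆ ⋃ A, F A := fun α hα => Set.mem_iUnion.2 ⟨⌈‖α‖⌉₊, Nat.le_ceil _, hα⟩
  refine (dimH_mono hsub).trans ?_
  rw [dimH_iUnion]
  apply iSup_le
  intro A
  apply ENNReal.le_of_forall_pos_le_add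
  intro ε hε _
  have hε' : (0 : ℝ) < ε := by exact_mod_cast hε
  set ε1 : ℝ := ε * (1 - θ) / 2 with hε1
  have hε1p : 0 < ε1 := by positivity
  obtain ⟨C, hC⟩ := hS ε1 hε1p
  have hC' : ∀ X : ℝ, 1 ≤ X → {t | t ∈ S ∧ ‖pos t‖ ≤ X}.Finite ∧
      ({t | t ∈ S ∧ ‖pos t‖ ≤ X}.ncard : ℝ) ≤ |C| * X ^ (s + ε1) := by
    intro X hX
    exact ⟨(hC X hX).1, (hC X hX).2.trans (mul_le_mul_of_nonneg_right (le_abs_self C) (by positivity))⟩
  have h1 := dim_win S pos hpos hτ hv (s := s + ε1) (by positivity) hθ1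
    (D := (s + τ) / (1 - θ) + ε) (by
      rw [add_mul, div_mul_cancel₀ _ h1θ.ne']
      have : (ε : ℝ) * (1 - θ) = 2 * ε1 := by rw [hε1]; ring
      linarith) |C| (abs_nonneg C) hC' A
  rw [ENNReal.ofReal_add (by positivity) (by positivity), ENNReal.ofReal_coe_nnreal] at h1
  exact h1

/-- the set of the `α` such that infinitely many points of the set lie in the neighbourhood of the ray through `α` which
has radius `r ^ θ` at the point `r • α` -/
def BadRay (S : Set T) (pos : T → V) (θ : ℝ) : Set V :=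
  {α : V | {t | t ∈ S ∧ ∃ r : ℝ, 0 < r ∧ ‖pos t - r • α‖ ≤ r ^ θ}.Infinite}

lemma step_pow {a m : ℝ} (ha : 1 ≤ a) (hm : 0 ≤ m) : (m + 1) ^ a - m ^ a ≤ a * (m + 1) ^ (a - 1) := by
  have hm1 : 0 < m + 1 := by linarith
  have h1 := one_add_mul_self_le_rpow_one_add (s := -(1 / (m + 1))) (by
    rw [neg_le_neg_iff, div_le_one hm1]
    linarith) ha
  have h2 : 1 + -(1 / (m + 1)) = m / (m + 1) := by
    field_simp
    ring
  rw [h2, Real.div_rpow hm hm1.le, le_div_iff₀ (by positivity)] at h1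
  rw [Real.rpow_sub_one hm1.ne']
  have h3 : (1 + a * -(1 / (m + 1))) * (m + 1) ^ a = (m + 1) ^ a - a * ((m + 1) ^ a / (m + 1)) := by
    field_simp
    ring
  rw [h3] at h1
  linarith

/-- neighbourhoods of rays are covered by windows -/
theorem badRay_sub {S : Set T} {pos : T → V} {s θ δ : ℝ} (hθ0 : 0 ≤ θ) (hδ : 0 < δ) (hθδ : θ + δ < 1)
    (hS : Thin S pos s) :
    BadRay S pos θ ⊆ BadWin S pos (fun n : ℕ => ((n : ℝ) + 1) ^ (1 / (1 - (θ + δ)))) (θ + 2 * δ) := by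
  intro α hα n1
  have hc0 : 0 < 1 - (θ + δ) := by linarith
  have hc1 : 1 - (θ + δ) ≤ 1 := by linarith
  obtain ⟨c, hc⟩ : ∃ c, c = 1 - (θ + δ) := ⟨_, rfl⟩
  rw [← hc] at hc0 hc1 ⊢
  have ha0 : 0 < 1 / c := by positivity
  have ha1 : 1 ≤ 1 / c := by rwa [le_div_iff₀ hc0, one_mul]
  obtain ⟨a, ha⟩ : ∃ a, a = 1 / c := ⟨_, rfl⟩
  rw [← ha] at ha0 ha1 ⊢
  have hca : c * a = 1 := by rw [ha]; field_simp
  set K : ℝ := 2 ^ (a * θ) + a * 2 ^ (a - 1) * ‖α‖ with hK
  have e1 : ∀ᶠ r : ℝ in atTop, (n1 : ℝ) + 3 ≤ r ^ c := (tendsto_rpow_atTop hc0).eventually_ge_atTop _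
  have e2 : ∀ᶠ r : ℝ in atTop, K ≤ (r / 2 ^ a) ^ δ :=
    ((tendsto_rpow_atTop hδ).comp (tendsto_id.atTop_div_const (by positivity))).eventually_ge_atTop _
  obtain ⟨R, hR⟩ := eventually_atTop.1 ((e1.and e2).and (eventually_ge_atTop (1 : ℝ)))
  -- an element far away
  obtain ⟨t, ht, r, hr, hRr, hnr⟩ : ∃ t ∈ S, ∃ r : ℝ, 0 < r ∧ R ≤ r ∧ ‖pos t - r • α‖ ≤ r ^ θ := by
    by_contra hcon
    push Not at hcon
    obtain ⟨C, hC⟩ := hS 1 one_pos
    set X : ℝ := max 1 ((max R 1) ^ θ + (max R 1) * ‖α‖) with hX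
    refine hα ((hC X (le_max_left _ _)).1.subset ?_)
    rintro t ⟨ht, r, hr, h1⟩
    refine ⟨ht, ?_⟩
    have h2 : r < R := by
      by_contra h3
      exact absurd (hcon t ht r hr (not_lt.1 h3)) (not_lt.2 h1)
    have h3 : r ≤ max R 1 := h2.le.trans (le_max_left _ _)
    have h4 : ‖pos t‖ ≤ ‖pos t - r • α‖ + ‖r • α‖ := by
      have := norm_add_le (pos t - r • α) (r • α)
      rwa [sub_add_cancel] at this
    have h5 : ‖r • α‖ ≤ (max R 1) * ‖α‖ := by
      rw [norm_smul, Real.norm_of_nonneg hr.le]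
      exact mul_le_mul_of_nonneg_right h3 (norm_nonneg _)
    have h6 : r ^ θ ≤ (max R 1) ^ θ := Real.rpow_le_rpow hr.le h3 hθ0
    exact le_trans (by linarith) (le_max_right _ _)
  obtain ⟨⟨h1, h2⟩, h3⟩ := hR r hRr
  obtain ⟨m, hm⟩ : ∃ m, m = ⌊r ^ c⌋₊ := ⟨_, rfl⟩
  have hrc : 0 ≤ r ^ c := by positivity
  have hm1 : (m : ℝ) ≤ r ^ c := by rw [hm]; exact Nat.floor_le hrc
  have hm2 : r ^ c < m + 1 := by rw [hm]; exact Nat.lt_floor_add_one _
  have hm3 : n1 + 2 ≤ m := by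
    have : ((n1 + 2 : ℕ) : ℝ) < m := by push_cast; linarith
    exact_mod_cast this.le
  obtain ⟨n, rfl⟩ : ∃ n, m = n + 1 := ⟨m - 1, by omega⟩
  refine ⟨n, by omega, t, ht, ?_⟩
  have hn0 : (0 : ℝ) < (n : ℝ) + 1 := by positivity
  push_cast at hm1 hm2
  set v : ℝ := ((n : ℝ) + 1) ^ a with hv
  have hrr : (r ^ c) ^ a = r := by rw [← Real.rpow_mul hr.le, hca, Real.rpow_one]
  have hv0 : 0 < v := by positivity
  have hv1 : 1 ≤ v := Real.one_le_rpow (by
    have : (0 : ℝ) ≤ n := Nat.cast_nonneg n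
    linarith) ha0.le
  have hvr : v ≤ r := by
    rw [← hrr]
    exact Real.rpow_le_rpow hn0.le hm1 ha0.le
  have h2m : (n : ℝ) + 1 + 1 ≤ 2 * ((n : ℝ) + 1) := by
    have : (0 : ℝ) ≤ n := Nat.cast_nonneg n
    linarith
  have hr2 : r ≤ 2 ^ a * v := by
    calc r = (r ^ c) ^ a := hrr.symm
      _ ≤ (2 * ((n : ℝ) + 1)) ^ a := Real.rpow_le_rpow hrc (hm2.le.trans h2m) ha0.le
      _ = 2 ^ a * v := by rw [Real.mul_rpow two_pos.le hn0.le]
  have hrv : r - v ≤ a * 2 ^ (a - 1) * v ^ (θ + δ) := by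
    have g1 : r ≤ ((n : ℝ) + 1 + 1) ^ a := by
      calc r = (r ^ c) ^ a := hrr.symm
        _ ≤ _ := Real.rpow_le_rpow hrc hm2.le ha0.le
    have g2 := step_pow ha1 hn0.le
    have g3 : ((n : ℝ) + 1 + 1) ^ (a - 1) ≤ 2 ^ (a - 1) * v ^ (θ + δ) := by
      calc ((n : ℝ) + 1 + 1) ^ (a - 1) ≤ (2 * ((n : ℝ) + 1)) ^ (a - 1) :=
            Real.rpow_le_rpow (by positivity) h2m (by linarith)
        _ = 2 ^ (a - 1) * ((n : ℝ) + 1) ^ (a - 1) := Real.mul_rpow two_pos.le hn0.le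
        _ = 2 ^ (a - 1) * v ^ (θ + δ) := by
            rw [hv, ← Real.rpow_mul hn0.le]
            congr 2
            have g4 : θ + δ = 1 - c := by rw [hc]; ring
            rw [g4, mul_sub, mul_one, mul_comm a c, hca]
    have g5 : a * ((n : ℝ) + 1 + 1) ^ (a - 1) ≤ a * (2 ^ (a - 1) * v ^ (θ + δ)) :=
      mul_le_mul_of_nonneg_left g3 ha0.le
    rw [mul_assoc]
    linarith
  have hrθ : r ^ θ ≤ 2 ^ (a * θ) * v ^ (θ + δ) := by
    calc r ^ θ ≤ (2 ^ a * v) ^ θ := Real.rpow_le_rpow hr.le hr2 hθ0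
      _ = 2 ^ (a * θ) * v ^ θ := by
          rw [Real.mul_rpow (by positivity) hv0.le, ← Real.rpow_mul two_pos.le]
      _ ≤ 2 ^ (a * θ) * v ^ (θ + δ) := by
          apply mul_le_mul_of_nonneg_left _ (by positivity)
          exact Real.rpow_le_rpow_of_exponent_le hv1 (by linarith)
  have hKv : K ≤ v ^ δ := by
    refine h2.trans (Real.rpow_le_rpow (by positivity) ?_ hδ.le)
    rw [div_le_iff₀ (by positivity)]
    linarith
  have hfin : ‖pos t - v • α‖ ≤ ‖pos t - r • α‖ + (r - v) * ‖α‖ := by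
    have g1 : pos t - v • α = (pos t - r • α) + (r - v) • α := by
      rw [sub_smul]
      abel
    rw [g1]
    refine (norm_add_le _ _).trans ?_
    rw [norm_smul, Real.norm_of_nonneg (by linarith : 0 ≤ r - v)]
  calc ‖pos t - v • α‖ ≤ ‖pos t - r • α‖ + (r - v) * ‖α‖ := hfin
    _ ≤ 2 ^ (a * θ) * v ^ (θ + δ) + a * 2 ^ (a - 1) * v ^ (θ + δ) * ‖α‖ :=
        add_le_add (hnr.trans hrθ) (mul_le_mul_of_nonneg_right hrv (norm_nonneg _))
    _ = K * v ^ (θ + δ) := by rw [hK]; ring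
    _ ≤ v ^ δ * v ^ (θ + δ) := mul_le_mul_of_nonneg_right hKv (by positivity)
    _ = v ^ (θ + 2 * δ) := by
        rw [← Real.rpow_add hv0]
        congr 1
        ring

/-- **Rays.** -/
theorem dim_badRay {S : Set T} {pos : T → V} {s θ : ℝ} (hs : 0 ≤ s) (hθ0 : 0 ≤ θ) (hθ1 : θ < 1)
    (hS : Thin S pos s) : dimH (BadRay S pos θ) ≤ ENNReal.ofReal (1 + s / (1 - θ)) := by
  have h1θ : 0 < 1 - θ := by linarith
  have key : ∀ δ : ℝ, 0 < δ → θ + 2 * δ < 1 →
      dimH (BadRay S pos θ) ≤ ENNReal.ofReal ((s + (1 - (θ + δ))) / (1 - (θ + 2 * δ))) := by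
    intro δ hδ hδ1
    have hc0 : 0 < 1 - (θ + δ) := by linarith
    refine (dimH_mono (badRay_sub hθ0 hδ (by linarith) hS)).trans ?_
    refine dim_badWin (fun n => Real.one_le_rpow ?_ (by positivity)) hc0.le ?_ hs hδ1 hS
    · have : (0 : ℝ) ≤ n := Nat.cast_nonneg n
      linarith
    · have h := expLe_pow (1 / (1 - (θ + δ))) (by positivity)
      rwa [one_div_one_div] at h
  have hcont : Tendsto (fun δ : ℝ => ENNReal.ofReal ((s + (1 - (θ + δ))) / (1 - (θ + 2 * δ))))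
      (𝓝[>] 0) (𝓝 (ENNReal.ofReal (1 + s / (1 - θ)))) := by
    have h1 : ContinuousAt (fun δ : ℝ => (s + (1 - (θ + δ))) / (1 - (θ + 2 * δ))) 0 := by
      refine ContinuousAt.div (by fun_prop) (by fun_prop) ?_
      simp only [mul_zero, add_zero]
      exact h1θ.ne'
    have h2 := (ENNReal.continuous_ofReal.continuousAt.comp h1).tendsto
    have h3 : (s + (1 - (θ + 0))) / (1 - (θ + 2 * 0)) = 1 + s / (1 - θ) := by
      rw [mul_zero, add_zero]
      field_simp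
      ring
    simp only [Function.comp_def] at h2
    rw [h3] at h2
    exact h2.mono_left nhdsWithin_le_nhds
  refine ge_of_tendsto hcont ?_
  have h4 : ∀ᶠ δ : ℝ in 𝓝[>] 0, δ < (1 - θ) / 2 :=
    nhdsWithin_le_nhds (gt_mem_nhds (by positivity))
  filter_upwards [h4, self_mem_nhdsWithin] with δ hδ1 hδ
  exact key δ hδ (by linarith)

/-- A set of dimension less than that of the space is a null set. -/
theorem null_of_dimH {ι : Type*} [Fintype ι] {E : Set (ι → ℝ)} {D : ℝ} (h : dimH E ≤ ENNReal.ofReal D)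
    (hD0 : 0 ≤ D) (hD : D < Fintype.card ι) : volume E = 0 := by
  have h1 : dimH E < ((Fintype.card ι : ℝ≥0) : ℝ≥0∞) := by
    refine h.trans_lt ?_
    have h2 : ((Fintype.card ι : ℝ≥0) : ℝ≥0∞) = ENNReal.ofReal (Fintype.card ι : ℝ) := by
      rw [ENNReal.ofReal_natCast]
      rfl
    rw [h2, ENNReal.ofReal_lt_ofReal_iff']
    exact ⟨hD, lt_of_le_of_lt hD0 hD⟩
  have h3 := measure_zero_of_dimH_lt (μ := (volume : Measure (ι → ℝ))) (d := (Fintype.card ι : ℝ≥0))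
    (s := E) ?_ h1
  · exact h3
  · rw [show (((Fintype.card ι : ℝ≥0) : ℝ)) = (Fintype.card ι : ℝ) by simp]
    rw [hausdorffMeasure_pi_real]

end Pool.Agent.V35.WM
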