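import Pool.Agent.V35.WP

/-! Points of a metric space with infinitely many exceptional points near to them, relative to a height. -/

set_option autoImplicit false

open Filter Topology MeasureTheory

open scoped ENNReal NNReal

namespace Pool.Agent.V35.WR

variable {V : Type*} [MetricSpace V] {T : Type*}

/-- the points which are infinitely often at distance at most `r n` from a point `pos t`, `t ∈ F n` -/
def OftenT (F : ℕ → Finset T) (pos : T → V) (r : ℕ → ℝ) : Set V :=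
  {y : V | ∀ n1 : ℕ, ∃ n : ℕ, n1 ≤ n ∧ ∃ t ∈ F n, dist (pos t) y ≤ r n}

theorem dim_oftenT (F : ℕ → Finset T) (pos : T → V) (r : ℕ → ℝ) (hr : ∀ n, 0 < r n)
    (hrt : Tendsto r atTop (𝓝 0)) {D : ℝ} (hD : 0 < D) (hs : Summable fun n => ((F n).card : ℝ) * (r n) ^ D) :
    dimH (OftenT F pos r) ≤ ENNReal.ofReal D := by
  borelize V
  have hDn : ((Real.toNNReal D : ℝ≥0) : ℝ) = D := Real.coe_toNNReal D hD.le
  have hgoal : ENNReal.ofReal D = ((Real.toNNReal D : ℝ≥0) : ℝ≥0∞) := rfl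
  rw [hgoal]
  apply dimH_le_of_hausdorffMeasure_ne_top
  rw [hDn]
  set r0 : ℕ → ℝ := fun n => 2 * r n with hr0
  have hr0p : ∀ n, 0 < r0 n := fun n => mul_pos two_pos (hr n)
  have hsum : Summable (fun m : ℕ => 2 ^ D * (((F m).card : ℝ) * (r m) ^ D)) := hs.mul_left _
  have hlev : ∀ m : ℕ, ((F m).card : ℝ) * (r0 m) ^ D ≤ 2 ^ D * (((F m).card : ℝ) * (r m) ^ D) := by
    intro m
    rw [hr0, Real.mul_rpow two_pos.le (hr m).le]
    exact le_of_eq (by ring)
  have hr0t : Tendsto r0 atTop (𝓝 0) := by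
    have h2 := hrt.const_mul 2
    rwa [mul_zero] at h2
  have hrr : ∀ ε : ℝ≥0∞, 0 < ε → ∃ N : ℕ, ∀ n : ℕ, N ≤ n → ENNReal.ofReal (r0 n) ≤ ε := by
    intro ε hε
    have h1 := ENNReal.tendsto_ofReal hr0t
    rw [ENNReal.ofReal_zero] at h1
    exact ((h1.eventually (ge_mem_nhds hε))).exists_forall_of_atTop
  set R : ℕ → ℝ≥0∞ := fun n => ⨆ i : ℕ, ENNReal.ofReal (r0 (n + i)) with hrdef
  have hRt : Tendsto R atTop (𝓝 0) := by
    rw [ENNReal.tendsto_atTop_zero]
    intro ε hε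
    obtain ⟨N, hN⟩ := hrr ε hε
    exact ⟨N, fun n hn => iSup_le fun i => hN _ (by omega)⟩
  set B : ∀ n : ℕ, (Σ i : ℕ, (F (n + i))) → Set V := fun n q =>
    Metric.closedBall (pos (q.2 : T)) (r (n + q.1)) with hB
  have hd : ∀ (n : ℕ) (q : Σ i : ℕ, (F (n + i))), Metric.ediam (B n q) ≤ ENNReal.ofReal (r0 (n + q.1)) := by
    intro n q
    refine Metric.ediam_le fun x hx y hy => ?_
    rw [edist_dist]
    apply ENNReal.ofReal_le_ofReal
    rw [hB] at hx hy
    simp only [Metric.mem_closedBall] at hx hy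
    have h1 := dist_triangle_right x y (pos (q.2 : T))
    rw [hr0]
    simp only
    linarith
  have key := Measure.hausdorffMeasure_le_liminf_tsum (X := V) (β := ℕ)
    (ι := fun n => Σ i : ℕ, (F (n + i))) D (OftenT F pos r) (l := atTop) R hRt
    (fun n q => B n q)
    (Eventually.of_forall fun n q => by
      exact (hd n q).trans (le_iSup (fun i : ℕ => ENNReal.ofReal (r0 (n + i))) q.1))
    (Eventually.of_forall fun n α hα => by
      obtain ⟨m, hm1, t, ht, hm3⟩ := hα n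
      obtain ⟨i, rfl⟩ := Nat.exists_eq_add_of_le hm1
      rw [Set.mem_iUnion]
      refine ⟨⟨i, ⟨_, ht⟩⟩, ?_⟩
      rw [hB]
      simp only [Metric.mem_closedBall]
      rw [dist_comm]
      exact hm3)
  refine ne_top_of_le_ne_top ?_ key
  have hnn : ∀ m : ℕ, 0 ≤ 2 ^ D * (((F m).card : ℝ) * (r m) ^ D) := fun m =>
    mul_nonneg (by positivity) (mul_nonneg (Nat.cast_nonneg _) (Real.rpow_nonneg (hr m).le _))
  have htot : (∑' m : ℕ, ENNReal.ofReal (2 ^ D * (((F m).card : ℝ) * (r m) ^ D))) ≠ ⊤ := by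
    rw [← ENNReal.ofReal_tsum_of_nonneg hnn hsum]
    exact ENNReal.ofReal_ne_top
  have hbound : ∀ n : ℕ, (∑' q : Σ i : ℕ, (F (n + i)), Metric.ediam (B n q) ^ D) ≤
      ∑' m : ℕ, ENNReal.ofReal (2 ^ D * (((F m).card : ℝ) * (r m) ^ D)) := by
    intro n
    rw [ENNReal.tsum_sigma']
    calc (∑' i : ℕ, ∑' x : (F (n + i)), Metric.ediam (B n ⟨i, x⟩) ^ D)
        ≤ ∑' i : ℕ, ENNReal.ofReal (2 ^ D * (((F (n + i)).card : ℝ) * (r (n + i)) ^ D)) := by
          apply ENNReal.tsum_le_tsum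
          intro i
          have h1 : ∀ x : (F (n + i)), Metric.ediam (B n ⟨i, x⟩) ^ D ≤ ENNReal.ofReal ((r0 (n + i)) ^ D) := by
            intro x
            rw [← ENNReal.ofReal_rpow_of_pos (hr0p _)]
            exact ENNReal.rpow_le_rpow (hd n ⟨i, x⟩) hD.le
          refine (ENNReal.tsum_le_tsum h1).trans ?_
          rw [tsum_fintype]
          simp only [Finset.sum_const, Finset.card_univ, Fintype.card_coe, nsmul_eq_mul]
          rw [← ENNReal.ofReal_natCast, ← ENNReal.ofReal_mul (by positivity)]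
          apply ENNReal.ofReal_le_ofReal
          exact hlev (n + i)
      _ ≤ ∑' m : ℕ, ENNReal.ofReal (2 ^ D * (((F m).card : ℝ) * (r m) ^ D)) :=
          ENNReal.tsum_comp_le_tsum_of_injective (f := fun i : ℕ => n + i)
            (fun a b h => by simpa using h) (fun m : ℕ => ENNReal.ofReal (2 ^ D * (((F m).card : ℝ) * (r m) ^ D)))
  refine ne_top_of_le_ne_top htot ?_
  apply Filter.liminf_le_of_le
  · isBoundedDefault
  · intro b hb
    obtain ⟨n, hn⟩ := hb.exists
    exact hn.trans (hbound n)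

/-- the points `y` such that infinitely many `t ∈ S` have `dist (pos t) y ≤ (h t) ^ (- w)` -/
def BadNear (S : Set T) (pos : T → V) (h : T → ℝ) (w : ℝ) : Set V :=
  {y : V | {t | t ∈ S ∧ dist (pos t) y ≤ (h t) ^ (-w)}.Infinite}

/-- if `S` has at most `C X ^ (s + ε)` elements of height at most `X`, then the bad points have dimension at most `s / w` -/
theorem dim_badNear {S : Set T} {pos : T → V} {h : T → ℝ} {s w : ℝ} (hs : 0 ≤ s) (hw : 0 < w)
    (h1 : ∀ t ∈ S, 1 ≤ h t)
    (hcount : ∀ ε : ℝ, 0 < ε → ∃ C : ℝ, ∀ X : ℝ, 1 ≤ X →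
      {t | t ∈ S ∧ h t ≤ X}.Finite ∧ ({t | t ∈ S ∧ h t ≤ X}.ncard : ℝ) ≤ C * X ^ (s + ε)) :
    dimH (BadNear S pos h w) ≤ ENNReal.ofReal (s / w) := by
  classical
  have hfin : ∀ n : ℕ, {t | t ∈ S ∧ h t ≤ (2 : ℝ) ^ (n + 1)}.Finite := fun n => by
    obtain ⟨C, hC⟩ := hcount 1 one_pos
    exact (hC _ (one_le_pow₀ (by norm_num))).1
  set F : ℕ → Finset T := fun n => (hfin n).toFinset.filter (fun t => (2 : ℝ) ^ n ≤ h t) with hF
  set r : ℕ → ℝ := fun n => ((2 : ℝ) ^ n) ^ (-w) with hr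
  have hrp : ∀ n, 0 < r n := fun n => Real.rpow_pos_of_pos (by positivity) _
  have hsub : BadNear S pos h w ⊆ OftenT F pos r := by
    intro y hy n1
    by_contra hcon
    push Not at hcon
    apply hy
    refine (hfin n1).subset ?_
    rintro t ⟨ht, hd⟩
    refine ⟨ht, ?_⟩
    by_contra hbig
    push Not at hbig
    obtain ⟨n, hn1, hn2⟩ := exists_nat_pow_near (h1 t ht) (by norm_num : (1 : ℝ) < 2)
    have hnn : n1 ≤ n := by
      by_contra hlt
      push Not at hlt
      have h3 : (2 : ℝ) ^ (n + 1) ≤ (2 : ℝ) ^ (n1 + 1) := pow_le_pow_right₀ (by norm_num) (by omega)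
      linarith
    refine absurd (hcon n hnn t ?_) (not_lt.2 (hd.trans ?_))
    · rw [hF]
      simp only [Finset.mem_filter, Set.Finite.mem_toFinset]
      exact ⟨⟨ht, hn2.le⟩, hn1⟩
    · exact Real.rpow_le_rpow_of_nonpos (by positivity) hn1 (by linarith)
  refine (dimH_mono hsub).trans ?_
  have hrt : Tendsto r atTop (𝓝 0) := by
    have h2 : ∀ n, r n = ((2 : ℝ) ^ (-w)) ^ n := by
      intro n
      rw [hr]
      simp only
      rw [← Real.rpow_natCast, ← Real.rpow_natCast, ← Real.rpow_mul (by norm_num), ← Real.rpow_mul (by norm_num)]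
      congr 1
      ring
    have h3 : (2 : ℝ) ^ (-w) < 1 := Real.rpow_lt_one_of_one_lt_of_neg (by norm_num) (by linarith)
    exact (tendsto_pow_atTop_nhds_zero_of_lt_one (by positivity) h3).congr fun n => (h2 n).symm
  apply ENNReal.le_of_forall_pos_le_add
  intro ε hε _
  have hε' : (0 : ℝ) < ε := by exact_mod_cast hε
  have h0 : 0 ≤ s / w := div_nonneg hs hw.le
  obtain ⟨D, hDd⟩ : ∃ D, D = s / w + ε := ⟨_, rfl⟩
  have hD : 0 < D := by rw [hDd]; linarith
  obtain ⟨C, hC⟩ := hcount (w * ε / 2) (by positivity)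
  have hDs : s + w * ε / 2 < D * w := by
    rw [hDd, add_mul, div_mul_cancel₀ _ hw.ne']
    have := mul_pos hw hε'
    linarith
  have hsum : Summable fun n => ((F n).card : ℝ) * (r n) ^ D := by
    obtain ⟨q, hq⟩ : ∃ q, q = (2 : ℝ) ^ (s + w * ε / 2 - D * w) := ⟨_, rfl⟩
    have hq1 : q < 1 := by
      rw [hq]
      exact Real.rpow_lt_one_of_one_lt_of_neg (by norm_num) (by linarith)
    have hq0 : 0 ≤ q := by rw [hq]; positivity
    have hg : Summable fun n : ℕ => (|C| * 2 ^ (s + w * ε / 2)) * q ^ n :=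
      (summable_geometric_of_lt_one hq0 hq1).mul_left _
    refine Summable.of_nonneg_of_le (fun n => ?_) (fun n => ?_) hg
    · have := hrp n
      positivity
    · have h2 : ((F n).card : ℝ) ≤ |C| * ((2 : ℝ) ^ (n + 1)) ^ (s + w * ε / 2) := by
        have h3 : (F n).card ≤ {t | t ∈ S ∧ h t ≤ (2 : ℝ) ^ (n + 1)}.ncard := by
          rw [Set.ncard_eq_toFinset_card _ (hfin n)]
          exact Finset.card_filter_le _ _
        calc ((F n).card : ℝ) ≤ ({t | t ∈ S ∧ h t ≤ (2 : ℝ) ^ (n + 1)}.ncard : ℝ) := by exact_mod_cast h3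
          _ ≤ C * ((2 : ℝ) ^ (n + 1)) ^ (s + w * ε / 2) := (hC _ (one_le_pow₀ (by norm_num))).2
          _ ≤ _ := mul_le_mul_of_nonneg_right (le_abs_self C) (by positivity)
      have h4 : (r n) ^ D = ((2 : ℝ) ^ n) ^ (-(D * w)) := by
        rw [hr]
        simp only
        rw [← Real.rpow_mul (by positivity)]
        congr 1
        ring
      rw [h4]
      calc ((F n).card : ℝ) * ((2 : ℝ) ^ n) ^ (-(D * w))
          ≤ (|C| * ((2 : ℝ) ^ (n + 1)) ^ (s + w * ε / 2)) * ((2 : ℝ) ^ n) ^ (-(D * w)) :=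
            mul_le_mul_of_nonneg_right h2 (by positivity)
        _ = (|C| * 2 ^ (s + w * ε / 2)) * (((2 : ℝ) ^ n) ^ (s + w * ε / 2) * ((2 : ℝ) ^ n) ^ (-(D * w))) := by
            rw [pow_succ, Real.mul_rpow (by positivity) (by norm_num)]
            ring
        _ = (|C| * 2 ^ (s + w * ε / 2)) * q ^ n := by
            rw [← Real.rpow_add (by positivity), hq, ← Real.rpow_natCast (2 : ℝ) n, ← Real.rpow_natCast _ n,
              ← Real.rpow_mul (by norm_num), ← Real.rpow_mul (by norm_num)]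
            congr 2
            ring
  refine (dim_oftenT F pos r hrp hrt hD hsum).trans ?_
  rw [hDd, ENNReal.ofReal_add h0 hε'.le, ENNReal.ofReal_coe_nnreal]

end Pool.Agent.V35.WR
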