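import Pool.Agent.V35.PCW
import Pool.Agent.H345R2.A2.Four

/-! Weak convergence of nonnegative densities for restricted classes of test functions, and the pair sums as integrals of
a nonnegative density. -/

set_option autoImplicit false

open Filter Topology MeasureTheory Complex

namespace Pool.Agent.V35.PCX

open Pool.Agent.V35.PCW

/-- the triangle -/
noncomputable def tri (μ x : ℝ) : ℝ := max 0 (1 - |x| / μ)

lemma tri_lip0 {μ : ℝ} (h : 0 < μ) : Lip0 μ (tri μ) := by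
  refine ⟨⟨1 / μ, fun x y => ?_⟩, fun x hx => ?_⟩
  · unfold tri
    calc |max 0 (1 - |x| / μ) - max 0 (1 - |y| / μ)|
        ≤ |(1 - |x| / μ) - (1 - |y| / μ)| := by
          have := abs_max_sub_max_le_abs (1 - |x| / μ) (1 - |y| / μ) 0
          rwa [max_comm _ 0, max_comm _ 0] at this
      _ = |(|y| - |x|)| / μ := by
          have e : (1 - |x| / μ) - (1 - |y| / μ) = (|y| - |x|) / μ := by ring
          rw [e, abs_div, abs_of_pos h]
      _ ≤ |x - y| / μ := by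
          apply div_le_div_of_nonneg_right _ h.le
          rw [abs_sub_comm x y]
          exact abs_abs_sub_abs_le_abs_sub y x
      _ = 1 / μ * |x - y| := by ring
  · unfold tri
    apply max_eq_left
    have : 1 ≤ |x| / μ := by rwa [le_div_iff₀ h, one_mul]
    linarith

lemma tri_nonneg (μ x : ℝ) : 0 ≤ tri μ x := le_max_left _ _

lemma tri_le_one {μ : ℝ} (h : 0 < μ) (x : ℝ) : tri μ x ≤ 1 := by
  unfold tri
  apply max_le zero_le_one
  have : 0 ≤ |x| / μ := by positivity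
  linarith

lemma tri_ge {μ₁ μ₂ x : ℝ} (h : 0 < μ₂) (hx : |x| ≤ μ₁) : 1 - μ₁ / μ₂ ≤ tri μ₂ x := by
  unfold tri
  refine le_trans ?_ (le_max_right _ _)
  have := div_le_div_of_nonneg_right hx h.le
  linarith

lemma tri_eq {μ x : ℝ} (h : 0 < μ) (hx : |x| ≤ μ) : tri μ x = 1 - |x| / μ := by
  unfold tri
  apply max_eq_right
  have : |x| / μ ≤ 1 := by rwa [div_le_one h]
  linarith

/-- the transform of the triangle on the positive half -/
lemma int_half {μ c : ℝ} (h : 0 < μ) (hc : c ≠ 0) :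
    ∫ α in (0 : ℝ)..μ, (1 - α / μ) * Real.cos (c * α) = (1 - Real.cos (c * μ)) / (μ * c ^ 2) := by
  have hder : ∀ x ∈ Set.uIcc 0 μ, HasDerivAt (fun α => (1 - α / μ) * Real.sin (c * α) / c - Real.cos (c * α) / (μ * c ^ 2))
      ((1 - x / μ) * Real.cos (c * x)) x := by
    intro x _
    have h1 : HasDerivAt (fun α : ℝ => c * α) c x := by simpa using (hasDerivAt_id x).const_mul c
    have h2 : HasDerivAt (fun α : ℝ => 1 - α / μ) (-(1 / μ)) x := by
      simpa using ((hasDerivAt_id x).div_const μ).const_sub 1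
    have h3 := h2.mul h1.sin
    have h4 := (h3.div_const c).sub (h1.cos.div_const (μ * c ^ 2))
    refine HasDerivAt.congr_deriv h4 ?_
    field_simp
    ring
  rw [intervalIntegral.integral_eq_sub_of_hasDerivAt hder (by
    apply Continuous.intervalIntegrable
    fun_prop)]
  simp only [mul_zero, Real.sin_zero, Real.cos_zero, zero_div, sub_zero, one_mul, div_self h.ne', sub_self, zero_mul,
    zero_sub]
  ring

lemma RR_tri {μ : ℝ} (h : 0 < μ) : ∃ C : ℝ, ∀ x, |H370.A2.RR (tri μ) μ x| * x ^ 2 ≤ C := by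
  refine ⟨1 / μ, fun x => ?_⟩
  rcases eq_or_ne x 0 with hx | hx
  · rw [hx]
    have : 0 ≤ 1 / μ := by positivity
    simpa using this
  have hpi := Real.pi_pos
  set c : ℝ := 2 * Real.pi * x with hc
  have hc0 : c ≠ 0 := by positivity
  have e1 : H370.A2.RR (tri μ) μ x = 2 * ((1 - Real.cos (c * μ)) / (μ * c ^ 2)) := by
    unfold H370.A2.RR
    have hcont : Continuous fun α => tri μ α * Real.cos (2 * Real.pi * α * x) :=
      (tri_lip0 h).continuous.mul (by fun_prop)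
    have hi : ∀ a b : ℝ, IntervalIntegrable (fun α => tri μ α * Real.cos (2 * Real.pi * α * x)) volume a b :=
      fun a b => hcont.intervalIntegrable a b
    rw [← intervalIntegral.integral_add_adjacent_intervals (hi (-μ) 0) (hi 0 μ)]
    have e2 : ∫ α in (0 : ℝ)..μ, tri μ α * Real.cos (2 * Real.pi * α * x) = (1 - Real.cos (c * μ)) / (μ * c ^ 2) := by
      rw [← int_half h hc0]
      apply intervalIntegral.integral_congr
      intro α hα
      rw [Set.uIcc_of_le h.le] at hα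
      simp only
      rw [tri_eq h (by rw [abs_of_nonneg hα.1]; exact hα.2), abs_of_nonneg hα.1]
      congr 2
      rw [hc]
      ring
    have e3 : ∫ α in (-μ)..(0 : ℝ), tri μ α * Real.cos (2 * Real.pi * α * x) =
        ∫ α in (0 : ℝ)..μ, tri μ α * Real.cos (2 * Real.pi * α * x) := by
      have := intervalIntegral.integral_comp_neg (a := 0) (b := μ)
        (fun α => tri μ α * Real.cos (2 * Real.pi * α * x))
      rw [neg_zero] at this
      rw [← this]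
      apply intervalIntegral.integral_congr
      intro α _
      simp only
      have t1 : tri μ (-α) = tri μ α := by unfold tri; rw [abs_neg]
      have t2 : Real.cos (2 * Real.pi * -α * x) = Real.cos (2 * Real.pi * α * x) := by
        rw [← Real.cos_neg]
        congr 1
        ring
      rw [t1, t2]
    rw [e3, e2]
    ring
  rw [e1]
  have h1 : 0 ≤ 1 - Real.cos (c * μ) := by linarith [Real.cos_le_one (c * μ)]
  have h2 : 1 - Real.cos (c * μ) ≤ 2 := by linarith [Real.neg_one_le_cos (c * μ)]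
  rw [abs_of_nonneg (by positivity)]
  have h3 : 1 ≤ Real.pi ^ 2 := by nlinarith [Real.pi_gt_three]
  have e4 : 2 * ((1 - Real.cos (c * μ)) / (μ * c ^ 2)) * x ^ 2 =
      (1 / μ) * ((1 - Real.cos (c * μ)) / (2 * Real.pi ^ 2)) := by
    rw [hc]
    field_simp
  rw [e4]
  have h4 : (1 - Real.cos (c * μ)) / (2 * Real.pi ^ 2) ≤ 1 := by
    rw [div_le_one (by positivity)]
    linarith
  calc (1 / μ) * ((1 - Real.cos (c * μ)) / (2 * Real.pi ^ 2)) ≤ (1 / μ) * 1 :=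
        mul_le_mul_of_nonneg_left h4 (by positivity)
    _ = 1 / μ := mul_one _

/-- the test functions: Lipschitz, zero outside `(-μ, μ)`, cosine transform `O(x⁻²)` -/
def TC (μ : ℝ) (ψ : ℝ → ℝ) : Prop := Lip0 μ ψ ∧ ∃ C : ℝ, ∀ x, |H370.A2.RR ψ μ x| * x ^ 2 ≤ C

lemma tc_tri {μ : ℝ} (h : 0 < μ) : TC μ (tri μ) := ⟨tri_lip0 h, RR_tri h⟩

/-- the interval may be enlarged -/
lemma int_ext {μ μ₁ : ℝ} (hμ0 : 0 < μ) (hμ1 : μ ≤ μ₁) {f : ℝ → ℝ} (hf : ∀ x, μ ≤ |x| → f x = 0) (hfc : Continuous f) :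
    ∫ a in (-μ)..μ, f a = ∫ a in (-μ₁)..μ₁, f a := by
  have e1 : ∫ a in (-μ₁)..(-μ), f a = 0 := by
    rw [intervalIntegral.integral_congr (g := fun _ => 0), intervalIntegral.integral_zero]
    intro x hx
    rw [Set.uIcc_of_le (by linarith)] at hx
    apply hf
    rw [abs_of_nonpos (by linarith [hx.2])]
    linarith [hx.2]
  have e2 : ∫ a in μ..μ₁, f a = 0 := by
    rw [intervalIntegral.integral_congr (g := fun _ => 0), intervalIntegral.integral_zero]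
    intro x hx
    rw [Set.uIcc_of_le (by linarith)] at hx
    apply hf
    exact hx.1.trans (le_abs_self x)
  have hi : ∀ a b : ℝ, IntervalIntegrable f volume a b := fun a b => hfc.intervalIntegrable a b
  rw [← intervalIntegral.integral_add_adjacent_intervals (hi (-μ₁) (-μ)) (hi (-μ) μ₁),
    ← intervalIntegral.integral_add_adjacent_intervals (hi (-μ) μ) (hi μ μ₁), e1, e2]
  ring

lemma RR_ext {μ μ₁ : ℝ} (hμ0 : 0 < μ) (hμ1 : μ ≤ μ₁) {ψ : ℝ → ℝ} (hψ : Lip0 μ ψ) (x : ℝ) :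
    H370.A2.RR ψ μ x = H370.A2.RR ψ μ₁ x := by
  unfold H370.A2.RR
  exact int_ext hμ0 hμ1 (f := fun α => ψ α * Real.cos (2 * Real.pi * α * x))
    (fun y hy => by simp only [hψ.2 y hy, zero_mul]) (hψ.continuous.mul (by fun_prop))

lemma TC.mono {μ μ₁ : ℝ} (hμ0 : 0 < μ) (hμ1 : μ ≤ μ₁) {ψ : ℝ → ℝ} (hψ : TC μ ψ) : TC μ₁ ψ := by
  refine ⟨⟨hψ.1.1, fun x hx => hψ.1.2 x (hμ1.trans hx)⟩, ?_⟩
  obtain ⟨C, hC⟩ := hψ.2
  exact ⟨C, fun x => by rw [← RR_ext hμ0 hμ1 hψ.1]; exact hC x⟩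

/-- a countable dense family in a class of test functions -/
theorem exists_dense_class {μ : ℝ} {Q : (ℝ → ℝ) → Prop} (hQ : ∀ ψ, Q ψ → Lip0 μ ψ) (hQ0 : Q fun _ => 0) :
    ∃ D : ℕ → ℝ → ℝ, (∀ j, Q (D j)) ∧ ∀ ψ, Q ψ → ∀ ε : ℝ, 0 < ε → ∃ j, ∀ x, |ψ x - D j x| ≤ ε := by
  classical
  let X : Set (C(Set.Icc (-μ) μ, ℝ)) := {f | ∃ ψ : ℝ → ℝ, Q ψ ∧ ∀ x : Set.Icc (-μ) μ, f x = ψ x}
  have : Nonempty X := ⟨⟨0, fun _ => 0, hQ0, fun x => rfl⟩⟩
  obtain ⟨u, hu⟩ := TopologicalSpace.exists_dense_seq X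
  choose ψ hψ1 hψ2 using fun j => (u j).2
  refine ⟨ψ, hψ1, fun φ hφ ε hε => ?_⟩
  let f : C(Set.Icc (-μ) μ, ℝ) := ⟨fun x => φ x, (hQ φ hφ).continuous.comp continuous_subtype_val⟩
  obtain ⟨j, hj⟩ := hu.exists_dist_lt (⟨f, φ, hφ, fun x => rfl⟩ : X) hε
  refine ⟨j, fun x => ?_⟩
  by_cases hx : μ ≤ |x|
  · rw [(hQ φ hφ).2 x hx, (hQ _ (hψ1 j)).2 x hx]
    simpa using hε.le
  · push Not at hx
    have hx' : x ∈ Set.Icc (-μ) μ := ⟨by linarith [neg_abs_le x], by linarith [le_abs_self x]⟩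
    have h1 : dist (f ⟨x, hx'⟩) ((u j : C(Set.Icc (-μ) μ, ℝ)) ⟨x, hx'⟩) ≤ dist f (u j) :=
      ContinuousMap.dist_apply_le_dist _
    rw [hψ2 j ⟨x, hx'⟩, Real.dist_eq] at h1
    exact h1.trans hj.le

/-- **Test functions from the countable families suffice.** -/
theorem all_of_class {m₀ : ℝ} (hm₀ : m₀ ≤ 1) (D : ℝ → ℕ → ℝ → ℝ) (hD : ∀ μ j, TC μ (D μ j))
    (hDd : ∀ μ ψ, TC μ ψ → ∀ ε : ℝ, 0 < ε → ∃ j, ∀ x, |ψ x - D μ j x| ≤ ε)
    (g : ℕ → ℝ → ℝ) (hg0 : ∀ n a, 0 ≤ g n a) (gc : ∀ n, Continuous (g n))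
    (h1 : ∀ μ : ℚ, 0 < (μ : ℝ) → (μ : ℝ) < m₀ → ∀ j,
      Tendsto (fun n => ∫ a in (-(μ : ℝ))..μ, D μ j a * g n a) atTop (𝓝 (Mf (D μ j) μ)))
    (h2 : ∀ μ₂ : ℚ, 0 < (μ₂ : ℝ) → (μ₂ : ℝ) < m₀ →
      Tendsto (fun n => ∫ a in (-(μ₂ : ℝ))..μ₂, tri μ₂ a * g n a) atTop (𝓝 (Mf (tri μ₂) μ₂)))
    (μ : ℝ) (ψ : ℝ → ℝ) (hμ0 : 0 < μ) (hμ : μ < m₀) (hψ : TC μ ψ) :
    Tendsto (fun n => ∫ a in (-μ)..μ, ψ a * g n a) atTop (𝓝 (Mf ψ μ)) := by
  obtain ⟨μ₁, hμ1, hμ1'⟩ := exists_rat_btwn hμ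
  obtain ⟨μ₂, hμ2, hμ2'⟩ := exists_rat_btwn hμ1'
  have hμ10 : 0 < (μ₁ : ℝ) := hμ0.trans hμ1
  have hμ20 : 0 < (μ₂ : ℝ) := hμ10.trans hμ2
  have hψ1 : TC μ₁ ψ := hψ.mono hμ0 hμ1.le
  set κ : ℝ := 1 - μ₁ / μ₂ with hκ
  have hκ0 : 0 < κ := by
    have : (μ₁ : ℝ) / μ₂ < 1 := by rwa [div_lt_one hμ20]
    linarith
  have hκ1 : κ ≤ 1 := by
    have : 0 ≤ (μ₁ : ℝ) / μ₂ := by positivity
    linarith
  have hM : Mf ψ μ = Mf ψ μ₁ := by
    unfold Mf
    congr 1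
    exact int_ext hμ0 hμ1.le (f := fun a => |a| * ψ a) (fun x hx => by simp only [hψ.1.2 x hx, mul_zero])
      (continuous_abs.mul hψ.1.continuous)
  rw [hM]
  rw [Metric.tendsto_atTop']
  intro ε hε
  obtain ⟨j, hj⟩ := hDd μ₁ ψ hψ1 (ε / 20 * κ) (by positivity)
  have a1 := (Metric.tendsto_atTop.1 (h1 μ₁ hμ10 hμ1' j)) (ε / 20) (by positivity)
  have a2 := (Metric.tendsto_atTop.1 (h2 μ₂ hμ20 hμ2')) 1 one_pos
  obtain ⟨N1, hN1⟩ := a1
  obtain ⟨N2, hN2⟩ := a2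
  have hMB : Mf (tri μ₂) μ₂ ≤ 3 := by
    have h5 := Mf_sub hμ20 (hμ2'.le.trans hm₀) zero_le_one (tri_lip0 hμ20).continuous continuous_const
      (φ := fun _ => 0) (fun x => by
        rw [sub_zero, abs_of_nonneg (tri_nonneg _ _)]
        exact tri_le_one hμ20 _)
    have h6 : Mf (fun _ => (0 : ℝ)) μ₂ = 0 := by simp [Mf]
    rw [h6, sub_zero] at h5
    linarith [le_abs_self (Mf (tri μ₂) μ₂)]
  refine ⟨max N1 N2, fun n hn => ?_⟩
  have hn1 : N1 ≤ n := (le_max_left _ _).trans hn.le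
  have hn2 : N2 ≤ n := (le_max_right _ _).trans hn.le
  have b1 := hN1 n hn1
  have b2 := hN2 n hn2
  have gcn := gc n
  rw [Real.dist_eq] at b1 b2 ⊢
  have hψc := hψ.1.continuous
  have hDc := (hD μ₁ j).1.continuous
  have hTc := (tri_lip0 hμ20).continuous
  rw [int_ext hμ0 hμ1.le (f := fun a => ψ a * g n a) (fun x hx => by simp only [hψ.1.2 x hx, zero_mul])
    (hψc.mul gcn)]
  have c1 : |(∫ a in (-(μ₁ : ℝ))..μ₁, ψ a * g n a) - ∫ a in (-(μ₁ : ℝ))..μ₁, D μ₁ j a * g n a| ≤ (ε / 20) * 4 := by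
    have i1 : IntervalIntegrable (fun a : ℝ => ψ a * g n a) volume (-(μ₁ : ℝ)) μ₁ :=
      (hψc.mul gcn).intervalIntegrable _ _
    have i2 : IntervalIntegrable (fun a : ℝ => D μ₁ j a * g n a) volume (-(μ₁ : ℝ)) μ₁ :=
      (hDc.mul gcn).intervalIntegrable _ _
    rw [← intervalIntegral.integral_sub i1 i2]
    have c2 : |∫ a in (-(μ₁ : ℝ))..μ₁, (ψ a * g n a - D μ₁ j a * g n a)| ≤
        ∫ a in (-(μ₁ : ℝ))..μ₁, (ε / 20) * (tri μ₂ a * g n a) := by
      rw [← Real.norm_eq_abs]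
      refine intervalIntegral.norm_integral_le_of_norm_le (by linarith) ?_
        ((continuous_const.mul (hTc.mul gcn)).intervalIntegrable _ _)
      refine Eventually.of_forall fun a ha => ?_
      rw [← sub_mul, norm_mul, Real.norm_eq_abs, Real.norm_of_nonneg (hg0 n a), ← mul_assoc]
      refine mul_le_mul_of_nonneg_right ((hj a).trans ?_) (hg0 n a)
      refine mul_le_mul_of_nonneg_left (tri_ge hμ20 ?_) (by positivity)
      exact abs_le.2 ⟨ha.1.le, ha.2⟩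
    have c3 : ∫ a in (-(μ₁ : ℝ))..μ₁, tri μ₂ a * g n a ≤ ∫ a in (-(μ₂ : ℝ))..μ₂, tri μ₂ a * g n a := by
      refine intervalIntegral.integral_mono_interval (by linarith) (by linarith) hμ2.le ?_
        ((hTc.mul gcn).intervalIntegrable _ _)
      exact Eventually.of_forall fun a => mul_nonneg (tri_nonneg _ _) (hg0 n a)
    rw [intervalIntegral.integral_const_mul] at c2
    have c5 : ∫ a in (-(μ₂ : ℝ))..μ₂, tri μ₂ a * g n a ≤ 4 := by
      have := (abs_lt.1 b2).2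
      linarith
    exact c2.trans (mul_le_mul_of_nonneg_left (c3.trans c5) (by positivity))
  have c6 := Mf_sub hμ10 (hμ1'.le.trans hm₀) (by positivity : 0 ≤ ε / 20) hψc hDc (fun x => (hj x).trans (by
    calc ε / 20 * κ ≤ ε / 20 * 1 := mul_le_mul_of_nonneg_left hκ1 (by positivity)
      _ = ε / 20 := mul_one _))
  calc |(∫ a in (-(μ₁ : ℝ))..μ₁, ψ a * g n a) - Mf ψ μ₁|
      = |((∫ a in (-(μ₁ : ℝ))..μ₁, ψ a * g n a) - ∫ a in (-(μ₁ : ℝ))..μ₁, D μ₁ j a * g n a) +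
          ((∫ a in (-(μ₁ : ℝ))..μ₁, D μ₁ j a * g n a) - Mf (D μ₁ j) μ₁) - (Mf ψ μ₁ - Mf (D μ₁ j) μ₁)| := by
        congr 1
        ring
    _ ≤ |((∫ a in (-(μ₁ : ℝ))..μ₁, ψ a * g n a) - ∫ a in (-(μ₁ : ℝ))..μ₁, D μ₁ j a * g n a) +
          ((∫ a in (-(μ₁ : ℝ))..μ₁, D μ₁ j a * g n a) - Mf (D μ₁ j) μ₁)| + |Mf ψ μ₁ - Mf (D μ₁ j) μ₁| :=
        abs_sub _ _
    _ ≤ (ε / 20) * 4 + ε / 20 + 3 * (ε / 20) := by
        refine add_le_add ((abs_add_le _ _).trans (add_le_add c1 b1.le)) c6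
    _ < ε := by linarith

/-- the density of the pair sums, for a finite family of points with weights -/
noncomputable def dens (Z : Finset ℂ) (m : ℂ → ℝ) (L a : ℝ) : ℝ :=
  ‖∑ s ∈ Z, (m s : ℂ) * cexp (((a * L * s.im : ℝ) : ℂ) * I)‖ ^ 2

lemma dens_nonneg (Z : Finset ℂ) (m : ℂ → ℝ) (L a : ℝ) : 0 ≤ dens Z m L a := by unfold dens; positivity

lemma dens_cont (Z : Finset ℂ) (m : ℂ → ℝ) (L : ℝ) : Continuous (dens Z m L) := by
  unfold dens
  fun_prop

lemma dens_eq (Z : Finset ℂ) (m : ℂ → ℝ) (L a : ℝ) :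
    dens Z m L a = ∑ s ∈ Z, ∑ s' ∈ Z, m s * m s' * Real.cos (a * L * (s.im - s'.im)) := by
  unfold dens
  have h1 : (((‖∑ s ∈ Z, (m s : ℂ) * cexp (((a * L * s.im : ℝ) : ℂ) * I)‖ ^ 2 : ℝ)) : ℂ) =
      ∑ s ∈ Z, ∑ s' ∈ Z, ((m s * m s' : ℝ) : ℂ) * cexp (((a * L * (s.im - s'.im) : ℝ) : ℂ) * I) := by
    rw [← Complex.normSq_eq_norm_sq, ← Complex.mul_conj, map_sum, Finset.sum_mul_sum]
    refine Finset.sum_congr rfl fun s _ => Finset.sum_congr rfl fun s' _ => ?_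
    rw [map_mul, Complex.conj_ofReal, ← Complex.exp_conj, map_mul, Complex.conj_ofReal, Complex.conj_I]
    have : cexp (((a * L * (s.im - s'.im) : ℝ) : ℂ) * I) =
        cexp (((a * L * s.im : ℝ) : ℂ) * I) * cexp (((a * L * s'.im : ℝ) : ℂ) * -I) := by
      rw [← Complex.exp_add]
      congr 1
      push_cast
      ring
    rw [this]
    push_cast
    ring
  have h2 := congrArg Complex.re h1
  rw [Complex.ofReal_re] at h2
  rw [h2, Complex.re_sum]
  refine Finset.sum_congr rfl fun s _ => ?_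
  rw [Complex.re_sum]
  refine Finset.sum_congr rfl fun s' _ => ?_
  rw [Complex.re_ofReal_mul, Complex.exp_ofReal_mul_I_re]

/-- pair sums as integrals of the density -/
lemma int_dens (Z : Finset ℂ) (m : ℂ → ℝ) (L μ : ℝ) {ψ : ℝ → ℝ} (hψ : Continuous ψ) :
    ∫ a in (-μ)..μ, ψ a * dens Z m L a =
      ∑ s ∈ Z, ∑ s' ∈ Z, m s * m s' * H370.A2.RR ψ μ ((s.im - s'.im) * L / (2 * Real.pi)) := by
  simp_rw [dens_eq, Finset.mul_sum]
  have hc : ∀ s s' : ℂ, Continuous fun a : ℝ => ψ a * (m s * m s' * Real.cos (a * L * (s.im - s'.im))) := by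
    intro s s'
    fun_prop
  rw [intervalIntegral.integral_finsetSum]
  swap
  · intro s _
    exact (continuous_finsetSum _ fun s' _ => hc s s').intervalIntegrable _ _
  refine Finset.sum_congr rfl fun s _ => ?_
  rw [intervalIntegral.integral_finsetSum]
  swap
  · intro s' _
    exact (hc s s').intervalIntegrable _ _
  refine Finset.sum_congr rfl fun s' _ => ?_
  unfold H370.A2.RR
  rw [← intervalIntegral.integral_const_mul]
  refine intervalIntegral.integral_congr fun a _ => ?_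
  have e : 2 * Real.pi * a * ((s.im - s'.im) * L / (2 * Real.pi)) = a * L * (s.im - s'.im) := by
    have := Real.pi_pos
    field_simp
  show _ = _ * (ψ a * Real.cos (2 * Real.pi * a * ((s.im - s'.im) * L / (2 * Real.pi))))
  rw [e]
  ring

end Pool.Agent.V35.PCX
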