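import Pool.Agent.V35.WM

/-! Windows in the space of the coefficient vectors: from the number of the exceptional integral vectors in the cubes
`[-H, H] ^ ι` to windows of radius `v_n ^ θ` around `v_n • α` and to neighbourhoods of rays without any exceptional
vector. -/

set_option autoImplicit false

open Finset Filter Topology MeasureTheory

namespace Pool.Agent.V35.WB

open Pool.Agent.V35.WM

variable {ι : Type*} [Fintype ι]

/-- an integral vector as a real vector -/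
def vec (c : ι → ℤ) : ι → ℝ := fun i => ((c i : ℤ) : ℝ)

lemma box_finite (H : ℕ) (P : (ι → ℤ) → Prop) : {c : ι → ℤ | (∀ i, |c i| ≤ (H : ℤ)) ∧ P c}.Finite := by
  classical
  refine (Finset.finite_toSet (Fintype.piFinset fun _ : ι => Finset.Icc (-(H : ℤ)) H)).subset ?_
  rintro c ⟨hc, -⟩
  rw [Finset.mem_coe, Fintype.mem_piFinset]
  exact fun i => Finset.mem_Icc.2 (abs_le.1 (hc i))

/-- from cubes to `Thin` -/
theorem box_thin {P : (ι → ℤ) → Prop} {s : ℝ} (hs : 0 ≤ s)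
    (h : ∀ ε : ℝ, 0 < ε → ∃ C : ℝ, ∀ H : ℕ, 1 ≤ H →
      ({c : ι → ℤ | (∀ i, |c i| ≤ (H : ℤ)) ∧ P c}.ncard : ℝ) ≤ C * (H : ℝ) ^ (s + ε)) :
    Thin {c | P c} (vec : (ι → ℤ) → ι → ℝ) s := by
  intro ε hε
  obtain ⟨C, hC⟩ := h ε hε
  refine ⟨|C|, fun X hX => ?_⟩
  have hX0 : 0 ≤ X := by linarith
  have hsub : {t | t ∈ {c | P c} ∧ ‖(vec t : ι → ℝ)‖ ≤ X} ⊆
      {c : ι → ℤ | (∀ i, |c i| ≤ ((⌊X⌋₊ : ℕ) : ℤ)) ∧ P c} := by
    rintro c ⟨hc, hn⟩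
    refine ⟨fun i => ?_, hc⟩
    have h1 := (pi_norm_le_iff_of_nonneg hX0).1 hn i
    rw [vec, Real.norm_eq_abs, ← Int.cast_abs] at h1
    have h2 : (((c i).natAbs : ℕ) : ℝ) ≤ X := by
      rw [Nat.cast_natAbs]
      exact h1
    have h3 : (c i).natAbs ≤ ⌊X⌋₊ := Nat.le_floor h2
    rw [Int.abs_eq_natAbs]
    exact_mod_cast h3
  have hfin := box_finite ⌊X⌋₊ P
  refine ⟨hfin.subset hsub, ?_⟩
  have hH : 1 ≤ ⌊X⌋₊ := Nat.le_floor (by exact_mod_cast hX)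
  calc _ ≤ (({c : ι → ℤ | (∀ i, |c i| ≤ ((⌊X⌋₊ : ℕ) : ℤ)) ∧ P c}.ncard : ℕ) : ℝ) := by
        exact_mod_cast Set.ncard_le_ncard hsub hfin
    _ ≤ C * ((⌊X⌋₊ : ℕ) : ℝ) ^ (s + ε) := hC _ hH
    _ ≤ |C| * ((⌊X⌋₊ : ℕ) : ℝ) ^ (s + ε) :=
        mul_le_mul_of_nonneg_right (le_abs_self C) (by positivity)
    _ ≤ |C| * X ^ (s + ε) := by
        apply mul_le_mul_of_nonneg_left _ (abs_nonneg C)
        exact Real.rpow_le_rpow (by positivity) (Nat.floor_le hX0) (by positivity)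

/-- for all `α` outside a set of dimension at most `(s + τ) / (1 - θ)` and all large `n` no integral vector with the
property `P` has distance at most `v_n ^ θ` from `v_n • α` -/
def WindowsFree (P : (ι → ℤ) → Prop) (s : ℝ) : Prop :=
  ∀ (v : ℕ → ℝ) (τ θ : ℝ), (∀ n, 1 ≤ v n) → 0 ≤ τ → ExpLe v τ → θ < 1 →
    ∃ E : Set (ι → ℝ), dimH E ≤ ENNReal.ofReal ((s + τ) / (1 - θ)) ∧
      (θ < 1 - (s + τ) / (Fintype.card ι : ℝ) → volume E = 0) ∧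
      ∀ α : ι → ℝ, α ∉ E → ∃ n₀ : ℕ, ∀ n : ℕ, n₀ ≤ n →
        ∀ c : ι → ℤ, ‖vec c - v n • α‖ ≤ (v n) ^ θ → ¬ P c

/-- for all `α` outside a set of dimension at most `1 + s / (1 - θ)` only finitely many integral vectors with the property
`P` lie in the neighbourhood of the ray through `α` which has radius `r ^ θ` at the point `r • α` -/
def RaysFree (P : (ι → ℤ) → Prop) (s : ℝ) : Prop :=
  ∀ θ : ℝ, 0 ≤ θ → θ < 1 →
    ∃ E : Set (ι → ℝ), dimH E ≤ ENNReal.ofReal (1 + s / (1 - θ)) ∧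
      (1 + s / (1 - θ) < (Fintype.card ι : ℝ) → volume E = 0) ∧
      ∀ α : ι → ℝ, α ∉ E → {c : ι → ℤ | P c ∧ ∃ r : ℝ, 0 < r ∧ ‖vec c - r • α‖ ≤ r ^ θ}.Finite

theorem windows_of_thin [Nonempty ι] {P : (ι → ℤ) → Prop} {s : ℝ} (hs : 0 ≤ s)
    (h : Thin {c | P c} (vec : (ι → ℤ) → ι → ℝ) s) : WindowsFree P s := by
  intro v τ θ hv hτ hE hθ1
  have h1θ : 0 < 1 - θ := by linarith
  have h1 := dim_badWin (S := {c | P c}) (pos := (vec : (ι → ℤ) → ι → ℝ)) hv hτ hE hs hθ1 h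
  refine ⟨BadWin {c | P c} vec v θ, h1, fun hθ2 => ?_, fun α hα => ?_⟩
  · have hM : (0 : ℝ) < Fintype.card ι := by exact_mod_cast Fintype.card_pos
    refine null_of_dimH h1 (div_nonneg (by linarith) h1θ.le) ?_
    have h2 : (s + τ) / (Fintype.card ι : ℝ) < 1 - θ := by linarith
    rw [div_lt_iff₀ hM] at h2
    rw [div_lt_iff₀ h1θ]
    linarith
  · by_contra hcon
    apply hα
    intro n1
    push Not at hcon
    obtain ⟨n, hn, c, h2, h3⟩ := hcon n1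
    exact ⟨n, hn, c, h3, h2⟩

theorem rays_of_thin {P : (ι → ℤ) → Prop} {s : ℝ} (hs : 0 ≤ s)
    (h : Thin {c | P c} (vec : (ι → ℤ) → ι → ℝ) s) : RaysFree P s := by
  intro θ hθ0 hθ1
  have h1θ : 0 < 1 - θ := by linarith
  have h1 := dim_badRay (S := {c | P c}) (pos := (vec : (ι → ℤ) → ι → ℝ)) hs hθ0 hθ1 h
  refine ⟨BadRay {c | P c} vec θ, h1, fun hθ2 => ?_, fun α hα => Set.not_infinite.1 hα⟩
  refine null_of_dimH h1 ?_ hθ2
  have := div_nonneg hs h1θ.le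
  linarith

/-- **Windows from the number of exceptional vectors in cubes.** -/
theorem windows_of_box [Nonempty ι] {P : (ι → ℤ) → Prop} {s : ℝ} (hs : 0 ≤ s)
    (h : ∀ ε : ℝ, 0 < ε → ∃ C : ℝ, ∀ H : ℕ, 1 ≤ H →
      ({c : ι → ℤ | (∀ i, |c i| ≤ (H : ℤ)) ∧ P c}.ncard : ℝ) ≤ C * (H : ℝ) ^ (s + ε)) : WindowsFree P s :=
  windows_of_thin hs (box_thin hs h)

/-- **Rays from the number of exceptional vectors in cubes.** -/
theorem rays_of_box {P : (ι → ℤ) → Prop} {s : ℝ} (hs : 0 ≤ s)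
    (h : ∀ ε : ℝ, 0 < ε → ∃ C : ℝ, ∀ H : ℕ, 1 ≤ H →
      ({c : ι → ℤ | (∀ i, |c i| ≤ (H : ℤ)) ∧ P c}.ncard : ℝ) ≤ C * (H : ℝ) ^ (s + ε)) : RaysFree P s :=
  rays_of_thin hs (box_thin hs h)

end Pool.Agent.V35.WB
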