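import Pool.Agent.V35.WN

/-! Points which are infinitely often near points of finite sets of growing cardinality: Hausdorff dimension and
measure. -/

set_option autoImplicit false

open Filter Topology MeasureTheory

open scoped ENNReal NNReal

namespace Pool.Agent.V35.WP

open Pool.Agent.V35.WN Pool.Agent.V35.WM

theorem dim_often_card (F : ℕ → Finset ℝ) (r : ℕ → ℝ) (hr : ∀ n, 0 < r n) (hrt : Tendsto r atTop (𝓝 0)) {D : ℝ}
    (hD : 0 < D) (hs : Summable fun n => ((F n).card : ℝ) * (r n) ^ D) :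
    dimH (Often F r) ≤ ENNReal.ofReal D := by
  have hDn : ((Real.toNNReal D : ℝ≥0) : ℝ) = D := Real.coe_toNNReal D hD.le
  have hgoal : ENNReal.ofReal D = ((Real.toNNReal D : ℝ≥0) : ℝ≥0∞) := rfl
  rw [hgoal]
  apply dimH_le_of_hausdorffMeasure_ne_top
  rw [hDn]
  set r0 : ℕ → ℝ := fun n => 2 * r n with hr0
  have hr0p : ∀ n, 0 < r0 n := fun n => mul_pos two_pos (hr n)
  have hsum : Summable (fun m : ℕ => 2 ^ D * (((F m).card : ℝ) * (r m) ^ D)) := hs.mul_left _
  have hlev : ∀ m : ℕ, ((F m).card : ℝ) * (r0 m) ^ D ≤ 2 ^ D * (((F m).card : ℝ) * (r m) ^ D) := by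
    intro m
    rw [hr0, Real.mul_rpow two_pos.le (hr m).le]
    exact le_of_eq (by ring)
  have hr0t : Tendsto r0 atTop (𝓝 0) := by
    have h2 := hrt.const_mul 2
    rwa [mul_zero] at h2
  have hrr : ∀ ε : ℝ≥0∞, 0 < ε → ∃ N : ℕ, ∀ n : ℕ, N ≤ n → ENNReal.ofReal (r0 n) ≤ ε := by
    intro ε hε
    have h1 := ENNReal.tendsto_ofReal hr0t
    rw [ENNReal.ofReal_zero] at h1
    exact ((h1.eventually (ge_mem_nhds hε))).exists_forall_of_atTop
  set R : ℕ → ℝ≥0∞ := fun n => ⨆ i : ℕ, ENNReal.ofReal (r0 (n + i)) with hrdef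
  have hRt : Tendsto R atTop (𝓝 0) := by
    rw [ENNReal.tendsto_atTop_zero]
    intro ε hε
    obtain ⟨N, hN⟩ := hrr ε hε
    exact ⟨N, fun n hn => iSup_le fun i => hN _ (by omega)⟩
  set B : ∀ n : ℕ, (Σ i : ℕ, (F (n + i))) → Set ℝ := fun n q =>
    Metric.closedBall (q.2 : ℝ) (r (n + q.1)) with hB
  have hd : ∀ (n : ℕ) (q : Σ i : ℕ, (F (n + i))), Metric.ediam (B n q) ≤ ENNReal.ofReal (r0 (n + q.1)) := by
    intro n q
    refine Metric.ediam_le fun x hx y hy => ?_
    rw [edist_dist]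
    apply ENNReal.ofReal_le_ofReal
    rw [hB] at hx hy
    simp only [Metric.mem_closedBall] at hx hy
    have h1 := dist_triangle_right x y (q.2 : ℝ)
    rw [hr0]
    simp only
    linarith
  have key := Measure.hausdorffMeasure_le_liminf_tsum (X := ℝ) (β := ℕ)
    (ι := fun n => Σ i : ℕ, (F (n + i))) D (Often F r) (l := atTop) R hRt
    (fun n q => B n q)
    (Eventually.of_forall fun n q => by
      exact (hd n q).trans (le_iSup (fun i : ℕ => ENNReal.ofReal (r0 (n + i))) q.1))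
    (Eventually.of_forall fun n α hα => by
      obtain ⟨m, hm1, t, ht, hm3⟩ := hα n
      obtain ⟨i, rfl⟩ := Nat.exists_eq_add_of_le hm1
      rw [Set.mem_iUnion]
      refine ⟨⟨i, ⟨_, ht⟩⟩, ?_⟩
      rw [hB]
      simp only [Metric.mem_closedBall]
      rw [dist_comm, Real.dist_eq]
      exact hm3)
  refine ne_top_of_le_ne_top ?_ key
  have hnn : ∀ m : ℕ, 0 ≤ 2 ^ D * (((F m).card : ℝ) * (r m) ^ D) := fun m =>
    mul_nonneg (by positivity) (mul_nonneg (Nat.cast_nonneg _) (Real.rpow_nonneg (hr m).le _))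
  have htot : (∑' m : ℕ, ENNReal.ofReal (2 ^ D * (((F m).card : ℝ) * (r m) ^ D))) ≠ ⊤ := by
    rw [← ENNReal.ofReal_tsum_of_nonneg hnn hsum]
    exact ENNReal.ofReal_ne_top
  have hbound : ∀ n : ℕ, (∑' q : Σ i : ℕ, (F (n + i)), Metric.ediam (B n q) ^ D) ≤
      ∑' m : ℕ, ENNReal.ofReal (2 ^ D * (((F m).card : ℝ) * (r m) ^ D)) := by
    intro n
    rw [ENNReal.tsum_sigma']
    calc (∑' i : ℕ, ∑' x : (F (n + i)), Metric.ediam (B n ⟨i, x⟩) ^ D)
        ≤ ∑' i : ℕ, ENNReal.ofReal (2 ^ D * (((F (n + i)).card : ℝ) * (r (n + i)) ^ D)) := by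
          apply ENNReal.tsum_le_tsum
          intro i
          have h1 : ∀ x : (F (n + i)), Metric.ediam (B n ⟨i, x⟩) ^ D ≤ ENNReal.ofReal ((r0 (n + i)) ^ D) := by
            intro x
            rw [← ENNReal.ofReal_rpow_of_pos (hr0p _)]
            exact ENNReal.rpow_le_rpow (hd n ⟨i, x⟩) hD.le
          refine (ENNReal.tsum_le_tsum h1).trans ?_
          rw [tsum_fintype]
          simp only [Finset.sum_const, Finset.card_univ, Fintype.card_coe, nsmul_eq_mul]
          rw [← ENNReal.ofReal_natCast, ← ENNReal.ofReal_mul (by positivity)]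
          apply ENNReal.ofReal_le_ofReal
          exact hlev (n + i)
      _ ≤ ∑' m : ℕ, ENNReal.ofReal (2 ^ D * (((F m).card : ℝ) * (r m) ^ D)) :=
          ENNReal.tsum_comp_le_tsum_of_injective (f := fun i : ℕ => n + i)
            (fun a b h => by simpa using h) (fun m : ℕ => ENNReal.ofReal (2 ^ D * (((F m).card : ℝ) * (r m) ^ D)))
  refine ne_top_of_le_ne_top htot ?_
  apply Filter.liminf_le_of_le
  · isBoundedDefault
  · intro b hb
    obtain ⟨n, hn⟩ := hb.exists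
    exact hn.trans (hbound n)

theorem null_real {E : Set ℝ} {D : ℝ} (h : dimH E ≤ ENNReal.ofReal D) (hD : D < 1) : volume E = 0 := by
  have h1 : dimH E < ((1 : ℝ≥0) : ℝ≥0∞) := by
    refine h.trans_lt ?_
    rw [ENNReal.coe_one]
    exact (ENNReal.ofReal_lt_one).2 hD
  have h3 := measure_zero_of_dimH_lt (μ := (volume : Measure ℝ)) (d := (1 : ℝ≥0)) (s := E) ?_ h1
  · exact h3
  · rw [NNReal.coe_one, hausdorffMeasure_real]

/-- at most `C v_n ^ s` centres and radii `K v_n ^ (ρ - 1)`: dimension at most `(s + τ) / (1 - ρ)` -/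
theorem dim_often_pow (F : ℕ → Finset ℝ) {v : ℕ → ℝ} (hv : ∀ n, 1 ≤ v n) {τ : ℝ} (hτ : 0 ≤ τ) (hE : ExpLe v τ)
    {s ρ C K : ℝ} (hs : 0 ≤ s) (hρ : ρ < 1) (hK : 0 < K) (hF : ∀ n, ((F n).card : ℝ) ≤ C * (v n) ^ s) :
    dimH (Often F (fun n => K * (v n) ^ (ρ - 1))) ≤ ENNReal.ofReal ((s + τ) / (1 - ρ)) := by
  have hρ1 : 0 < 1 - ρ := by linarith
  have hv0 : ∀ n, 0 < v n := fun n => lt_of_lt_of_le one_pos (hv n)
  have hvt := tendsto_of_expLe hv0 hτ hE
  have hrt : Tendsto (fun n => K * (v n) ^ (ρ - 1)) atTop (𝓝 0) := by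
    have h1 : Tendsto (fun x : ℝ => x ^ (-(1 - ρ))) atTop (𝓝 0) := tendsto_rpow_neg_atTop hρ1
    have h2 := (h1.comp hvt).const_mul K
    rw [mul_zero] at h2
    refine h2.congr fun n => ?_
    show K * (v n) ^ (-(1 - ρ)) = K * (v n) ^ (ρ - 1)
    congr 2
    ring
  apply ENNReal.le_of_forall_pos_le_add
  intro ε hε _
  have hε' : (0 : ℝ) < ε := by exact_mod_cast hε
  have h0 : 0 ≤ (s + τ) / (1 - ρ) := div_nonneg (by linarith) hρ1.le
  obtain ⟨D, hDd⟩ : ∃ D, D = (s + τ) / (1 - ρ) + ε := ⟨_, rfl⟩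
  have hD : 0 < D := by rw [hDd]; linarith
  have hDρ : s + τ < D * (1 - ρ) := by
    rw [hDd, add_mul, div_mul_cancel₀ _ hρ1.ne']
    have := mul_pos hε' hρ1
    linarith
  have hsum : Summable fun n => ((F n).card : ℝ) * (K * (v n) ^ (ρ - 1)) ^ D := by
    have h1 : Summable fun n => (|C| * K ^ D) * (v n) ^ (-(D * (1 - ρ) - s)) :=
      (hE (D * (1 - ρ) - s) (by linarith)).mul_left _
    refine Summable.of_nonneg_of_le (fun n => ?_) (fun n => ?_) h1
    · have := hv0 n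
      positivity
    · have hvn := hv0 n
      rw [Real.mul_rpow hK.le (Real.rpow_nonneg hvn.le _), ← Real.rpow_mul hvn.le]
      calc ((F n).card : ℝ) * (K ^ D * (v n) ^ ((ρ - 1) * D))
          ≤ (|C| * (v n) ^ s) * (K ^ D * (v n) ^ ((ρ - 1) * D)) := by
            apply mul_le_mul_of_nonneg_right _ (by positivity)
            exact (hF n).trans (mul_le_mul_of_nonneg_right (le_abs_self C) (by positivity))
        _ = (|C| * K ^ D) * ((v n) ^ s * (v n) ^ ((ρ - 1) * D)) := by ring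
        _ = (|C| * K ^ D) * (v n) ^ (-(D * (1 - ρ) - s)) := by
            rw [← Real.rpow_add hvn]
            congr 2
            ring
  refine (dim_often_card F _ (fun n => by have := hv0 n; positivity) hrt hD hsum).trans ?_
  rw [hDd, ENNReal.ofReal_add h0 hε'.le, ENNReal.ofReal_coe_nnreal]

end Pool.Agent.V35.WP
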