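import Pool.Agent.V35.WM

/-! Windows around `v_n • α` and neighbourhoods of rays for sets `S` of arbitrary objects which have an integral coefficient
vector `co t`, such as tuples of polynomials: from the number of the `t ∈ S` whose coefficients are at most `H` in
absolute value. -/

set_option autoImplicit false

open Finset Filter Topology MeasureTheory

namespace Pool.Agent.V35.WT

open Pool.Agent.V35.WM

variable {ι : Type*} [Fintype ι] {T : Type*}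

/-- the real vector of an integral vector of coefficients -/
def re (c : ι → ℤ) : ι → ℝ := fun i => ((c i : ℤ) : ℝ)

lemma re_le_iff (c : ι → ℤ) (H : ℕ) : ‖(re c : ι → ℝ)‖ ≤ H ↔ ∀ i, |c i| ≤ (H : ℤ) := by
  rw [pi_norm_le_iff_of_nonneg (Nat.cast_nonneg H)]
  refine forall_congr' fun i => ?_
  rw [re, Real.norm_eq_abs, ← Int.cast_abs]
  exact ⟨fun h => by exact_mod_cast h, fun h => by exact_mod_cast h⟩

lemma re_floor (c : ι → ℤ) (X : ℝ) (hX : 0 ≤ X) (h : ‖(re c : ι → ℝ)‖ ≤ X) : ‖(re c : ι → ℝ)‖ ≤ (⌊X⌋₊ : ℕ) := by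
  rw [re_le_iff]
  intro i
  have h1 := (pi_norm_le_iff_of_nonneg hX).1 h i
  rw [re, Real.norm_eq_abs, ← Int.cast_abs] at h1
  have h2 : (((c i).natAbs : ℕ) : ℝ) ≤ X := by
    rw [Nat.cast_natAbs]
    exact h1
  have h3 : (c i).natAbs ≤ ⌊X⌋₊ := Nat.le_floor h2
  rw [Int.abs_eq_natAbs]
  exact_mod_cast h3

/-- from a bound for the exceptional sets `Z H`, which contain the `t ∈ S` with coefficients at most `H`, to `Thin` -/
theorem thin_of {S : Set T} {co : T → ι → ℤ} {s C : ℝ} (hs : 0 ≤ s) (Z : ℕ → Set T)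
    (hZ : ∀ H : ℕ, 1 ≤ H → (Z H).Finite ∧ ((Z H).ncard : ℝ) ≤ C * (H : ℝ) ^ s)
    (hS : ∀ H : ℕ, 1 ≤ H → ∀ t ∈ S, ‖(re (co t) : ι → ℝ)‖ ≤ H → t ∈ Z H) :
    Thin S (fun t => (re (co t) : ι → ℝ)) s := by
  intro ε hε
  refine ⟨|C|, fun X hX => ?_⟩
  have hX0 : 0 ≤ X := by linarith
  have hH : 1 ≤ ⌊X⌋₊ := Nat.le_floor (by exact_mod_cast hX)
  have hsub : {t | t ∈ S ∧ ‖(re (co t) : ι → ℝ)‖ ≤ X} ⊆ Z ⌊X⌋₊ := by
    rintro t ⟨ht, hn⟩
    exact hS _ hH t ht (re_floor _ X hX0 hn)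
  obtain ⟨hfin, hcard⟩ := hZ _ hH
  refine ⟨hfin.subset hsub, ?_⟩
  calc _ ≤ ((Z ⌊X⌋₊).ncard : ℝ) := by exact_mod_cast Set.ncard_le_ncard hsub hfin
    _ ≤ C * ((⌊X⌋₊ : ℕ) : ℝ) ^ s := hcard
    _ ≤ |C| * ((⌊X⌋₊ : ℕ) : ℝ) ^ s := mul_le_mul_of_nonneg_right (le_abs_self C) (by positivity)
    _ ≤ |C| * X ^ (s + ε) := by
        apply mul_le_mul_of_nonneg_left _ (abs_nonneg C)
        calc ((⌊X⌋₊ : ℕ) : ℝ) ^ s ≤ X ^ s := Real.rpow_le_rpow (by positivity) (Nat.floor_le hX0) hs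
          _ ≤ X ^ (s + ε) := Real.rpow_le_rpow_of_exponent_le hX (by linarith)

/-- **Windows.** -/
theorem windows [Nonempty ι] {S : Set T} {pos : T → ι → ℝ} {s : ℝ} (hs : 0 ≤ s) (h : Thin S pos s)
    {v : ℕ → ℝ} {τ θ : ℝ} (hv : ∀ n, 1 ≤ v n) (hτ : 0 ≤ τ) (hE : ExpLe v τ) (hθ1 : θ < 1) :
    ∃ E : Set (ι → ℝ), dimH E ≤ ENNReal.ofReal ((s + τ) / (1 - θ)) ∧
      (θ < 1 - (s + τ) / (Fintype.card ι : ℝ) → volume E = 0) ∧
      ∀ α : ι → ℝ, α ∉ E → ∃ n₀ : ℕ, ∀ n : ℕ, n₀ ≤ n → ∀ t : T, ‖pos t - v n • α‖ ≤ (v n) ^ θ → t ∉ S := by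
  have h1θ : 0 < 1 - θ := by linarith
  have h1 := dim_badWin (S := S) (pos := pos) hv hτ hE hs hθ1 h
  refine ⟨BadWin S pos v θ, h1, fun hθ2 => ?_, fun α hα => ?_⟩
  · have hM : (0 : ℝ) < Fintype.card ι := by exact_mod_cast Fintype.card_pos
    refine null_of_dimH h1 (div_nonneg (by linarith) h1θ.le) ?_
    have h2 : (s + τ) / (Fintype.card ι : ℝ) < 1 - θ := by linarith
    rw [div_lt_iff₀ hM] at h2
    rw [div_lt_iff₀ h1θ]
    linarith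
  · by_contra hcon
    apply hα
    intro n1
    push Not at hcon
    obtain ⟨n, hn, t, h2, h3⟩ := hcon n1
    exact ⟨n, hn, t, h3, h2⟩

end Pool.Agent.V35.WT
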