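import Pool.Agent.V35.WM

/-! Points which are infinitely often near points of finite sets: Hausdorff dimension and measure. -/

set_option autoImplicit false

open Filter Topology MeasureTheory

open scoped ENNReal NNReal

namespace Pool.Agent.V35.WN

/-- the points which are infinitely often at distance at most `r n` from the finite set `F n` -/
def Often (F : ℕ → Finset ℝ) (r : ℕ → ℝ) : Set ℝ :=
  {α : ℝ | ∀ n1 : ℕ, ∃ n : ℕ, n1 ≤ n ∧ ∃ x ∈ F n, |x - α| ≤ r n}

lemma tendsto_of_summable {r : ℕ → ℝ} (hr : ∀ n, 0 < r n) {D : ℝ} (hD : 0 < D) (hs : Summable fun n => (r n) ^ D) :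
    Tendsto r atTop (𝓝 0) := by
  have h1 := hs.tendsto_atTop_zero
  have h2 : Tendsto (fun n => ((r n) ^ D) ^ (1 / D)) atTop (𝓝 (0 ^ (1 / D))) :=
    h1.rpow_const (Or.inr (by positivity))
  rw [Real.zero_rpow (by positivity)] at h2
  refine h2.congr fun n => ?_
  rw [← Real.rpow_mul (hr n).le, mul_one_div_cancel hD.ne', Real.rpow_one]

theorem dim_often (F : ℕ → Finset ℝ) (r : ℕ → ℝ) (hr : ∀ n, 0 < r n) {D : ℝ} (hD : 0 < D) (C : ℝ)
    (hF : ∀ n, ((F n).card : ℝ) ≤ C) (hs : Summable fun n => (r n) ^ D) :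
    dimH (Often F r) ≤ ENNReal.ofReal D := by
  have hDn : ((Real.toNNReal D : ℝ≥0) : ℝ) = D := Real.coe_toNNReal D hD.le
  have hgoal : ENNReal.ofReal D = ((Real.toNNReal D : ℝ≥0) : ℝ≥0∞) := rfl
  rw [hgoal]
  apply dimH_le_of_hausdorffMeasure_ne_top
  rw [hDn]
  have hC : 0 ≤ C := le_trans (Nat.cast_nonneg _) (hF 0)
  set r0 : ℕ → ℝ := fun n => 2 * r n with hr0
  have hr0p : ∀ n, 0 < r0 n := fun n => mul_pos two_pos (hr n)
  have hsum : Summable (fun m : ℕ => (2 ^ D * C) * (r m) ^ D) := hs.mul_left _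
  have hlev : ∀ m : ℕ, ((F m).card : ℝ) * (r0 m) ^ D ≤ (2 ^ D * C) * (r m) ^ D := by
    intro m
    calc ((F m).card : ℝ) * (r0 m) ^ D ≤ C * (r0 m) ^ D :=
          mul_le_mul_of_nonneg_right (hF m) (Real.rpow_nonneg (hr0p m).le _)
      _ = (2 ^ D * C) * (r m) ^ D := by
          rw [hr0, Real.mul_rpow two_pos.le (hr m).le]
          ring
  have hr0t : Tendsto r0 atTop (𝓝 0) := by
    have h2 := (tendsto_of_summable hr hD hs).const_mul 2
    rwa [mul_zero] at h2
  have hrr : ∀ ε : ℝ≥0∞, 0 < ε → ∃ N : ℕ, ∀ n : ℕ, N ≤ n → ENNReal.ofReal (r0 n) ≤ ε := by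
    intro ε hε
    have h1 := ENNReal.tendsto_ofReal hr0t
    rw [ENNReal.ofReal_zero] at h1
    exact ((h1.eventually (ge_mem_nhds hε))).exists_forall_of_atTop
  set R : ℕ → ℝ≥0∞ := fun n => ⨆ i : ℕ, ENNReal.ofReal (r0 (n + i)) with hrdef
  have hrt : Tendsto R atTop (𝓝 0) := by
    rw [ENNReal.tendsto_atTop_zero]
    intro ε hε
    obtain ⟨N, hN⟩ := hrr ε hε
    exact ⟨N, fun n hn => iSup_le fun i => hN _ (by omega)⟩
  set B : ∀ n : ℕ, (Σ i : ℕ, (F (n + i))) → Set ℝ := fun n q =>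
    Metric.closedBall (q.2 : ℝ) (r (n + q.1)) with hB
  have hd : ∀ (n : ℕ) (q : Σ i : ℕ, (F (n + i))), Metric.ediam (B n q) ≤ ENNReal.ofReal (r0 (n + q.1)) := by
    intro n q
    refine Metric.ediam_le fun x hx y hy => ?_
    rw [edist_dist]
    apply ENNReal.ofReal_le_ofReal
    rw [hB] at hx hy
    simp only [Metric.mem_closedBall] at hx hy
    have h1 := dist_triangle_right x y (q.2 : ℝ)
    rw [hr0]
    simp only
    linarith
  have key := Measure.hausdorffMeasure_le_liminf_tsum (X := ℝ) (β := ℕ)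
    (ι := fun n => Σ i : ℕ, (F (n + i))) D (Often F r) (l := atTop) R hrt
    (fun n q => B n q)
    (Eventually.of_forall fun n q => by
      exact (hd n q).trans (le_iSup (fun i : ℕ => ENNReal.ofReal (r0 (n + i))) q.1))
    (Eventually.of_forall fun n α hα => by
      obtain ⟨m, hm1, t, ht, hm3⟩ := hα n
      obtain ⟨i, rfl⟩ := Nat.exists_eq_add_of_le hm1
      rw [Set.mem_iUnion]
      refine ⟨⟨i, ⟨_, ht⟩⟩, ?_⟩
      rw [hB]
      simp only [Metric.mem_closedBall]
      rw [dist_comm, Real.dist_eq]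
      exact hm3)
  refine ne_top_of_le_ne_top ?_ key
  have hnn : ∀ m : ℕ, 0 ≤ (2 ^ D * C) * (r m) ^ D := fun m =>
    mul_nonneg (by positivity) (Real.rpow_nonneg (hr m).le _)
  have htot : (∑' m : ℕ, ENNReal.ofReal ((2 ^ D * C) * (r m) ^ D)) ≠ ⊤ := by
    rw [← ENNReal.ofReal_tsum_of_nonneg hnn hsum]
    exact ENNReal.ofReal_ne_top
  have hbound : ∀ n : ℕ, (∑' q : Σ i : ℕ, (F (n + i)), Metric.ediam (B n q) ^ D) ≤
      ∑' m : ℕ, ENNReal.ofReal ((2 ^ D * C) * (r m) ^ D) := by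
    intro n
    rw [ENNReal.tsum_sigma']
    calc (∑' i : ℕ, ∑' x : (F (n + i)), Metric.ediam (B n ⟨i, x⟩) ^ D)
        ≤ ∑' i : ℕ, ENNReal.ofReal ((2 ^ D * C) * (r (n + i)) ^ D) := by
          apply ENNReal.tsum_le_tsum
          intro i
          have h1 : ∀ x : (F (n + i)), Metric.ediam (B n ⟨i, x⟩) ^ D ≤ ENNReal.ofReal ((r0 (n + i)) ^ D) := by
            intro x
            rw [← ENNReal.ofReal_rpow_of_pos (hr0p _)]
            exact ENNReal.rpow_le_rpow (hd n ⟨i, x⟩) hD.le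
          refine (ENNReal.tsum_le_tsum h1).trans ?_
          rw [tsum_fintype]
          simp only [Finset.sum_const, Finset.card_univ, Fintype.card_coe, nsmul_eq_mul]
          rw [← ENNReal.ofReal_natCast, ← ENNReal.ofReal_mul (by positivity)]
          apply ENNReal.ofReal_le_ofReal
          exact hlev (n + i)
      _ ≤ ∑' m : ℕ, ENNReal.ofReal ((2 ^ D * C) * (r m) ^ D) :=
          ENNReal.tsum_comp_le_tsum_of_injective (f := fun i : ℕ => n + i)
            (fun a b h => by simpa using h) (fun m : ℕ => ENNReal.ofReal ((2 ^ D * C) * (r m) ^ D))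
  refine ne_top_of_le_ne_top htot ?_
  apply Filter.liminf_le_of_le
  · isBoundedDefault
  · intro b hb
    obtain ⟨n, hn⟩ := hb.exists
    exact hn.trans (hbound n)

theorem null_often (F : ℕ → Finset ℝ) (r : ℕ → ℝ) (hr : ∀ n, 0 < r n) (C : ℝ)
    (hF : ∀ n, ((F n).card : ℝ) ≤ C) (hs : Summable r) : volume (Often F r) = 0 := by
  have hC : 0 ≤ C := le_trans (Nat.cast_nonneg _) (hF 0)
  set s : ℕ → Set ℝ := fun n => {α | ∃ x ∈ F n, |x - α| ≤ r n} with hsdef
  have hmeas : ∀ n, volume (s n) ≤ ENNReal.ofReal (2 * C * r n) := by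
    intro n
    have hsub : s n ⊆ ⋃ x ∈ F n, Metric.closedBall x (r n) := by
      rintro α ⟨x, hx, h⟩
      rw [Set.mem_iUnion₂]
      refine ⟨x, hx, ?_⟩
      rw [Metric.mem_closedBall, dist_comm, Real.dist_eq]
      exact h
    calc volume (s n) ≤ volume (⋃ x ∈ F n, Metric.closedBall x (r n)) := measure_mono hsub
      _ ≤ ∑ x ∈ F n, volume (Metric.closedBall x (r n)) := measure_biUnion_finset_le _ _
      _ = ENNReal.ofReal (((F n).card : ℝ) * (2 * r n)) := by
          simp_rw [Real.volume_closedBall]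
          rw [Finset.sum_const, nsmul_eq_mul, ENNReal.ofReal_mul (Nat.cast_nonneg _), ENNReal.ofReal_natCast]
      _ ≤ ENNReal.ofReal (2 * C * r n) := by
          apply ENNReal.ofReal_le_ofReal
          have h1 := hr n
          have h2 := hF n
          nlinarith
  have hfin : ∑' n, volume (s n) ≠ ⊤ :=
    ne_top_of_le_ne_top (hs.mul_left (2 * C)).tsum_ofReal_ne_top (ENNReal.tsum_le_tsum hmeas)
  have h1 := measure_limsup_atTop_eq_zero hfin
  refine measure_mono_null ?_ h1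
  intro α hα
  rw [Filter.limsup_eq_iInf_iSup_of_nat]
  simp only [Set.iInf_eq_iInter, Set.iSup_eq_iUnion, Set.mem_iInter, Set.mem_iUnion]
  intro n
  obtain ⟨m, hm, x, hx, h⟩ := hα n
  exact ⟨m, hm, x, hx, h⟩

end Pool.Agent.V35.WN
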