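import Pool.Agent.V35.WB

/-! Windows for almost all `α` in the space of the coefficient vectors, from bounds for the proportion of the exceptional
vectors in cubes which are weaker than a power saving (Borel-Cantelli). -/

set_option autoImplicit false

open Finset Filter Topology MeasureTheory

namespace Pool.Agent.V35.WAE

open Pool.Agent.V35.WM Pool.Agent.V35.WB

open scoped ENNReal NNReal

variable {ι : Type*} [Fintype ι]

/-- one bounded range of `α` -/
lemma ae_range {P : (ι → ℤ) → Prop} {g : ℕ → ℝ} {H₀ : ℕ} (hg : ∀ H : ℕ, H₀ ≤ H →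
      ({c : ι → ℤ | (∀ i, |c i| ≤ (H : ℤ)) ∧ P c}.ncard : ℝ) ≤ (2 * (H : ℝ) + 1) ^ (Fintype.card ι) * g H)
    {v ρ : ℕ → ℝ} (hv : ∀ n, 1 ≤ v n) (hvt : Tendsto v atTop atTop) (hρ0 : ∀ n, 0 ≤ ρ n) (hρ : ∀ n, ρ n ≤ v n) (A : ℕ)
    (hsum : Summable fun n => g ⌈((A : ℝ) + 1) * v n⌉₊ * ρ n ^ (Fintype.card ι)) :
    ∀ᵐ α : ι → ℝ, ‖α‖ ≤ A → ∃ n₀ : ℕ, ∀ n : ℕ, n₀ ≤ n → ∀ c : ι → ℤ, ‖vec c - v n • α‖ ≤ ρ n → ¬ P c := by
  set M : ℕ := Fintype.card ι with hM
  set H : ℕ → ℕ := fun n => ⌈((A : ℝ) + 1) * v n⌉₊ with hH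
  set s : ℕ → Set (ι → ℝ) := fun n => {α | ‖α‖ ≤ A ∧ ∃ c : ι → ℤ, ‖vec c - v n • α‖ ≤ ρ n ∧ P c} with hs
  obtain ⟨n₁, hn₁⟩ : ∃ n₁ : ℕ, ∀ n, n₁ ≤ n → H₀ ≤ H n := by
    obtain ⟨n₁, h⟩ := (eventually_atTop.1 (hvt.eventually_ge_atTop (H₀ : ℝ)))
    refine ⟨n₁, fun n hn => ?_⟩
    have h1 := h n hn
    have h2 : (H₀ : ℝ) ≤ (H n : ℝ) := by
      refine le_trans ?_ (Nat.le_ceil _)
      have h3 : (0 : ℝ) ≤ A := Nat.cast_nonneg A
      have h4 := hv n
      nlinarith
    exact_mod_cast h2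
  set K : ℝ := 4 * ((A : ℝ) + 1) + 6 with hK
  have hK0 : 0 ≤ K := by positivity
  -- the measure of one bad set
  have hmeas : ∀ n, n₁ ≤ n → volume (s n) ≤ ENNReal.ofReal (K ^ M * (g (H n) * ρ n ^ M)) := by
    intro n hn
    have hvn : 0 < v n := lt_of_lt_of_le one_pos (hv n)
    have hfin := box_finite (H n) P
    have hsub : s n ⊆ ⋃ c ∈ hfin.toFinset, Metric.closedBall ((v n)⁻¹ • vec c) (ρ n / v n) := by
      rintro α ⟨hα, c, hc, hP⟩
      rw [Set.mem_iUnion₂]
      refine ⟨c, ?_, ?_⟩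
      · rw [Set.Finite.mem_toFinset]
        refine ⟨fun i => ?_, hP⟩
        have h1 : ‖(vec c : ι → ℝ)‖ ≤ ((A : ℝ) + 1) * v n := by
          have h2 : ‖(vec c : ι → ℝ)‖ ≤ ‖vec c - v n • α‖ + ‖v n • α‖ := by
            have := norm_add_le (vec c - v n • α) (v n • α)
            rwa [sub_add_cancel] at this
          have h3 : ‖v n • α‖ ≤ A * v n := by
            rw [norm_smul, Real.norm_of_nonneg hvn.le, mul_comm]
            exact mul_le_mul_of_nonneg_right hα hvn.le
          have h4 := hρ n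
          nlinarith
        have h2 := (pi_norm_le_iff_of_nonneg (by positivity)).1 h1 i
        rw [vec, Real.norm_eq_abs, ← Int.cast_abs] at h2
        have h3 : ((|c i| : ℤ) : ℝ) ≤ ((H n : ℕ) : ℝ) := h2.trans (Nat.le_ceil _)
        exact_mod_cast h3
      · rw [Metric.mem_closedBall, dist_eq_norm]
        have h3 : α - (v n)⁻¹ • vec c = -((v n)⁻¹ • (vec c - v n • α)) := by
          rw [smul_sub, smul_smul, inv_mul_cancel₀ hvn.ne', one_smul]
          abel
        rw [h3, norm_neg, norm_smul, norm_inv, Real.norm_of_nonneg hvn.le, div_eq_inv_mul]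
        exact mul_le_mul_of_nonneg_left hc (inv_nonneg.2 hvn.le)
    have hball : ∀ c : ι → ℤ, volume (Metric.closedBall ((v n)⁻¹ • vec c) (ρ n / v n)) =
        ENNReal.ofReal ((2 * (ρ n / v n)) ^ M) := fun c =>
      Real.volume_pi_closedBall _ (div_nonneg (hρ0 n) hvn.le)
    calc volume (s n) ≤ volume (⋃ c ∈ hfin.toFinset, Metric.closedBall ((v n)⁻¹ • vec c) (ρ n / v n)) :=
          measure_mono hsub
      _ ≤ ∑ c ∈ hfin.toFinset, volume (Metric.closedBall ((v n)⁻¹ • vec c) (ρ n / v n)) :=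
          measure_biUnion_finset_le _ _
      _ = ENNReal.ofReal ((hfin.toFinset.card : ℝ) * (2 * (ρ n / v n)) ^ M) := by
          rw [Finset.sum_congr rfl fun c _ => hball c, Finset.sum_const, nsmul_eq_mul,
            ENNReal.ofReal_mul (Nat.cast_nonneg _), ENNReal.ofReal_natCast]
      _ ≤ _ := by
          apply ENNReal.ofReal_le_ofReal
          have h1 : (hfin.toFinset.card : ℝ) ≤ (2 * (H n : ℝ) + 1) ^ M * g (H n) := by
            have := hg (H n) (hn₁ n hn)
            rwa [Set.ncard_eq_toFinset_card _ hfin] at this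
          have hgn : 0 ≤ g (H n) := by
            have h2 : 0 ≤ (2 * (H n : ℝ) + 1) ^ M * g (H n) := le_trans (Nat.cast_nonneg _) h1
            have h3 : 0 < (2 * (H n : ℝ) + 1) ^ M := by positivity
            exact nonneg_of_mul_nonneg_right h2 h3
          have h4 : (2 * (H n : ℝ) + 1) * (2 * (ρ n / v n)) ≤ K * ρ n := by
            have h5 : (H n : ℝ) ≤ ((A : ℝ) + 1) * v n + 1 := (Nat.ceil_lt_add_one (by positivity)).le
            have h6 : 2 * (H n : ℝ) + 1 ≤ (K / 2) * v n := by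
              rw [hK]
              have := hv n
              nlinarith
            calc (2 * (H n : ℝ) + 1) * (2 * (ρ n / v n)) ≤ ((K / 2) * v n) * (2 * (ρ n / v n)) :=
                  mul_le_mul_of_nonneg_right h6 (by have := hρ0 n; positivity)
              _ = K * ρ n := by
                  field_simp
          have hρn := hρ0 n
          calc (hfin.toFinset.card : ℝ) * (2 * (ρ n / v n)) ^ M ≤
                ((2 * (H n : ℝ) + 1) ^ M * g (H n)) * (2 * (ρ n / v n)) ^ M :=
                mul_le_mul_of_nonneg_right h1 (by positivity)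
            _ = ((2 * (H n : ℝ) + 1) * (2 * (ρ n / v n))) ^ M * g (H n) := by
                rw [mul_pow (2 * (H n : ℝ) + 1)]
                ring
            _ ≤ (K * ρ n) ^ M * g (H n) := by
                apply mul_le_mul_of_nonneg_right _ hgn
                exact pow_le_pow_left₀ (by positivity) h4 _
            _ = K ^ M * (g (H n) * ρ n ^ M) := by
                rw [mul_pow]
                ring
  -- Borel-Cantelli
  have hfinite : ∑' n, volume (s (n + n₁)) ≠ ⊤ := by
    have h1 : Summable fun n => K ^ M * (g (H (n + n₁)) * ρ (n + n₁) ^ M) :=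
      ((summable_nat_add_iff n₁).2 hsum).mul_left _
    refine ne_top_of_le_ne_top ?_ (ENNReal.tsum_le_tsum fun n => hmeas (n + n₁) (by omega))
    exact h1.tsum_ofReal_ne_top
  filter_upwards [ae_eventually_notMem hfinite] with α hα hA
  obtain ⟨n₂, hn₂⟩ := eventually_atTop.1 hα
  refine ⟨n₂ + n₁, fun n hn c hc hP => ?_⟩
  obtain ⟨k, rfl⟩ : ∃ k, n = k + n₁ := ⟨n - n₁, by omega⟩
  exact hn₂ k (by omega) ⟨hA, c, hc, hP⟩

/-- **Windows for almost all `α`.** -/
theorem ae_windows {P : (ι → ℤ) → Prop} {g : ℕ → ℝ} {H₀ : ℕ} (hg : ∀ H : ℕ, H₀ ≤ H →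
      ({c : ι → ℤ | (∀ i, |c i| ≤ (H : ℤ)) ∧ P c}.ncard : ℝ) ≤ (2 * (H : ℝ) + 1) ^ (Fintype.card ι) * g H)
    {v ρ : ℕ → ℝ} (hv : ∀ n, 1 ≤ v n) (hvt : Tendsto v atTop atTop) (hρ0 : ∀ n, 0 ≤ ρ n) (hρ : ∀ n, ρ n ≤ v n)
    (hsum : ∀ A : ℕ, Summable fun n => g ⌈((A : ℝ) + 1) * v n⌉₊ * ρ n ^ (Fintype.card ι)) :
    ∀ᵐ α : ι → ℝ, ∃ n₀ : ℕ, ∀ n : ℕ, n₀ ≤ n → ∀ c : ι → ℤ, ‖vec c - v n • α‖ ≤ ρ n → ¬ P c := by
  have h := ae_all_iff.2 fun A : ℕ => ae_range hg hv hvt hρ0 hρ A (hsum A)
  filter_upwards [h] with α hα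
  exact hα ⌈‖α‖⌉₊ (Nat.le_ceil _)

/-- **Windows around `b ^ n • α` for almost all `α`**, when the proportion of the exceptional vectors in the cube
`[-H, H] ^ ι` is at most `exp (- c log H / log log H)`. -/
theorem ae_windows_exp {P : (ι → ℤ) → Prop} {c : ℝ} (hc : 0 < c) {H₀ : ℕ} (hg : ∀ H : ℕ, H₀ ≤ H →
      ({t : ι → ℤ | (∀ i, |t i| ≤ (H : ℤ)) ∧ P t}.ncard : ℝ) ≤
        (2 * (H : ℝ) + 1) ^ (Fintype.card ι) * Real.exp (-c * (Real.log H / Real.log (Real.log H))))
    (b : ℝ) (hb : 1 < b) :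
    ∃ δ : ℝ, 0 < δ ∧ ∀ᵐ α : ι → ℝ, ∃ n₀ : ℕ, ∀ n : ℕ, n₀ ≤ n →
      ∀ t : ι → ℤ, ‖vec t - b ^ n • α‖ ≤ Real.exp (δ * (n / Real.log n)) → ¬ P t := by
  set M : ℕ := Fintype.card ι with hM
  set L : ℝ := Real.log b with hL
  have hL0 : 0 < L := Real.log_pos hb
  have hb0 : 0 < b := by linarith
  set δ : ℝ := min (L / 2) (c * L / (4 * (M + 1))) with hδ
  have hδ0 : 0 < δ := lt_min (by positivity) (by positivity)
  have hδ1 : δ ≤ L / 2 := min_le_left _ _
  have hδ2 : M * δ ≤ c * L / 4 := by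
    have h1 : δ ≤ c * L / (4 * (M + 1)) := min_le_right _ _
    rw [le_div_iff₀ (by positivity)] at h1
    have h2 : (0 : ℝ) ≤ M := Nat.cast_nonneg M
    nlinarith
  refine ⟨δ, hδ0, ?_⟩
  refine ae_windows (g := fun H => Real.exp (-c * (Real.log H / Real.log (Real.log H)))) hg
    (fun n => one_le_pow₀ hb.le) (tendsto_pow_atTop_atTop_of_one_lt hb) (fun n => (Real.exp_pos _).le) ?_ ?_
  · intro n
    have h1 : δ * (n / Real.log n) ≤ n * L := by
      rcases Nat.lt_or_ge n 2 with hn | hn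
      · have : Real.log n = 0 := by
          interval_cases n <;> simp
        rw [this, div_zero, mul_zero]
        positivity
      · have h2 : (1 / 2 : ℝ) ≤ Real.log n := by
          have h3 : Real.log 2 ≤ Real.log n := Real.log_le_log two_pos (by exact_mod_cast hn)
          have := Real.log_two_gt_d9
          linarith
        rw [← mul_div_assoc, div_le_iff₀ (by linarith)]
        have hn0 : (0 : ℝ) ≤ n := Nat.cast_nonneg n
        calc δ * n ≤ (L / 2) * n := mul_le_mul_of_nonneg_right hδ1 hn0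
          _ = n * L * (1 / 2) := by ring
          _ ≤ n * L * Real.log n := mul_le_mul_of_nonneg_left h2 (by positivity)
    calc Real.exp (δ * (n / Real.log n)) ≤ Real.exp (n * L) := Real.exp_le_exp.2 h1
      _ = b ^ n := by
          rw [mul_comm, Real.exp_mul, hL, Real.exp_log hb0, Real.rpow_natCast]
  · intro A
    have e1 : ∀ᶠ n : ℕ in atTop, ((A : ℝ) + 1) + 1 ≤ b ^ n :=
      (tendsto_pow_atTop_atTop_of_one_lt hb).eventually_ge_atTop _
    have e2 : ∀ᶠ n : ℕ in atTop, 2 * L ≤ (n : ℝ) := tendsto_natCast_atTop_atTop.eventually_ge_atTop _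
    have e3 : ∀ᶠ n : ℕ in atTop, 3 / L ≤ (n : ℝ) := tendsto_natCast_atTop_atTop.eventually_ge_atTop _
    have e4 : ∀ᶠ n : ℕ in atTop, (Real.log n) ^ 2 ≤ (c * L / 8) * n := by
      have h1 := (Real.isLittleO_pow_log_id_atTop (n := 2)).def (c := c * L / 8) (by positivity)
      have h2 := tendsto_natCast_atTop_atTop.eventually h1
      filter_upwards [h2] with n hn
      simp only [id_eq, Real.norm_eq_abs, abs_of_nonneg (sq_nonneg (Real.log n)),
        abs_of_nonneg (Nat.cast_nonneg (α := ℝ) n)] at hn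
      exact hn
    refine Summable.of_norm_bounded_eventually_nat (g := fun n : ℕ => 1 / (n : ℝ) ^ 2)
      (Real.summable_one_div_nat_pow.2 (by norm_num)) ?_
    filter_upwards [e1, e2, e3, e4, eventually_ge_atTop 3] with n h1 h2 h3 h4 hn
    have hn3 : (3 : ℝ) ≤ n := by exact_mod_cast hn
    have hn0 : (0 : ℝ) < n := by linarith
    have hlogn : 1 < Real.log n := by
      have h5 : Real.exp 1 < n := by
        have := Real.exp_one_lt_d9
        linarith
      have h6 := Real.log_lt_log (Real.exp_pos 1) h5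
      rwa [Real.log_exp] at h6
    set H : ℕ := ⌈((A : ℝ) + 1) * b ^ n⌉₊ with hH
    have hbn : 1 ≤ b ^ n := one_le_pow₀ hb.le
    have hA0 : (0 : ℝ) ≤ A := Nat.cast_nonneg A
    have hH1 : b ^ n ≤ (H : ℝ) := by
      refine le_trans ?_ (Nat.le_ceil _)
      nlinarith
    have hH2 : (H : ℝ) ≤ b ^ (2 * n) := by
      have h5 : (H : ℝ) ≤ ((A : ℝ) + 1) * b ^ n + 1 := (Nat.ceil_lt_add_one (by positivity)).le
      rw [two_mul, pow_add]
      nlinarith
    have hHpos : (0 : ℝ) < H := by linarith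
    have hl1 : n * L ≤ Real.log H := by
      have := Real.log_le_log (by positivity) hH1
      rwa [Real.log_pow] at this
    have hl2 : Real.log H ≤ 2 * n * L := by
      have := Real.log_le_log hHpos hH2
      rw [Real.log_pow] at this
      push_cast at this
      exact this
    have hl3 : 3 ≤ n * L := by
      rw [div_le_iff₀ hL0] at h3
      exact h3
    have hll0 : 0 < Real.log (Real.log H) := Real.log_pos (by linarith)
    have hll : Real.log (Real.log H) ≤ 2 * Real.log n := by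
      have h5 : Real.log H ≤ (n : ℝ) ^ 2 := by
        refine hl2.trans ?_
        nlinarith
      have h6 := Real.log_le_log (by linarith) h5
      rw [Real.log_pow] at h6
      exact_mod_cast h6
    have hq : n * L / (2 * Real.log n) ≤ Real.log H / Real.log (Real.log H) := by
      rw [div_le_div_iff₀ (by linarith) hll0]
      have hnL : 0 ≤ n * L := by positivity
      calc n * L * Real.log (Real.log H) ≤ n * L * (2 * Real.log n) := mul_le_mul_of_nonneg_left hll hnL
        _ ≤ Real.log H * (2 * Real.log n) := mul_le_mul_of_nonneg_right hl1 (by linarith)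
    rw [Real.norm_of_nonneg (by positivity)]
    have hlogpos : 0 < Real.log n := by linarith
    have hexp : Real.exp (-c * (Real.log H / Real.log (Real.log H))) * Real.exp (δ * (n / Real.log n)) ^ M ≤
        Real.exp (-(2 * Real.log n)) := by
      rw [← Real.exp_nat_mul, ← Real.exp_add]
      apply Real.exp_le_exp.2
      have h5 : c * (n * L / (2 * Real.log n)) ≤ c * (Real.log H / Real.log (Real.log H)) :=
        mul_le_mul_of_nonneg_left hq hc.le
      have h6 : (M : ℝ) * (δ * (n / Real.log n)) ≤ (c * L / 4) * (n / Real.log n) := by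
        rw [← mul_assoc]
        exact mul_le_mul_of_nonneg_right hδ2 (by positivity)
      have h7 : c * (n * L / (2 * Real.log n)) = (c * L / 2) * (n / Real.log n) := by
        field_simp
      have h8 : 2 * Real.log n ≤ (c * L / 4) * (n / Real.log n) := by
        rw [← mul_div_assoc, le_div_iff₀ hlogpos]
        nlinarith
      linarith
    refine hexp.trans (le_of_eq ?_)
    rw [Real.exp_neg, mul_comm, Real.exp_mul, Real.exp_log hn0, one_div]
    norm_cast

end Pool.Agent.V35.WAE
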