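import Pool.Agent.V35.WM

/-! Weak convergence of nonnegative densities: a countable family of Lipschitz test functions suffices. -/

set_option autoImplicit false

open Filter Topology MeasureTheory

namespace Pool.Agent.V35.PCW

/-- Lipschitz functions which vanish outside `(-μ, μ)` -/
def Lip0 (μ : ℝ) (ψ : ℝ → ℝ) : Prop := (∃ K : ℝ, ∀ x y, |ψ x - ψ y| ≤ K * |x - y|) ∧ ∀ x, μ ≤ |x| → ψ x = 0

lemma Lip0.continuous {μ : ℝ} {ψ : ℝ → ℝ} (h : Lip0 μ ψ) : Continuous ψ := by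
  obtain ⟨⟨K, hK⟩, -⟩ := h
  have : LipschitzWith K.toNNReal ψ := by
    refine LipschitzWith.of_dist_le_mul fun x y => ?_
    rw [Real.dist_eq, Real.dist_eq]
    refine (hK x y).trans ?_
    exact mul_le_mul_of_nonneg_right (Real.le_coe_toNNReal K) (abs_nonneg _)
  exact this.continuous

/-- a countable dense family -/
theorem exists_dense (μ : ℝ) : ∃ D : ℕ → ℝ → ℝ, (∀ j, Lip0 μ (D j)) ∧
    ∀ ψ, Lip0 μ ψ → ∀ ε : ℝ, 0 < ε → ∃ j, ∀ x, |ψ x - D j x| ≤ ε := by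
  classical
  let X : Set (C(Set.Icc (-μ) μ, ℝ)) := {f | ∃ ψ : ℝ → ℝ, Lip0 μ ψ ∧ ∀ x : Set.Icc (-μ) μ, f x = ψ x}
  have hzero : Lip0 μ (fun _ => 0) := ⟨⟨0, fun x y => by simp⟩, fun x _ => rfl⟩
  have : Nonempty X := ⟨⟨0, fun _ => 0, hzero, fun x => rfl⟩⟩
  obtain ⟨u, hu⟩ := TopologicalSpace.exists_dense_seq X
  choose ψ hψ1 hψ2 using fun j => (u j).2
  refine ⟨ψ, hψ1, fun φ hφ ε hε => ?_⟩
  let f : C(Set.Icc (-μ) μ, ℝ) := ⟨fun x => φ x, hφ.continuous.comp continuous_subtype_val⟩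
  obtain ⟨j, hj⟩ := hu.exists_dist_lt (⟨f, φ, hφ, fun x => rfl⟩ : X) hε
  refine ⟨j, fun x => ?_⟩
  by_cases hx : μ ≤ |x|
  · rw [hφ.2 x hx, (hψ1 j).2 x hx]
    simpa using hε.le
  · push Not at hx
    have hx' : x ∈ Set.Icc (-μ) μ := ⟨by linarith [neg_abs_le x], by linarith [le_abs_self x]⟩
    have h1 : dist (f ⟨x, hx'⟩) ((u j : C(Set.Icc (-μ) μ, ℝ)) ⟨x, hx'⟩) ≤ dist f (u j) :=
      ContinuousMap.dist_apply_le_dist _
    rw [hψ2 j ⟨x, hx'⟩, Real.dist_eq] at h1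
    exact h1.trans hj.le

/-- the trapezoid -/
noncomputable def trap (μ₁ μ₂ x : ℝ) : ℝ := max 0 (min 1 ((μ₂ - |x|) / (μ₂ - μ₁)))

lemma trap_lip0 {μ₁ μ₂ : ℝ} (h : μ₁ < μ₂) : Lip0 μ₂ (trap μ₁ μ₂) := by
  have h0 : 0 < μ₂ - μ₁ := by linarith
  refine ⟨⟨1 / (μ₂ - μ₁), fun x y => ?_⟩, fun x hx => ?_⟩
  · unfold trap
    calc |max 0 (min 1 ((μ₂ - |x|) / (μ₂ - μ₁))) - max 0 (min 1 ((μ₂ - |y|) / (μ₂ - μ₁)))|
        ≤ |min 1 ((μ₂ - |x|) / (μ₂ - μ₁)) - min 1 ((μ₂ - |y|) / (μ₂ - μ₁))| := by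
          have := abs_max_sub_max_le_abs (min 1 ((μ₂ - |x|) / (μ₂ - μ₁))) (min 1 ((μ₂ - |y|) / (μ₂ - μ₁))) 0
          rwa [max_comm _ 0, max_comm _ 0] at this
      _ ≤ |(μ₂ - |x|) / (μ₂ - μ₁) - (μ₂ - |y|) / (μ₂ - μ₁)| := by
          have := abs_min_sub_min_le_max 1 ((μ₂ - |x|) / (μ₂ - μ₁)) 1 ((μ₂ - |y|) / (μ₂ - μ₁))
          simpa using this
      _ = |(|y| - |x|)| / (μ₂ - μ₁) := by
          rw [← sub_div, abs_div, abs_of_pos h0]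
          congr 2
          ring
      _ ≤ |x - y| / (μ₂ - μ₁) := by
          apply div_le_div_of_nonneg_right _ h0.le
          rw [abs_sub_comm x y]
          exact abs_abs_sub_abs_le_abs_sub y x
      _ = 1 / (μ₂ - μ₁) * |x - y| := by ring
  · unfold trap
    apply max_eq_left
    refine (min_le_right _ _).trans ?_
    exact div_nonpos_of_nonpos_of_nonneg (by linarith) h0.le

lemma trap_nonneg (μ₁ μ₂ x : ℝ) : 0 ≤ trap μ₁ μ₂ x := le_max_left _ _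

lemma trap_le_one (μ₁ μ₂ x : ℝ) : trap μ₁ μ₂ x ≤ 1 := max_le zero_le_one (min_le_left _ _)

lemma trap_one {μ₁ μ₂ x : ℝ} (h : μ₁ < μ₂) (hx : |x| ≤ μ₁) : trap μ₁ μ₂ x = 1 := by
  have h0 : 0 < μ₂ - μ₁ := by linarith
  unfold trap
  have h1 : 1 ≤ (μ₂ - |x|) / (μ₂ - μ₁) := by
    rw [le_div_iff₀ h0]
    linarith
  rw [min_eq_left h1]
  exact max_eq_right zero_le_one

/-- the limit functional -/
noncomputable def Mf (ψ : ℝ → ℝ) (μ : ℝ) : ℝ := ψ 0 + ∫ α in (-μ)..μ, |α| * ψ α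

lemma Mf_sub {μ ε : ℝ} (hμ0 : 0 < μ) (hμ1 : μ ≤ 1) (hε : 0 ≤ ε) {ψ φ : ℝ → ℝ} (hψ : Continuous ψ) (hφ : Continuous φ)
    (h : ∀ x, |ψ x - φ x| ≤ ε) : |Mf ψ μ - Mf φ μ| ≤ 3 * ε := by
  unfold Mf
  have h1 : ψ 0 + (∫ α in (-μ)..μ, |α| * ψ α) - (φ 0 + ∫ α in (-μ)..μ, |α| * φ α) =
      (ψ 0 - φ 0) + ∫ α in (-μ)..μ, |α| * (ψ α - φ α) := by
    have h2 : (∫ α in (-μ)..μ, |α| * (ψ α - φ α)) =
        (∫ α in (-μ)..μ, |α| * ψ α) - ∫ α in (-μ)..μ, |α| * φ α := by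
      have i1 : IntervalIntegrable (fun α : ℝ => |α| * ψ α) volume (-μ) μ :=
        (continuous_abs.mul hψ).intervalIntegrable _ _
      have i2 : IntervalIntegrable (fun α : ℝ => |α| * φ α) volume (-μ) μ :=
        (continuous_abs.mul hφ).intervalIntegrable _ _
      rw [← intervalIntegral.integral_sub i1 i2]
      exact intervalIntegral.integral_congr fun α _ => by ring
    rw [h2]
    ring
  rw [h1]
  refine (abs_add_le _ _).trans ?_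
  have h3 : |∫ α in (-μ)..μ, |α| * (ψ α - φ α)| ≤ ε * |μ - (-μ)| := by
    rw [← Real.norm_eq_abs]
    apply intervalIntegral.norm_integral_le_of_norm_le_const
    intro α hα
    rw [Set.uIoc_of_le (by linarith)] at hα
    rw [Real.norm_eq_abs, abs_mul, abs_abs]
    have h4 : |α| ≤ 1 := (abs_le.2 ⟨hα.1.le, hα.2⟩).trans hμ1
    calc |α| * |ψ α - φ α| ≤ 1 * ε := mul_le_mul h4 (h α) (abs_nonneg _) zero_le_one
      _ = ε := one_mul ε
  have h5 : |μ - (-μ)| = 2 * μ := by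
    rw [abs_of_nonneg (by linarith)]
    ring
  rw [h5] at h3
  have h6 := h 0
  nlinarith

/-- **Test functions from the countable family suffice.** -/
theorem all_of_countable {m₀ : ℝ} (hm₀ : m₀ ≤ 1) (D : ℝ → ℕ → ℝ → ℝ) (hD : ∀ μ j, Lip0 μ (D μ j))
    (hDd : ∀ μ ψ, Lip0 μ ψ → ∀ ε : ℝ, 0 < ε → ∃ j, ∀ x, |ψ x - D μ j x| ≤ ε)
    (g : ℕ → ℝ → ℝ) (hg0 : ∀ n a, 0 ≤ g n a) (hgc : ∀ᶠ n in atTop, Continuous (g n))
    (h1 : ∀ μ : ℚ, 0 < (μ : ℝ) → (μ : ℝ) < m₀ → ∀ j,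
      Tendsto (fun n => ∫ a in (-(μ : ℝ))..μ, D μ j a * g n a) atTop (𝓝 (Mf (D μ j) μ)))
    (h2 : ∀ μ₁ μ₂ : ℚ, 0 < (μ₁ : ℝ) → (μ₁ : ℝ) < μ₂ → (μ₂ : ℝ) < m₀ →
      Tendsto (fun n => ∫ a in (-(μ₂ : ℝ))..μ₂, trap μ₁ μ₂ a * g n a) atTop (𝓝 (Mf (trap μ₁ μ₂) μ₂)))
    (μ : ℝ) (ψ : ℝ → ℝ) (hμ0 : 0 < μ) (hμ : μ < m₀) (hψ : Lip0 μ ψ) :
    Tendsto (fun n => ∫ a in (-μ)..μ, ψ a * g n a) atTop (𝓝 (Mf ψ μ)) := by
  obtain ⟨μ₁, hμ1, hμ1'⟩ := exists_rat_btwn hμ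
  obtain ⟨μ₂, hμ2, hμ2'⟩ := exists_rat_btwn hμ1'
  have hμ10 : 0 < (μ₁ : ℝ) := hμ0.trans hμ1
  have hμ20 : 0 < (μ₂ : ℝ) := hμ10.trans hμ2
  have hψ1 : Lip0 μ₁ ψ := ⟨hψ.1, fun x hx => hψ.2 x (hμ1.le.trans hx)⟩
  -- the interval may be enlarged
  have hext : ∀ f : ℝ → ℝ, (∀ x, μ ≤ |x| → f x = 0) → Continuous f →
      ∫ a in (-μ)..μ, f a = ∫ a in (-(μ₁ : ℝ))..μ₁, f a := by
    intro f hf hfc
    have e1 : ∫ a in (-(μ₁ : ℝ))..(-μ), f a = 0 := by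
      rw [intervalIntegral.integral_congr (g := fun _ => 0), intervalIntegral.integral_zero]
      intro x hx
      rw [Set.uIcc_of_le (by linarith)] at hx
      apply hf
      rw [abs_of_nonpos (by linarith [hx.2])]
      linarith [hx.2]
    have e2 : ∫ a in μ..(μ₁ : ℝ), f a = 0 := by
      rw [intervalIntegral.integral_congr (g := fun _ => 0), intervalIntegral.integral_zero]
      intro x hx
      rw [Set.uIcc_of_le (by linarith)] at hx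
      apply hf
      exact hx.1.trans (le_abs_self x)
    have hi : ∀ a b : ℝ, IntervalIntegrable f volume a b := fun a b => hfc.intervalIntegrable a b
    rw [← intervalIntegral.integral_add_adjacent_intervals (hi (-(μ₁ : ℝ)) (-μ)) (hi (-μ) μ₁),
      ← intervalIntegral.integral_add_adjacent_intervals (hi (-μ) μ) (hi μ μ₁), e1, e2]
    ring
  have hM : Mf ψ μ = Mf ψ μ₁ := by
    unfold Mf
    congr 1
    exact hext (fun a => |a| * ψ a) (fun x hx => by simp only [hψ.2 x hx, mul_zero])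
      (continuous_abs.mul hψ.continuous)
  rw [hM]
  rw [Metric.tendsto_atTop']
  intro ε hε
  obtain ⟨j, hj⟩ := hDd μ₁ ψ hψ1 (ε / 20) (by positivity)
  have a1 := (Metric.tendsto_atTop.1 (h1 μ₁ hμ10 hμ1' j)) (ε / 20) (by positivity)
  have a2 := (Metric.tendsto_atTop.1 (h2 μ₁ μ₂ hμ10 hμ2 hμ2')) 1 one_pos
  obtain ⟨N1, hN1⟩ := a1
  obtain ⟨N2, hN2⟩ := a2
  obtain ⟨N3, hN3⟩ := eventually_atTop.1 hgc
  have hMB : Mf (trap μ₁ μ₂) μ₂ ≤ 3 := by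
    have h5 := Mf_sub hμ20 (hμ2'.le.trans hm₀) zero_le_one (trap_lip0 hμ2).continuous continuous_const
      (φ := fun _ => 0) (fun x => by
        rw [sub_zero, abs_of_nonneg (trap_nonneg _ _ _)]
        exact trap_le_one _ _ _)
    have h6 : Mf (fun _ => (0 : ℝ)) μ₂ = 0 := by simp [Mf]
    rw [h6, sub_zero] at h5
    linarith [le_abs_self (Mf (trap μ₁ μ₂) μ₂)]
  refine ⟨max N1 (max N2 N3), fun n hn => ?_⟩
  have hn1 : N1 ≤ n := (le_max_left _ _).trans hn.le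
  have hn2 : N2 ≤ n := ((le_max_left _ _).trans (le_max_right _ _)).trans hn.le
  have hn3 : N3 ≤ n := ((le_max_right _ _).trans (le_max_right _ _)).trans hn.le
  have gc := hN3 n hn3
  have b1 := hN1 n hn1
  have b2 := hN2 n hn2
  rw [Real.dist_eq] at b1 b2 ⊢
  have hψc := hψ.continuous
  have hDc := (hD μ₁ j).continuous
  have hTc := (trap_lip0 hμ2).continuous
  rw [hext (fun a => ψ a * g n a) (fun x hx => by simp only [hψ.2 x hx, zero_mul]) (hψc.mul gc)]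
  have c1 : |(∫ a in (-(μ₁ : ℝ))..μ₁, ψ a * g n a) - ∫ a in (-(μ₁ : ℝ))..μ₁, D μ₁ j a * g n a| ≤ (ε / 20) * 4 := by
    have i1 : IntervalIntegrable (fun a : ℝ => ψ a * g n a) volume (-(μ₁ : ℝ)) μ₁ :=
      (hψc.mul gc).intervalIntegrable _ _
    have i2 : IntervalIntegrable (fun a : ℝ => D μ₁ j a * g n a) volume (-(μ₁ : ℝ)) μ₁ :=
      (hDc.mul gc).intervalIntegrable _ _
    rw [← intervalIntegral.integral_sub i1 i2]
    have c2 : |∫ a in (-(μ₁ : ℝ))..μ₁, (ψ a * g n a - D μ₁ j a * g n a)| ≤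
        ∫ a in (-(μ₁ : ℝ))..μ₁, (ε / 20) * g n a := by
      rw [← Real.norm_eq_abs]
      refine intervalIntegral.norm_integral_le_of_norm_le (by linarith) ?_
        ((continuous_const.mul gc).intervalIntegrable _ _)
      refine Eventually.of_forall fun a _ => ?_
      rw [← sub_mul, norm_mul, Real.norm_eq_abs, Real.norm_of_nonneg (hg0 n a)]
      exact mul_le_mul_of_nonneg_right (hj a) (hg0 n a)
    have c3 : ∫ a in (-(μ₁ : ℝ))..μ₁, g n a ≤ ∫ a in (-(μ₂ : ℝ))..μ₂, trap μ₁ μ₂ a * g n a := by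
      have c4 : ∫ a in (-(μ₁ : ℝ))..μ₁, g n a = ∫ a in (-(μ₁ : ℝ))..μ₁, trap μ₁ μ₂ a * g n a := by
        apply intervalIntegral.integral_congr
        intro a ha
        rw [Set.uIcc_of_le (by linarith)] at ha
        simp only
        rw [trap_one hμ2 (abs_le.2 ⟨ha.1, ha.2⟩), one_mul]
      rw [c4]
      refine intervalIntegral.integral_mono_interval (by linarith) (by linarith) hμ2.le ?_
        ((hTc.mul gc).intervalIntegrable _ _)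
      exact Eventually.of_forall fun a => mul_nonneg (trap_nonneg _ _ _) (hg0 n a)
    rw [intervalIntegral.integral_const_mul] at c2
    have c5 : ∫ a in (-(μ₂ : ℝ))..μ₂, trap μ₁ μ₂ a * g n a ≤ 4 := by
      have := (abs_lt.1 b2).2
      linarith
    refine c2.trans (mul_le_mul_of_nonneg_left (c3.trans c5) (by positivity))
  have c6 := Mf_sub hμ10 (hμ1'.le.trans hm₀) (by positivity : 0 ≤ ε / 20) hψc hDc hj
  calc |(∫ a in (-(μ₁ : ℝ))..μ₁, ψ a * g n a) - Mf ψ μ₁|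
      = |((∫ a in (-(μ₁ : ℝ))..μ₁, ψ a * g n a) - ∫ a in (-(μ₁ : ℝ))..μ₁, D μ₁ j a * g n a) +
          ((∫ a in (-(μ₁ : ℝ))..μ₁, D μ₁ j a * g n a) - Mf (D μ₁ j) μ₁) - (Mf ψ μ₁ - Mf (D μ₁ j) μ₁)| := by
        congr 1
        ring
    _ ≤ |((∫ a in (-(μ₁ : ℝ))..μ₁, ψ a * g n a) - ∫ a in (-(μ₁ : ℝ))..μ₁, D μ₁ j a * g n a) +
          ((∫ a in (-(μ₁ : ℝ))..μ₁, D μ₁ j a * g n a) - Mf (D μ₁ j) μ₁)| + |Mf ψ μ₁ - Mf (D μ₁ j) μ₁| :=
        abs_sub _ _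
    _ ≤ (ε / 20) * 4 + ε / 20 + 3 * (ε / 20) := by
        refine add_le_add ((abs_add_le _ _).trans (add_le_add c1 b1.le)) c6
    _ < ε := by linarith

end Pool.Agent.V35.PCW
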