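import Mathlib
import Pool.Agent.V1135.Semi

/-!
# Primitive groups as split extensions
-/

set_option autoImplicit false

namespace Pool.Agent.V35

open Pool.Agent.V1135

/-- A group is primitive if it has a maximal subgroup with trivial core. -/
def Primitive (G : Type) [Group G] : Prop :=
  ∃ M : Subgroup G, IsCoatom M ∧ M.normalCore = ⊥

theorem Primitive.of_equiv {G H : Type} [Group G] [Group H] (e : G ≃* H) (h : Primitive G) :
    Primitive H := by
  obtain ⟨M, hM, hcore⟩ := h
  refine ⟨M.map e.toMonoidHom, ?_, ?_⟩
  · exact (OrderIso.isCoatom_iff e.mapSubgroup M).mpr hM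
  · rw [eq_bot_iff]
    intro x hx
    rw [Subgroup.mem_bot]
    have h1 : e.symm x ∈ M.normalCore := by
      intro g
      have h2 := hx (e g)
      obtain ⟨y, hy, hyx⟩ := Subgroup.mem_map.mp h2
      have h3 : y = g * e.symm x * g⁻¹ := by
        apply e.injective
        simp only [map_mul, map_inv, MulEquiv.apply_symm_apply]
        exact hyx
      rw [← h3]
      exact hy
    rw [hcore, Subgroup.mem_bot] at h1
    have := congrArg e h1
    simpa using this

/-- A group of prime order is primitive. -/
theorem Primitive.of_prime {G : Type} [Group G] {p : ℕ} (hp : p.Prime) (hG : Nat.card G = p) :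
    Primitive G := by
  have : Fact p.Prime := ⟨hp⟩
  have hs : IsSimpleGroup G := isSimpleGroup_of_prime_card hG
  have hc : IsCyclic G := isCyclic_of_prime_card hG
  refine ⟨⊥, ⟨bot_ne_top, ?_⟩, ?_⟩
  · intro W hW
    have hn : W.Normal := by
      let _ : CommGroup G := hc.commGroup
      infer_instance
    rcases hn.eq_bot_or_eq_top with h | h
    · exact absurd h hW.ne'
    · exact h
  · exact le_bot_iff.mp (Subgroup.normalCore_le _)

section semi

open Semi

variable {Q V : Type} [Group Q] [AddCommGroup V] [DistribMulAction Q V]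

/-- The action is faithful and irreducible. -/
structure Good (Q V : Type) [Group Q] [AddCommGroup V] [DistribMulAction Q V] : Prop where
  nontriv : ∃ v : V, v ≠ 0
  irr : ∀ W : AddSubgroup V, (∀ (q : Q), ∀ w ∈ W, q • w ∈ W) → W = ⊥ ∨ W = ⊤
  faith : ∀ q : Q, (∀ v : V, q • v = v) → q = 1

/-- The part of a subgroup inside `V`. -/
def part (N : Subgroup (Semi Q V)) : AddSubgroup V where
  carrier := {v | (inl v : Semi Q V) ∈ N}
  add_mem' := by
    intro a b ha hb
    show (inl (a + b) : Semi Q V) ∈ N
    rw [inl_add]
    exact N.mul_mem ha hb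
  zero_mem' := N.one_mem
  neg_mem' := by
    intro a ha
    show (inl (-a) : Semi Q V) ∈ N
    have : (inl (-a) : Semi Q V) = (inl a)⁻¹ := by
      ext <;> simp
    rw [this]
    exact N.inv_mem ha

theorem mem_part {N : Subgroup (Semi Q V)} {v : V} : v ∈ part N ↔ (inl v : Semi Q V) ∈ N :=
  Iff.rfl

theorem conj_inl (x : Semi Q V) (w : V) : x * inl w * x⁻¹ = inl (x.q • w) := by
  ext
  · simp [smul_smul]
  · simp

theorem inl_mem_of_normal (hg : Good Q V) (N : Subgroup (Semi Q V)) [hN : N.Normal] (hb : N ≠ ⊥)
    (v : V) : (inl v : Semi Q V) ∈ N := by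
  have hinv : ∀ (q : Q), ∀ w ∈ part N, q • w ∈ part N := by
    intro q w hw
    have := hN.conj_mem _ hw (inr q)
    rw [conj_inl] at this
    exact this
  rcases hg.irr (part N) hinv with h | h
  · exfalso
    apply hb
    rw [eq_bot_iff]
    intro x hx
    rw [Subgroup.mem_bot]
    have h1 : ∀ w : V, x.q • w = w := by
      intro w
      have h2 : (inl w : Semi Q V) * x * (inl w)⁻¹ * x⁻¹ ∈ N :=
        N.mul_mem (hN.conj_mem _ hx _) (N.inv_mem hx)
      have h3 : (inl w : Semi Q V) * x * (inl w)⁻¹ * x⁻¹ = inl (w - x.q • w) := by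
        ext
        · simp [smul_smul, sub_eq_add_neg]
          abel
        · simp
      rw [h3] at h2
      have h4 : w - x.q • w ∈ part N := h2
      rw [h, AddSubgroup.mem_bot] at h4
      exact (sub_eq_zero.mp h4).symm
    have h5 : x.q = 1 := hg.faith _ h1
    have h6 : x = inl x.v := by ext <;> simp [h5]
    have h7 : x.v ∈ part N := by
      rw [mem_part, ← h6]
      exact hx
    rw [h, AddSubgroup.mem_bot] at h7
    ext
    · simpa using h7
    · simpa using h5
  · have : v ∈ part N := by rw [h]; trivial
    exact this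

theorem inr_coatom (hg : Good Q V) : IsCoatom (inr : Q →* Semi Q V).range := by
  constructor
  · intro h
    obtain ⟨v, hv⟩ := hg.nontriv
    have : (inl v : Semi Q V) ∈ (inr : Q →* Semi Q V).range := by rw [h]; trivial
    obtain ⟨q, hq⟩ := this
    apply hv
    have := congrArg Semi.v hq
    simpa using this.symm
  · intro W hW
    obtain ⟨hle, hne⟩ := SetLike.lt_iff_le_and_exists.mp hW
    obtain ⟨x, hxW, hx⟩ := hne
    have hinr : ∀ q : Q, (inr q : Semi Q V) ∈ W := fun q => hle ⟨q, rfl⟩
    have hinv : ∀ (q : Q), ∀ w ∈ part W, q • w ∈ part W := by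
      intro q w hw
      have := W.mul_mem (W.mul_mem (hinr q) hw) (W.inv_mem (hinr q))
      rw [conj_inl] at this
      exact this
    have hxv : x.v ∈ part W := by
      have h1 : (inl x.v : Semi Q V) = x * (inr x.q)⁻¹ := by
        ext <;> simp
      rw [mem_part, h1]
      exact W.mul_mem hxW (W.inv_mem (hinr _))
    have htop : part W = ⊤ := by
      rcases hg.irr (part W) hinv with h | h
      · exfalso
        rw [h, AddSubgroup.mem_bot] at hxv
        apply hx
        refine ⟨x.q, ?_⟩
        ext
        · simp [hxv]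
        · simp
      · exact h
    rw [eq_top_iff]
    intro y _
    have h2 : y = inl y.v * inr y.q := by ext <;> simp
    rw [h2]
    refine W.mul_mem ?_ (hinr _)
    have : y.v ∈ part W := by rw [htop]; trivial
    exact this

theorem Good.primitive (hg : Good Q V) : Primitive (Semi Q V) := by
  refine ⟨_, inr_coatom hg, ?_⟩
  by_contra h
  obtain ⟨v, hv⟩ := hg.nontriv
  have h1 := inl_mem_of_normal hg _ h v
  obtain ⟨q, hq⟩ := Subgroup.normalCore_le _ h1
  apply hv
  have := congrArg Semi.v hq
  simpa using this.symm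

end semi

end Pool.Agent.V35
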