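import Mathlib
import Pool.Agent.V35.SemiPrim

/-!
# Schunck classes of finite soluble groups: definitions
-/

set_option autoImplicit false

namespace Pool.Agent.V35

/-- `X` is a Schunck class of finite soluble groups. -/
structure IsSchunck (X : ∀ (G : Type) [Group G], Prop) : Prop where
  /-- all members are finite -/
  finite : ∀ (G : Type) [Group G], X G → Finite G
  /-- all members are soluble -/
  soluble : ∀ (G : Type) [Group G], X G → Group.IsSolvable G
  /-- closure under isomorphism -/
  iso : ∀ (G H : Type) [Group G] [Group H], Nonempty (G ≃* H) → X G → X H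
  /-- closure under quotients -/
  quot : ∀ (G : Type) [Group G] (N : Subgroup G) [N.Normal], X G → X (G ⧸ N)
  /-- a finite soluble group all of whose primitive quotients lie in `X` lies in `X` -/
  prim : ∀ (G : Type) [Group G], Finite G → Group.IsSolvable G →
    (∀ (N : Subgroup G) [N.Normal], Primitive (G ⧸ N) → X (G ⧸ N)) → X G

/-- `H` is a maximal `X`-subgroup of `G`. -/
def MaxSub (X : ∀ (G : Type) [Group G], Prop) {G : Type} [Group G] (H : Subgroup G) : Prop :=
  X H ∧ ∀ K : Subgroup G, H ≤ K → X K → K = H

/-- `H` is an `X`-projector of `G`: `H N / N` is a maximal `X`-subgroup of `G / N` for every normal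
subgroup `N`. -/
def Projector (X : ∀ (G : Type) [Group G], Prop) {G : Type} [Group G] (H : Subgroup G) : Prop :=
  ∀ (N : Subgroup G) [N.Normal], MaxSub X (H.map (QuotientGroup.mk' N))

/-- `X` is a `D`-class: a Schunck class for which, in every finite soluble group, every maximal
`X`-subgroup is an `X`-projector. -/
def IsDClass (X : ∀ (G : Type) [Group G], Prop) : Prop :=
  IsSchunck X ∧ ∀ (G : Type) [Group G], Finite G → Group.IsSolvable G →
    ∀ H : Subgroup G, MaxSub X H → Projector X H

/-- The class `X Y` of the groups `G` with a normal subgroup `N` in `X` such that `G / N` is in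
`Y`. -/
def Prod (X Y : ∀ (G : Type) [Group G], Prop) (G : Type) [Group G] : Prop :=
  ∃ (N : Subgroup G) (_ : N.Normal), X N ∧ Y (G ⧸ N)

/-- `X ^ 2 = X`. -/
def SquareEq (X : ∀ (G : Type) [Group G], Prop) : Prop :=
  ∀ (G : Type) [Group G], Prod X X G ↔ X G

/-- The join `X ∨ Y`: the class of the finite soluble groups `G` generated by `S` and `T` whenever
`S` is an `X`-projector and `T` is a `Y`-projector of `G`. -/
def Join (X Y : ∀ (G : Type) [Group G], Prop) (G : Type) [Group G] : Prop :=
  Finite G ∧ Group.IsSolvable G ∧
    ∀ S T : Subgroup G, Projector X S → Projector Y T → S ⊔ T = ⊤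

end Pool.Agent.V35
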