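import Mathlib
import Pool.Agent.V35.SchunckDefs

/-!
# The Schunck class without quotients of odd prime order, `D₁₀` and `3⁴ : (5 : 4)`
-/

set_option autoImplicit false

namespace Pool.Agent.V35

open Pool.Agent.V1135 Function

/-- The Frobenius group of order `20`. -/
abbrev F20 : Type := Semi (ZMod 5)ˣ (ZMod 5)

/-- The dihedral group of order `10`. -/
abbrev D10 : Type := Semi ℤˣ (ZMod 5)

/-- The functions from `ZMod 5` to `ZMod 3` with sum zero. -/
def V0 : AddSubgroup (ZMod 5 → ZMod 3) where
  carrier := {x | ∑ i, x i = 0}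
  add_mem' := by
    intro a b ha hb
    simp only [Set.mem_ofPred_eq, Pi.add_apply, Finset.sum_add_distrib] at *
    rw [ha, hb, add_zero]
  zero_mem' := by simp
  neg_mem' := by
    intro a ha
    simp only [Set.mem_ofPred_eq, Pi.neg_apply, Finset.sum_neg_distrib] at *
    rw [ha, neg_zero]

/-- The action of the Frobenius group on `ZMod 5`. -/
instance : MulAction F20 (ZMod 5) where
  smul g i := g.v + (g.q : ZMod 5) * i
  one_smul i := by
    show (1 : F20).v + (((1 : F20).q : (ZMod 5)ˣ) : ZMod 5) * i = i
    simp
  mul_smul g h i := by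
    show (g * h).v + (((g * h).q : (ZMod 5)ˣ) : ZMod 5) * i =
      g.v + (g.q : ZMod 5) * (h.v + (h.q : ZMod 5) * i)
    simp only [Semi.mul_v, Semi.mul_q, Units.smul_def, smul_eq_mul, Units.val_mul]
    ring

theorem smul_def' (g : F20) (i : ZMod 5) : g • i = g.v + (g.q : ZMod 5) * i := rfl

/-- The action of the Frobenius group on the module `V0`. -/
instance : DistribMulAction F20 V0 where
  smul g x := ⟨fun i => x.1 (g⁻¹ • i), by
    exact (Equiv.sum_comp (MulAction.toPerm g⁻¹) x.1).trans x.2⟩
  one_smul x := by
    apply Subtype.ext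
    funext i
    show x.1 ((1 : F20)⁻¹ • i) = x.1 i
    rw [inv_one, one_smul]
  mul_smul g h x := by
    apply Subtype.ext
    funext i
    show x.1 ((g * h)⁻¹ • i) = x.1 (h⁻¹ • g⁻¹ • i)
    rw [mul_inv_rev, mul_smul]
  smul_zero g := rfl
  smul_add g x y := rfl

theorem smul_V0 (g : F20) (x : V0) (i : ZMod 5) : (g • x).1 i = x.1 (g⁻¹ • i) := rfl

/-- The group `3⁴ : (5 : 4)` of order `1620`. -/
abbrev Big : Type := Semi F20 V0

theorem card_V0 : Nat.card V0 = 81 := by
  have h := Nat.card_eq_fintype_card (α := {x : ZMod 5 → ZMod 3 // ∑ i, x i = 0})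
  have : Fintype.card {x : ZMod 5 → ZMod 3 // ∑ i, x i = 0} = 81 := by decide +kernel
  rw [this] at h
  exact h

instance : Finite V0 := Nat.finite_of_card_ne_zero (by rw [card_V0]; norm_num)

theorem card_F20 : Nat.card F20 = 20 := by
  rw [Nat.card_congr (Semi.equivProd (Q := (ZMod 5)ˣ) (V := ZMod 5)), Nat.card_prod,
    Nat.card_eq_fintype_card, Nat.card_eq_fintype_card]
  decide

theorem card_D10 : Nat.card D10 = 10 := by
  rw [Nat.card_congr (Semi.equivProd (Q := ℤˣ) (V := ZMod 5)), Nat.card_prod,
    Nat.card_eq_fintype_card, Nat.card_eq_fintype_card]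
  decide

theorem card_Big : Nat.card Big = 1620 := by
  rw [Nat.card_congr (Semi.equivProd (Q := F20) (V := V0)), Nat.card_prod, card_V0, card_F20]

/-- An additive subgroup of `V0` which is invariant under the translations is trivial. -/
theorem irr5 (W : AddSubgroup V0) (h : ∀ z : ZMod 5, ∀ w ∈ W, (Semi.inl z : F20) • w ∈ W) :
    W = ⊥ ∨ W = ⊤ := by
  let act : MulAction (Multiplicative (ZMod 5)) W :=
    { smul := fun z w => ⟨(Semi.inl z.toAdd : F20) • w.1, h _ _ w.2⟩
      one_smul := by
        intro w
        apply Subtype.ext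
        show (Semi.inl (0 : ZMod 5) : F20) • w.1 = w.1
        have : (Semi.inl (0 : ZMod 5) : F20) = 1 := rfl
        rw [this, one_smul]
      mul_smul := by
        intro a b w
        apply Subtype.ext
        show (Semi.inl (a.toAdd + b.toAdd) : F20) • w.1 =
          (Semi.inl a.toAdd : F20) • (Semi.inl b.toAdd : F20) • w.1
        rw [Semi.inl_add, mul_smul] }
  have hp : IsPGroup 5 (Multiplicative (ZMod 5)) := by
    apply IsPGroup.of_card (n := 1)
    rw [Nat.card_eq_fintype_card]
    decide
  have : Fact (Nat.Prime 5) := ⟨by norm_num⟩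
  have h1 := hp.card_modEq_card_fixedPoints W
  have hfix : Nat.card (MulAction.fixedPoints (Multiplicative (ZMod 5)) W) = 1 := by
    rw [Nat.card_eq_one_iff_unique]
    constructor
    · constructor
      have key : ∀ a : MulAction.fixedPoints (Multiplicative (ZMod 5)) W, a.1 = 0 := by
        rintro ⟨w, hw⟩
        have hw1 : ∀ i : ZMod 5, w.1.1 i = w.1.1 0 := by
          intro i
          have h2 := congrArg (fun x : W => x.1.1 i) (hw (Multiplicative.ofAdd i))
          have h3 : ((Multiplicative.ofAdd i) • w : W).1.1 i =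
              w.1.1 ((Semi.inl i : F20)⁻¹ • i) := rfl
          have h4 : (Semi.inl i : F20)⁻¹ • i = 0 := by
            rw [inv_smul_eq_iff, smul_def']
            simp
          simp only [h3, h4] at h2
          exact h2.symm
        have hs : ∑ i, w.1.1 i = 0 := w.1.2
        simp only [hw1, Finset.sum_const, Finset.card_univ, ZMod.card] at hs
        have h0 : w.1.1 0 = 0 := by
          generalize w.1.1 0 = c at hs
          revert c
          decide
        apply Subtype.ext
        apply Subtype.ext
        funext i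
        show w.1.1 i = 0
        rw [hw1, h0]
      intro a b
      exact Subtype.ext ((key a).trans (key b).symm)
    · refine ⟨⟨0, ?_⟩⟩
      intro z
      apply Subtype.ext
      exact smul_zero _
  rw [hfix] at h1
  have h2 : Nat.card W ∣ 3 ^ 4 := by
    have := AddSubgroup.card_addSubgroup_dvd_card W
    rw [card_V0] at this
    exact this
  obtain ⟨k, hk, hk2⟩ := (Nat.dvd_prime_pow (by norm_num : Nat.Prime 3)).mp h2
  interval_cases k
  · left
    rw [← AddSubgroup.card_eq_one]
    exact hk2
  · rw [hk2] at h1
    exact absurd h1 (by decide)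
  · rw [hk2] at h1
    exact absurd h1 (by decide)
  · rw [hk2] at h1
    exact absurd h1 (by decide)
  · right
    apply AddSubgroup.eq_top_of_card_eq
    rw [hk2, card_V0]
    norm_num

theorem good_F20 : Good (ZMod 5)ˣ (ZMod 5) where
  nontriv := ⟨1, by decide⟩
  irr W _ := by
    have : Fact (Nat.card (ZMod 5)).Prime := ⟨by rw [Nat.card_eq_fintype_card]; decide⟩
    exact AddSubgroup.eq_bot_or_eq_top_of_prime_card W
  faith q h := by
    have := h 1
    rw [Units.smul_def, smul_eq_mul, mul_one] at this
    exact Units.ext this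

theorem good_D10 : Good ℤˣ (ZMod 5) where
  nontriv := ⟨1, by decide⟩
  irr W _ := by
    have : Fact (Nat.card (ZMod 5)).Prime := ⟨by rw [Nat.card_eq_fintype_card]; decide⟩
    exact AddSubgroup.eq_bot_or_eq_top_of_prime_card W
  faith q h := by
    have := h 1
    rcases Int.units_eq_one_or q with rfl | rfl
    · rfl
    · exfalso
      revert this
      decide

theorem exists_third : ∀ i j : ZMod 5, ∃ k : ZMod 5, k ≠ i ∧ k ≠ j := by decide

theorem sum_diff : ∀ i k : ZMod 5, k ≠ i →
    ∑ j : ZMod 5, (if j = i then (1 : ZMod 3) else if j = k then -1 else 0) = 0 := by decide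

/-- The difference of two distinct basis vectors. -/
def diff (i k : ZMod 5) (h : k ≠ i) : V0 :=
  ⟨fun j => if j = i then 1 else if j = k then -1 else 0, sum_diff i k h⟩

theorem diff_apply (i k : ZMod 5) (h : k ≠ i) (j : ZMod 5) :
    (diff i k h).1 j = if j = i then 1 else if j = k then -1 else 0 := rfl

theorem good_Big : Good F20 V0 where
  nontriv := by
    refine ⟨diff 0 1 (by decide), fun h => ?_⟩
    have h1 := congrFun (congrArg Subtype.val h) 0
    rw [diff_apply, if_pos rfl] at h1
    revert h1
    decide
  irr W h := irr5 W fun z w hw => h _ w hw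
  faith q h := by
    have key : ∀ i : ZMod 5, q⁻¹ • i = i := by
      intro i
      by_contra hne
      obtain ⟨k, hk1, hk2⟩ := exists_third i (q⁻¹ • i)
      have h1 := congrFun (congrArg Subtype.val (h (diff i k hk1))) i
      rw [smul_V0, diff_apply, diff_apply, if_neg hne, if_neg hk2.symm, if_pos rfl] at h1
      revert h1
      decide
    have h0 := key 0
    have h1 := key 1
    rw [smul_def'] at h0 h1
    have h2 : (q⁻¹ : F20) = 1 := by
      have hv : (q⁻¹ : F20).v = 0 := by simpa using h0
      ext
      · exact hv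
      · rw [hv, zero_add, mul_one] at h1
        rw [h1]
        rfl
    exact inv_eq_one.mp h2

end Pool.Agent.V35
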