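import Mathlib
import Pool.Agent.V35.SchunckX

/-!
# The Schunck class without quotients of odd prime order, `D₁₀` and `3⁴ : (5 : 4)`, II
-/

set_option autoImplicit false

namespace Pool.Agent.V35

open Pool.Agent.V1135 Function

instance semi_solvable {Q V : Type} [Group Q] [AddCommGroup V] [DistribMulAction Q V]
    [Group.IsSolvable Q] : Group.IsSolvable (Semi Q V) := by
  let f : Multiplicative V →* Semi Q V :=
    { toFun := fun v => Semi.inl v.toAdd
      map_one' := rfl
      map_mul' := fun a b => Semi.inl_add _ _ }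
  apply Group.isSolvable_of_ker_le_range f (Semi.proj : Semi Q V →* Q)
  intro x hx
  rw [MonoidHom.mem_ker, Semi.proj_apply] at hx
  refine ⟨Multiplicative.ofAdd x.v, ?_⟩
  ext
  · rfl
  · exact hx.symm

/-- The class of the finite soluble groups that have no quotient of odd prime order, no quotient
isomorphic to `D₁₀` and no quotient isomorphic to `3⁴ : (5 : 4)`. -/
def XX (G : Type) [Group G] : Prop :=
  Finite G ∧ Group.IsSolvable G ∧
  (∀ q : ℕ, q.Prime → q ≠ 2 → ∀ f : G →* Multiplicative (ZMod q), ¬ Surjective f) ∧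
  (∀ f : G →* D10, ¬ Surjective f) ∧ (∀ f : G →* Big, ¬ Surjective f)

theorem XX.surj {G H : Type} [Group G] [Group H] (h : XX G) (f : G →* H) (hf : Surjective f) :
    XX H := by
  obtain ⟨h1, h2, h3, h4, h5⟩ := h
  refine ⟨Finite.of_surjective f hf, Group.isSolvable_of_surjective hf, ?_, ?_, ?_⟩
  · intro q hq hq2 g hg
    exact h3 q hq hq2 (g.comp f) (hg.comp hf)
  · intro g hg
    exact h4 (g.comp f) (hg.comp hf)
  · intro g hg
    exact h5 (g.comp f) (hg.comp hf)

theorem odd_one {q : ℕ} (hq : q.Prime) (h2 : q ≠ 2) (x : Multiplicative (ZMod q)) (k : ℕ)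
    (hx : x ^ (2 ^ k) = 1) : x = 1 := by
  have : NeZero q := ⟨hq.ne_zero⟩
  have h3 : orderOf x ∣ q := by
    have := orderOf_dvd_natCard x
    rwa [Nat.card_eq_fintype_card, Fintype.card_multiplicative, ZMod.card] at this
  have h4 : orderOf x ∣ 2 ^ k := orderOf_dvd_of_pow_eq_one hx
  have h5 : Nat.Coprime q (2 ^ k) := by
    apply Nat.Coprime.pow_right
    exact (Nat.coprime_primes hq Nat.prime_two).mpr h2
  have h6 : orderOf x = 1 := Nat.eq_one_of_dvd_coprimes h5 h3 h4
  exact orderOf_eq_one_iff.mp h6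

theorem not_surj_of_trivial {G : Type} [Group G] {q : ℕ} (hq : q.Prime)
    (f : G →* Multiplicative (ZMod q)) (h : ∀ x, f x = 1) : ¬ Surjective f := by
  intro hs
  have : Fact q.Prime := ⟨hq⟩
  obtain ⟨x, hx⟩ := hs (Multiplicative.ofAdd 1)
  rw [h] at hx
  have : (0 : ZMod q) = 1 := congrArg Multiplicative.toAdd hx
  exact zero_ne_one this

theorem not_surj_of_card {G H : Type} [Group G] [Group H] [Finite G] (h : Nat.card G < Nat.card H)
    (f : G →* H) : ¬ Surjective f := by
  intro hs
  exact absurd (Nat.card_le_card_of_surjective f hs) (by omega)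

/-- The unit `2` modulo `5`. -/
def u2 : (ZMod 5)ˣ := ⟨2, 3, by decide, by decide⟩

theorem F20_inl_conj (v : ZMod 5) :
    (Semi.inr u2 : F20) * Semi.inl v * (Semi.inr u2)⁻¹ = Semi.inl v * Semi.inl v := by
  rw [conj_inl, ← Semi.inl_add]
  congr 1
  show (2 : ZMod 5) * v = v + v
  ring

theorem XX_F20 : XX F20 := by
  refine ⟨inferInstance, inferInstance, ?_, ?_, ?_⟩
  · intro q hq h2 f
    apply not_surj_of_trivial hq
    have h1 : ∀ v : ZMod 5, f (Semi.inl v) = 1 := by
      intro v
      have h := congrArg f (F20_inl_conj v)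
      rw [map_mul, map_mul, map_mul, map_inv, mul_comm (f (Semi.inr u2)), mul_assoc,
        mul_inv_cancel, mul_one] at h
      exact left_eq_mul.mp h
    have h3 : ∀ u : (ZMod 5)ˣ, f (Semi.inr u) = 1 := by
      intro u
      apply odd_one hq h2 _ 2
      rw [← map_pow, ← map_pow]
      have : u ^ (2 ^ 2) = 1 := by
        revert u
        decide
      rw [this, map_one, map_one]
    intro x
    have : x = Semi.inl x.v * Semi.inr x.q := by ext <;> simp
    rw [this, map_mul, h1, h3, mul_one]
  · intro f hs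
    have h1 : ∀ v : ZMod 5, f (Semi.inl v) = 1 := by
      intro v
      have h := congrArg f (F20_inl_conj v)
      rw [map_mul, map_mul, map_mul, map_inv] at h
      have h5 : f (Semi.inl v) ^ 5 = 1 := by
        rw [← map_pow, ← Semi.inl_nsmul]
        have h55 : ∀ v : ZMod 5, (5 • v : ZMod 5) = 0 := by decide
        rw [h55]
        exact map_one f
      have h6 : (f (Semi.inl v)).q = 1 := by
        have := congrArg Semi.q h5
        rw [Semi.pow_q] at this
        have h7 : ∀ e : ℤˣ, e ^ 5 = 1 → e = 1 := by decide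
        exact h7 _ this
      have h8 : f (Semi.inl v) = Semi.inl (f (Semi.inl v)).v := Semi.ext rfl h6
      rw [h8, conj_inl, ← Semi.inl_add] at h
      have h9 := congrArg Semi.v h
      simp only [Semi.inl_v] at h9
      have h10 : ∀ e : ℤˣ, ∀ w : ZMod 5, e • w = w + w → w = 0 := by decide
      rw [h8, h10 _ _ h9]
      rfl
    have h2 : ∀ x : F20, f x = f (Semi.inr x.q) := by
      intro x
      have : x = Semi.inl x.v * Semi.inr x.q := by ext <;> simp
      conv_lhs => rw [this]
      rw [map_mul, h1, one_mul]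
    obtain ⟨x, hx⟩ := hs (Semi.inl 1)
    obtain ⟨y, hy⟩ := hs (Semi.inr (-1))
    have h3 : f (x * y) = f (y * x) := by
      rw [h2 (x * y), h2 (y * x), Semi.mul_q, Semi.mul_q, mul_comm]
    rw [map_mul, map_mul, hx, hy] at h3
    have h4 := congrArg Semi.v h3
    revert h4
    decide
  · apply not_surj_of_card
    rw [card_F20, card_Big]
    norm_num

/-- The symmetric group on three letters. -/
abbrev S3' : Type := Semi ℤˣ (ZMod 3)

theorem card_S3' : Nat.card S3' = 6 := by
  rw [Nat.card_congr (Semi.equivProd (Q := ℤˣ) (V := ZMod 3)), Nat.card_prod,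
    Nat.card_eq_fintype_card, Nat.card_eq_fintype_card]
  decide

theorem XX_S3' : XX S3' := by
  refine ⟨inferInstance, inferInstance, ?_, ?_, ?_⟩
  · intro q hq h2 f
    apply not_surj_of_trivial hq
    have h1 : ∀ v : ZMod 3, f (Semi.inl v) = 1 := by
      intro v
      have h0 : (Semi.inr (-1) : S3') * Semi.inl v * (Semi.inr (-1))⁻¹ = (Semi.inl v)⁻¹ := by
        rw [conj_inl]
        have h00 : ∀ v : ZMod 3, (-1 : ℤˣ) • v = -((1 : ℤˣ) • v) := by decide
        exact Semi.ext (h00 v) rfl
      have h := congrArg f h0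
      rw [map_mul, map_mul, map_inv, map_inv, mul_comm (f (Semi.inr (-1))), mul_assoc,
        mul_inv_cancel, mul_one] at h
      apply odd_one hq h2 _ 1
      rw [pow_one, sq]
      nth_rewrite 1 [h]
      rw [inv_mul_cancel]
    have h3 : ∀ u : ℤˣ, f (Semi.inr u) = 1 := by
      intro u
      apply odd_one hq h2 _ 1
      rw [← map_pow, ← map_pow]
      have : u ^ (2 ^ 1) = 1 := by
        revert u
        decide
      rw [this, map_one, map_one]
    intro x
    have : x = Semi.inl x.v * Semi.inr x.q := by ext <;> simp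
    rw [this, map_mul, h1, h3, mul_one]
  · apply not_surj_of_card
    rw [card_S3', card_D10]
    norm_num
  · apply not_surj_of_card
    rw [card_S3', card_Big]
    norm_num

theorem mem_iff_inr {Q V : Type} [Group Q] [AddCommGroup V] [DistribMulAction Q V]
    {N : Subgroup (Semi Q V)} (h : ∀ v : V, (Semi.inl v : Semi Q V) ∈ N) (x : Semi Q V) :
    x ∈ N ↔ (Semi.inr x.q : Semi Q V) ∈ N := by
  have h1 : x = Semi.inl x.v * Semi.inr x.q := by ext <;> simp
  constructor
  · intro hx
    rw [h1] at hx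
    exact (Subgroup.mul_mem_cancel_left N (h _)).mp hx
  · intro hx
    rw [h1]
    exact N.mul_mem (h _) hx

theorem not_XX_cyclic {q : ℕ} (hq : q.Prime) (h2 : q ≠ 2) (N : Subgroup (Multiplicative (ZMod q)))
    (hN : N ≠ ⊥) : ¬ XX N := by
  intro hX
  have : Fact (Nat.card (Multiplicative (ZMod q))).Prime := by
    have : NeZero q := ⟨hq.ne_zero⟩
    refine ⟨?_⟩
    rwa [Nat.card_eq_fintype_card, Fintype.card_multiplicative, ZMod.card]
  rcases Subgroup.eq_bot_or_eq_top_of_prime_card N with h | h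
  · exact hN h
  · subst h
    exact hX.2.2.1 q hq h2 (Subgroup.subtype _) fun x => ⟨⟨x, Subgroup.mem_top x⟩, rfl⟩

/-- The homomorphism to the normal subgroup from a subgroup which lies in the normal subgroup. -/
theorem not_XX_of_q_one {Q V : Type} [Group Q] [AddCommGroup V] [DistribMulAction Q V]
    {N : Subgroup (Semi Q V)} (h : ∀ v : V, (Semi.inl v : Semi Q V) ∈ N)
    (h1 : ∀ x ∈ N, x.q = 1) {q : ℕ} (hq : q.Prime) (h2 : q ≠ 2) (g : V →+ ZMod q)
    (hg : Surjective g) : ¬ XX N := by
  intro hX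
  let f : N →* Multiplicative (ZMod q) :=
    { toFun := fun x => Multiplicative.ofAdd (g x.1.v)
      map_one' := by
        show Multiplicative.ofAdd (g 0) = 1
        rw [map_zero]
        rfl
      map_mul' := by
        intro x y
        show Multiplicative.ofAdd (g (x.1.v + x.1.q • y.1.v)) = _
        rw [h1 x.1 x.2, one_smul, map_add]
        rfl }
  apply hX.2.2.1 q hq h2 f
  intro z
  obtain ⟨v, hv⟩ := hg z.toAdd
  refine ⟨⟨Semi.inl v, h v⟩, ?_⟩
  show Multiplicative.ofAdd (g v) = z
  rw [hv]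
  rfl

theorem not_XX_top {G : Type} [Group G] {N : Subgroup G} (hN : N = ⊤) (hG : ¬ XX G) : ¬ XX N := by
  intro hX
  subst hN
  exact hG (hX.surj (Subgroup.subtype _) fun x => ⟨⟨x, Subgroup.mem_top x⟩, rfl⟩)

theorem not_XX_D10 : ¬ XX D10 := fun h => h.2.2.2.1 (MonoidHom.id D10) surjective_id

theorem not_XX_Big : ¬ XX Big := fun h => h.2.2.2.2 (MonoidHom.id Big) surjective_id

theorem not_XX_D10_normal (N : Subgroup D10) [N.Normal] (hN : N ≠ ⊥) : ¬ XX N := by
  have h := inl_mem_of_normal good_D10 N hN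
  by_cases h1 : ∀ x ∈ N, x.q = 1
  · exact not_XX_of_q_one h h1 (by norm_num : Nat.Prime 5) (by norm_num) (AddMonoidHom.id (ZMod 5))
      surjective_id
  · push Not at h1
    obtain ⟨x, hx, hx1⟩ := h1
    apply not_XX_top _ not_XX_D10
    rw [eq_top_iff]
    intro y _
    rw [mem_iff_inr h]
    rcases Int.units_eq_one_or y.q with hy | hy
    · rw [hy, map_one]
      exact N.one_mem
    · rw [mem_iff_inr h] at hx
      rcases Int.units_eq_one_or x.q with hx2 | hx2
      · exact absurd hx2 hx1
      · rw [hy, ← hx2]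
        exact hx

/-- The sign of a unit of order at most two modulo `5`. -/
def sgn5 (u : (ZMod 5)ˣ) : ℤˣ := if u = 1 then 1 else -1

theorem not_XX_F20_normal (N : Subgroup F20) [N.Normal] (hN : N ≠ ⊥) (hN' : N ≠ ⊤) : ¬ XX N := by
  have h := inl_mem_of_normal good_F20 N hN
  by_cases h1 : ∀ x ∈ N, x.q = 1
  · exact not_XX_of_q_one h h1 (by norm_num : Nat.Prime 5) (by norm_num) (AddMonoidHom.id (ZMod 5))
      surjective_id
  · push Not at h1
    obtain ⟨x, hx, hx1⟩ := h1
    have h2 : ∀ y ∈ N, y.q = 1 ∨ y.q = -1 := by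
      intro y hy
      by_contra hcon
      apply hN'
      rw [eq_top_iff]
      intro z _
      rw [mem_iff_inr h] at hy ⊢
      have h3 : ∀ u w : (ZMod 5)ˣ, ¬ (u = 1 ∨ u = -1) → w = u ^ 0 ∨ w = u ^ 1 ∨ w = u ^ 2 ∨
          w = u ^ 3 := by decide
      rcases h3 y.q z.q hcon with h4 | h4 | h4 | h4 <;> rw [h4, map_pow] <;>
        exact N.pow_mem hy _
    intro hX
    let f : N →* D10 :=
      { toFun := fun y => ⟨y.1.v, sgn5 y.1.q⟩
        map_one' := rfl
        map_mul' := by
          intro y z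
          have h5 : ∀ u w : (ZMod 5)ˣ, (u = 1 ∨ u = -1) → (w = 1 ∨ w = -1) →
            sgn5 (u * w) = sgn5 u * sgn5 w := by decide
          have h6 : ∀ u : (ZMod 5)ˣ, ∀ v : ZMod 5, (u = 1 ∨ u = -1) → u • v = sgn5 u • v := by
            decide
          apply Semi.ext
          · show y.1.v + y.1.q • z.1.v = y.1.v + sgn5 y.1.q • z.1.v
            rw [h6 _ _ (h2 _ y.2)]
          · exact h5 _ _ (h2 _ y.2) (h2 _ z.2) }
    apply hX.2.2.2.1 f
    intro z
    have hx2 : x.q = -1 := (h2 x hx).resolve_left hx1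
    rw [mem_iff_inr h, hx2] at hx
    rcases Int.units_eq_one_or z.q with hz | hz
    · refine ⟨⟨Semi.inl z.v, h _⟩, ?_⟩
      exact Semi.ext rfl hz.symm
    · refine ⟨⟨⟨z.v, -1⟩, (mem_iff_inr h _).mpr hx⟩, ?_⟩
      exact Semi.ext rfl hz.symm

/-- The value at `0`. -/
def ev0 : V0 →+ ZMod 3 where
  toFun x := x.1 0
  map_zero' := rfl
  map_add' _ _ := rfl

theorem ev0_surj : Surjective ev0 := by
  intro z
  refine ⟨z.val • diff 0 1 (by decide), ?_⟩
  rw [map_nsmul]
  show z.val • (1 : ZMod 3) = z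
  revert z
  decide

theorem not_XX_Big_normal (N : Subgroup Big) [hNn : N.Normal] (hN : N ≠ ⊥) : ¬ XX N := by
  have h := inl_mem_of_normal good_Big N hN
  by_cases h1 : ∀ x ∈ N, x.q = 1
  · exact not_XX_of_q_one h h1 (by norm_num : Nat.Prime 3) (by norm_num) ev0 ev0_surj
  · intro hX
    have hps : Surjective (Semi.proj : Big →* F20) := fun q => ⟨Semi.inr q, rfl⟩
    let f : N →* N.map (Semi.proj : Big →* F20) := (Semi.proj : Big →* F20).subgroupMap N
    have hf : Surjective f := (Semi.proj : Big →* F20).subgroupMap_surjective N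
    have hR := hX.surj f hf
    have hRn : (N.map (Semi.proj : Big →* F20)).Normal := hNn.map _ hps
    have hR1 : N.map (Semi.proj : Big →* F20) ≠ ⊥ := by
      intro hb
      apply h1
      intro x hx
      have : Semi.proj x ∈ N.map (Semi.proj : Big →* F20) := Subgroup.mem_map_of_mem _ hx
      rw [hb, Subgroup.mem_bot] at this
      exact this
    have hR2 : N.map (Semi.proj : Big →* F20) = ⊤ := by
      by_contra hcon
      exact not_XX_F20_normal _ hR1 hcon hR
    apply not_XX_top _ not_XX_Big hX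
    rw [eq_top_iff]
    intro y _
    have : y.q ∈ N.map (Semi.proj : Big →* F20) := by rw [hR2]; trivial
    obtain ⟨x, hx, hxy⟩ := Subgroup.mem_map.mp this
    have hxy' : x.q = y.q := hxy
    rw [mem_iff_inr h] at hx ⊢
    rw [← hxy']
    exact hx

end Pool.Agent.V35
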