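import Mathlib
import Pool.Agent.V35.SchunckXX

/-!
# The Schunck class without quotients of odd prime order, `D₁₀` and `3⁴ : (5 : 4)`, III
-/

set_option autoImplicit false

namespace Pool.Agent.V35

open Pool.Agent.V1135 Function

theorem XX_schunck : IsSchunck (fun G _ => XX G) where
  finite G _ h := h.1
  soluble G _ h := h.2.1
  iso G H _ _ e h := by
    obtain ⟨e⟩ := e
    exact h.surj e.toMonoidHom e.surjective
  quot G _ N _ h := h.surj (QuotientGroup.mk' N) (QuotientGroup.mk'_surjective N)
  prim G _ hfin hsol h := by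
    have key : ∀ (Q : Type) [Group Q], Primitive Q → ∀ f : G →* Q, Surjective f → XX Q := by
      intro Q _ hQ f hf
      have e : G ⧸ f.ker ≃* Q := QuotientGroup.quotientKerEquivOfSurjective f hf
      exact (h f.ker (hQ.of_equiv e.symm)).surj e.toMonoidHom e.surjective
    refine ⟨hfin, hsol, ?_, ?_, ?_⟩
    · intro q hq h2 f hf
      have : NeZero q := ⟨hq.ne_zero⟩
      have hprim : Primitive (Multiplicative (ZMod q)) := by
        apply Primitive.of_prime hq
        rw [Nat.card_eq_fintype_card, Fintype.card_multiplicative, ZMod.card]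
      exact (key _ hprim f hf).2.2.1 q hq h2 (MonoidHom.id _) surjective_id
    · intro f hf
      exact not_XX_D10 (key _ good_D10.primitive f hf)
    · intro f hf
      exact not_XX_Big (key _ good_Big.primitive f hf)

/-- If `N` is a normal subgroup of `G` and a group `Q` is a quotient of `G` but not of `G / N`, then
some nontrivial normal subgroup of `Q` is a quotient of `N`. -/
theorem exists_normal {G Q : Type} [Group G] [Group Q] (N : Subgroup G) [N.Normal] (f : G →* Q)
    (hf : Surjective f) (h : ∀ g : G ⧸ N →* Q, ¬ Surjective g) : N.map f ≠ ⊥ := by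
  intro hb
  have hle : N ≤ f.ker := by
    intro x hx
    have : f x ∈ N.map f := Subgroup.mem_map_of_mem f hx
    rw [hb, Subgroup.mem_bot] at this
    exact this
  apply h (QuotientGroup.lift N f hle)
  intro q
  obtain ⟨x, hx⟩ := hf q
  exact ⟨QuotientGroup.mk x, hx⟩

theorem XX_square : SquareEq (fun G _ => XX G) := by
  intro G _
  constructor
  · rintro ⟨N, hN, hXN, hXQ⟩
    have hfin : Finite G := by
      have h1 := hXN.1
      have h2 := hXQ.1
      have : N.FiniteIndex := Subgroup.finiteIndex_of_finite_quotient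
      have h3 : Nat.card N * N.index = Nat.card G := Subgroup.card_mul_index N
      apply Nat.finite_of_card_ne_zero
      rw [← h3]
      exact Nat.mul_ne_zero Nat.card_pos.ne' this.index_ne_zero
    have hsol : Group.IsSolvable G :=
      (Group.isSolvable_iff_subgroup_quotient N).mpr ⟨hXN.2.1, hXQ.2.1⟩
    have hmap : ∀ (Q : Type) [Group Q] (f : G →* Q), XX (N.map f) := by
      intro Q _ f
      exact hXN.surj (f.subgroupMap N) (f.subgroupMap_surjective N)
    refine ⟨hfin, hsol, ?_, ?_, ?_⟩
    · intro q hq h2 f hf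
      exact not_XX_cyclic hq h2 _ (exists_normal N f hf (hXQ.2.2.1 q hq h2)) (hmap _ f)
    · intro f hf
      have : (N.map f).Normal := hN.map f hf
      exact not_XX_D10_normal _ (exists_normal N f hf hXQ.2.2.2.1) (hmap _ f)
    · intro f hf
      have : (N.map f).Normal := hN.map f hf
      exact not_XX_Big_normal _ (exists_normal N f hf hXQ.2.2.2.2) (hmap _ f)
  · intro h
    refine ⟨⊤, inferInstance, ?_, ?_⟩
    · exact h.surj (Subgroup.topEquiv (G := G)).symm.toMonoidHom
        (Subgroup.topEquiv (G := G)).symm.surjective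
    · exact h.surj (QuotientGroup.mk' ⊤) (QuotientGroup.mk'_surjective ⊤)

/-- A homomorphism from the symmetric group of degree three. -/
def homS3 {G : Type} [Group G] (a t : G) (ha : a ^ 3 = 1) (ht : t * t = 1)
    (hta : t * a * t⁻¹ = a⁻¹) : S3' →* G where
  toFun x := a ^ x.v.val * (if x.q = 1 then 1 else t)
  map_one' := by simp
  map_mul' := by
    have hadd : ∀ v w : ZMod 3, a ^ (v + w).val = a ^ v.val * a ^ w.val := by
      intro v w
      rw [← pow_add, ZMod.val_add, ← pow_mod_orderOf]
      conv_rhs => rw [← pow_mod_orderOf]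
      congr 1
      have h3 : orderOf a ∣ 3 := orderOf_dvd_of_pow_eq_one ha
      exact Nat.mod_mod_of_dvd _ h3
    have hcomm : ∀ v : ZMod 3, t * a ^ v.val = a ^ (-v).val * t := by
      intro v
      have h1 : t * a ^ v.val * t⁻¹ = (a ^ v.val)⁻¹ := by
        rw [← conj_pow, hta, inv_pow]
      have h2 : (a ^ v.val)⁻¹ = a ^ (-v).val := by
        rw [inv_eq_iff_mul_eq_one, ← hadd, add_neg_cancel]
        simp
      rw [← h2, ← h1]
      simp
    intro x y
    rcases Int.units_eq_one_or x.q with hx | hx <;> rcases Int.units_eq_one_or y.q with hy | hy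
    · simp only [Semi.mul_v, Semi.mul_q, hx, hy, one_smul, mul_one, if_true, hadd]
    · simp only [Semi.mul_v, Semi.mul_q, hx, hy, one_smul, mul_one, if_true, hadd, one_mul,
        mul_assoc]
    · simp only [Semi.mul_v, Semi.mul_q, hx, hy, mul_one, if_true, hadd]
      rw [if_neg (by decide), mul_assoc, mul_assoc, hcomm, Units.neg_smul, one_smul]
    · simp only [Semi.mul_v, Semi.mul_q, hx, hy, hadd]
      rw [if_neg (by decide : ¬ ((-1 : ℤˣ) = 1)), if_pos (by decide), Units.neg_smul, one_smul,
        mul_one, mul_assoc (a ^ x.v.val) t, ← mul_assoc t, hcomm, mul_assoc _ t t, ht, mul_one]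

theorem homS3_a {G : Type} [Group G] (a t : G) (ha : a ^ 3 = 1) (ht : t * t = 1)
    (hta : t * a * t⁻¹ = a⁻¹) : homS3 a t ha ht hta (Semi.inl 1) = a := by
  show a ^ (1 : ZMod 3).val * (if (1 : ℤˣ) = 1 then 1 else t) = a
  rw [if_pos rfl, mul_one]
  exact pow_one a

theorem homS3_t {G : Type} [Group G] (a t : G) (ha : a ^ 3 = 1) (ht : t * t = 1)
    (hta : t * a * t⁻¹ = a⁻¹) : homS3 a t ha ht hta (Semi.inr (-1)) = t := by
  show a ^ (0 : ZMod 3).val * (if (-1 : ℤˣ) = 1 then 1 else t) = t
  rw [if_neg (by decide)]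
  simp

/-- The range of a homomorphism from a member of the class is in the class. -/
theorem XX.range {G H : Type} [Group G] [Group H] (h : XX G) (f : G →* H) : XX f.range :=
  h.surj f.rangeRestrict f.rangeRestrict_surjective

/-- A subgroup of `3⁴ : (5 : 4)` that covers the top and meets the bottom nontrivially is the whole
group. -/
theorem Big_full (W : Subgroup Big) (h1 : ∀ q : F20, ∃ w ∈ W, w.q = q) (v : V0) (hv : v ≠ 0)
    (hvW : (Semi.inl v : Big) ∈ W) : W = ⊤ := by
  have hinv : ∀ (q : F20), ∀ w ∈ part W, q • w ∈ part W := by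
    intro q w hw
    obtain ⟨x, hx, rfl⟩ := h1 q
    have := W.mul_mem (W.mul_mem hx hw) (W.inv_mem hx)
    rw [conj_inl] at this
    exact this
  have htop : part W = ⊤ := by
    rcases good_Big.irr (part W) hinv with h | h
    · exfalso
      have : v ∈ part W := hvW
      rw [h, AddSubgroup.mem_bot] at this
      exact hv this
    · exact h
  rw [eq_top_iff]
  intro y _
  obtain ⟨x, hx, hxy⟩ := h1 y.q
  have h2 : ∀ v : V0, (Semi.inl v : Big) ∈ W := by
    intro v
    have : v ∈ part W := by rw [htop]; trivial
    exact this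
  rw [mem_iff_inr h2] at hx ⊢
  rw [← hxy]
  exact hx

theorem diff_ne_zero (i k : ZMod 5) (h : k ≠ i) : diff i k h ≠ 0 := by
  intro h0
  have h1 := congrFun (congrArg Subtype.val h0) i
  rw [diff_apply, if_pos rfl] at h1
  exact (one_ne_zero : (1 : ZMod 3) ≠ 0) h1

/-- An involution negates the difference of two points that it exchanges. -/
theorem smul_diff (g : F20) (i : ZMod 5) (hg : g⁻¹ = g) (h : g • i ≠ i) :
    g • diff i (g • i) h = -diff i (g • i) h := by
  apply Subtype.ext
  funext j
  show (diff i (g • i) h).1 (g⁻¹ • j) = -(diff i (g • i) h).1 j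
  rw [hg, diff_apply, diff_apply]
  have h2 : g • g • i = i := by
    rw [smul_smul]
    nth_rewrite 1 [← hg]
    rw [inv_mul_cancel, one_smul]
  by_cases hj : j = i
  · subst hj
    rw [if_neg h, if_pos rfl, if_pos rfl]
  · by_cases hj2 : j = g • i
    · subst hj2
      rw [h2, if_pos rfl, if_neg h, if_pos rfl, neg_neg]
    · rw [if_neg, if_neg, if_neg hj, if_neg hj2, neg_zero]
      · intro h3
        exact hj (MulAction.injective g h3)
      · intro h3
        apply hj2
        rw [← h3, smul_smul]
        nth_rewrite 1 [← hg]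
        rw [inv_mul_cancel, one_smul]

theorem three_V0 (v : V0) : (3 : ℕ) • v = 0 := by
  apply Subtype.ext
  funext i
  show (3 : ℕ) • v.1 i = 0
  generalize v.1 i = c
  revert c
  decide

end Pool.Agent.V35
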