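import Mathlib
import Pool.Agent.V35.SchunckSq

/-!
# The class of `5`-groups as a Schunck class, and projectors
-/

set_option autoImplicit false

namespace Pool.Agent.V35

open Pool.Agent.V1135 Function

/-- The class of the finite `5`-groups. -/
def YY (G : Type) [Group G] : Prop := Finite G ∧ Group.IsSolvable G ∧ IsPGroup 5 G

theorem YY.surj {G H : Type} [Group G] [Group H] (h : YY G) (f : G →* H) (hf : Surjective f) :
    YY H :=
  ⟨@Finite.of_surjective _ _ h.1 f hf, @Group.isSolvable_of_surjective _ _ _ _ f hf h.2.1,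
    h.2.2.of_surjective f hf⟩

/-- The quotient by the core of a maximal subgroup is primitive. -/
theorem primitive_core {G : Type} [Group G] (M : Subgroup G) (hM : IsCoatom M) :
    Primitive (G ⧸ M.normalCore) := by
  have hcomap : (M.map (QuotientGroup.mk' M.normalCore)).comap (QuotientGroup.mk' M.normalCore)
      = M := by
    rw [Subgroup.comap_map_eq, QuotientGroup.ker_mk', sup_eq_left]
    exact M.normalCore_le
  refine ⟨M.map (QuotientGroup.mk' M.normalCore), ⟨?_, ?_⟩, ?_⟩
  · intro h
    rw [h, Subgroup.comap_top] at hcomap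
    exact hM.1 hcomap.symm
  · intro K hK
    have h1 : M < K.comap (QuotientGroup.mk' M.normalCore) := by
      refine lt_of_le_of_ne ?_ ?_
      · exact Subgroup.map_le_iff_le_comap.mp hK.le
      · intro h
        apply hK.ne
        have h0 := congrArg (Subgroup.map (QuotientGroup.mk' M.normalCore)) h
        rw [Subgroup.map_comap_eq_self_of_surjective (QuotientGroup.mk'_surjective _)] at h0
        exact h0
    have h2 := hM.2 _ h1
    rw [← Subgroup.map_comap_eq_self_of_surjective (QuotientGroup.mk'_surjective _) K, h2,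
      Subgroup.map_top_of_surjective _ (QuotientGroup.mk'_surjective _)]
  · rw [eq_bot_iff]
    intro x hx
    obtain ⟨g, rfl⟩ := QuotientGroup.mk'_surjective _ x
    rw [Subgroup.mem_bot]
    show (QuotientGroup.mk g : G ⧸ M.normalCore) = 1
    rw [QuotientGroup.eq_one_iff]
    intro b
    have h1 := hx (QuotientGroup.mk' _ b)
    have h2 : b * g * b⁻¹ ∈ (M.map (QuotientGroup.mk' M.normalCore)).comap
        (QuotientGroup.mk' M.normalCore) := by
      rw [Subgroup.mem_comap, map_mul, map_mul, map_inv]
      exact h1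
    rw [hcomap] at h2
    exact h2

theorem YY_schunck : IsSchunck (fun G _ => YY G) where
  finite G _ h := h.1
  soluble G _ h := h.2.1
  iso G H _ _ e h := by
    obtain ⟨e⟩ := e
    exact h.surj e.toMonoidHom e.surjective
  quot G _ N _ h := h.surj (QuotientGroup.mk' N) (QuotientGroup.mk'_surjective N)
  prim G _ hfin hsol h := by
    have h5 : Fact (Nat.Prime 5) := ⟨by norm_num⟩
    refine ⟨hfin, hsol, ?_⟩
    obtain ⟨P⟩ : Nonempty (Sylow 5 G) := inferInstance
    rcases eq_top_or_exists_le_coatom (P : Subgroup G) with hP | ⟨M, hM, hPM⟩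
    · have := P.2
      rw [hP] at this
      exact this.of_surjective (Subgroup.topEquiv (G := G)).toMonoidHom
        (Subgroup.topEquiv (G := G)).surjective
    · exfalso
      have h1 := (h M.normalCore (primitive_core M hM)).2.2
      obtain ⟨k, hk⟩ := IsPGroup.iff_card.mp h1
      have h2 : M.index ∣ 5 ^ k := by
        rw [← hk]
        exact Subgroup.index_dvd_of_le M.normalCore_le
      have h3 : M.index ∣ (P : Subgroup G).index := Subgroup.index_dvd_of_le hPM
      have h4 : ¬ 5 ∣ (P : Subgroup G).index := P.not_dvd_index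
      have h6 : Nat.Coprime (5 ^ k) (P : Subgroup G).index :=
        Nat.Coprime.pow_left _ ((Nat.Prime.coprime_iff_not_dvd (by norm_num)).mpr h4)
      have h7 : M.index = 1 := Nat.eq_one_of_dvd_coprimes h6 h2 h3
      exact hM.1 (Subgroup.index_eq_one.mp h7)

theorem YY_square : SquareEq (fun G _ => YY G) := by
  intro G _
  have h5 : Fact (Nat.Prime 5) := ⟨by norm_num⟩
  constructor
  · rintro ⟨N, hN, hXN, hXQ⟩
    have h1 := hXN.1
    have h2 := hXQ.1
    have hfi : N.FiniteIndex := Subgroup.finiteIndex_of_finite_quotient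
    have h3 : Nat.card N * N.index = Nat.card G := Subgroup.card_mul_index N
    have hfin : Finite G := by
      apply Nat.finite_of_card_ne_zero
      rw [← h3]
      exact Nat.mul_ne_zero Nat.card_pos.ne' hfi.index_ne_zero
    have hsol : Group.IsSolvable G :=
      (Group.isSolvable_iff_subgroup_quotient N).mpr ⟨hXN.2.1, hXQ.2.1⟩
    refine ⟨hfin, hsol, ?_⟩
    obtain ⟨a, ha⟩ := IsPGroup.iff_card.mp hXN.2.2
    obtain ⟨b, hb⟩ := IsPGroup.iff_card.mp hXQ.2.2
    apply IsPGroup.of_card (n := a + b)
    rw [← h3, ha, pow_add]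
    congr 1
  · intro h
    refine ⟨⊤, inferInstance, ?_, ?_⟩
    · exact h.surj (Subgroup.topEquiv (G := G)).symm.toMonoidHom
        (Subgroup.topEquiv (G := G)).symm.surjective
    · exact h.surj (QuotientGroup.mk' ⊤) (QuotientGroup.mk'_surjective ⊤)

/-- Sylow `5`-subgroups are projectors. -/
theorem sylow_projector {G : Type} [Group G] [Finite G] [Group.IsSolvable G] (P : Sylow 5 G) :
    Projector (fun G _ => YY G) (P : Subgroup G) := by
  have h5 : Fact (Nat.Prime 5) := ⟨by norm_num⟩
  intro N _
  let P' : Sylow 5 (G ⧸ N) := P.mapSurjective (QuotientGroup.mk'_surjective N)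
  have hP' : (P' : Subgroup (G ⧸ N)) = (P : Subgroup G).map (QuotientGroup.mk' N) := rfl
  refine ⟨⟨inferInstance, inferInstance, ?_⟩, fun K hK hYK => ?_⟩
  · exact P'.2
  · exact P'.3 hYK.2.2 hK

/-- A projector is a maximal `X`-subgroup. -/
theorem Projector.maxSub {X : ∀ (G : Type) [Group G], Prop}
    (hX : ∀ (G H : Type) [Group G] [Group H], Nonempty (G ≃* H) → X G → X H) {G : Type} [Group G]
    {H : Subgroup G} (h : Projector X H) : MaxSub X H := by
  obtain ⟨h1, h2⟩ := h ⊥
  have hinj : Injective (QuotientGroup.mk' (⊥ : Subgroup G)) := by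
    rw [← MonoidHom.ker_eq_bot_iff, QuotientGroup.ker_mk']
  have e : ∀ K : Subgroup G, K ≃* K.map (QuotientGroup.mk' (⊥ : Subgroup G)) := fun K =>
    K.equivMapOfInjective _ hinj
  refine ⟨hX _ _ ⟨(e H).symm⟩ h1, fun K hHK hK => ?_⟩
  have h3 := h2 (K.map (QuotientGroup.mk' ⊥)) (Subgroup.map_mono hHK) (hX _ _ ⟨e K⟩ hK)
  exact Subgroup.map_injective hinj h3

/-- In a member of `X` the only projector is the whole group. -/
theorem Projector.eq_top {X : ∀ (G : Type) [Group G], Prop}
    (hX : ∀ (G H : Type) [Group G] [Group H], Nonempty (G ≃* H) → X G → X H) {G : Type} [Group G]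
    (hG : X G) {H : Subgroup G} (h : Projector X H) : H = ⊤ :=
  ((h.maxSub hX).2 ⊤ le_top (hX _ _ ⟨(Subgroup.topEquiv (G := G)).symm⟩ hG)).symm

end Pool.Agent.V35
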