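import Mathlib
import Pool.Agent.V35.SchunckY

/-!
# The subgroup `3⁴ : D₁₀` of `3⁴ : (5 : 4)`
-/

set_option autoImplicit false

namespace Pool.Agent.V35

open Pool.Agent.V1135 Function

theorem pm_mul : ∀ u w : (ZMod 5)ˣ, (u = 1 ∨ u = -1) → (w = 1 ∨ w = -1) →
    (u * w = 1 ∨ u * w = -1) := by decide

theorem pm_inv : ∀ u : (ZMod 5)ˣ, (u = 1 ∨ u = -1) → (u⁻¹ = 1 ∨ u⁻¹ = -1) := by decide

theorem sgn5_mul : ∀ u w : (ZMod 5)ˣ, (u = 1 ∨ u = -1) → (w = 1 ∨ w = -1) →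
    sgn5 (u * w) = sgn5 u * sgn5 w := by decide

theorem sgn5_smul : ∀ u : (ZMod 5)ˣ, ∀ v : ZMod 5, (u = 1 ∨ u = -1) → u • v = sgn5 u • v := by
  decide

theorem sgn5_one : ∀ u : (ZMod 5)ˣ, (u = 1 ∨ u = -1) → sgn5 u = 1 → u = 1 := by decide

theorem sgn5_neg : ∀ u : (ZMod 5)ˣ, (u = 1 ∨ u = -1) → sgn5 u = -1 → u = -1 := by decide

/-- The subgroup `3⁴ : D₁₀`. -/
def N0 : Subgroup Big where
  carrier := {x | x.q.q = 1 ∨ x.q.q = -1}
  mul_mem' := by
    intro a b ha hb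
    exact pm_mul _ _ ha hb
  one_mem' := Or.inl rfl
  inv_mem' := by
    intro a ha
    exact pm_inv _ ha

theorem mem_N0 (x : Big) : x ∈ N0 ↔ (x.q.q = 1 ∨ x.q.q = -1) := Iff.rfl

instance : N0.Normal where
  conj_mem n hn g := by
    rw [mem_N0] at hn ⊢
    have : (g * n * g⁻¹).q.q = n.q.q := by
      show g.q.q * n.q.q * (g.q.q)⁻¹ = n.q.q
      rw [mul_comm (g.q.q), mul_inv_cancel_right]
    rw [this]
    exact hn

/-- The projection of `3⁴ : D₁₀` onto `D₁₀`. -/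
def rho : N0 →* D10 where
  toFun x := ⟨x.1.q.v, sgn5 x.1.q.q⟩
  map_one' := rfl
  map_mul' x y := by
    apply Semi.ext
    · show x.1.q.v + x.1.q.q • y.1.q.v = x.1.q.v + sgn5 x.1.q.q • y.1.q.v
      rw [sgn5_smul _ _ x.2]
    · exact sgn5_mul _ _ x.2 y.2

theorem rho_v (x : N0) : (rho x).v = x.1.q.v := rfl

theorem rho_q (x : N0) : (rho x).q = sgn5 x.1.q.q := rfl

theorem rho_eq_one {x : N0} (h : rho x = 1) : x.1.q = 1 := by
  have h1 : x.1.q.v = 0 := congrArg Semi.v h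
  have h2 : sgn5 x.1.q.q = 1 := congrArg Semi.q h
  exact Semi.ext h1 (sgn5_one _ x.2 h2)

/-- The embedding of `3⁴`. -/
def il (v : V0) : N0 := ⟨Semi.inl v, Or.inl rfl⟩

theorem rho_il (v : V0) : rho (il v) = 1 := rfl

theorem eq_il {x : N0} (h : rho x = 1) : x = il x.1.v :=
  Subtype.ext (Semi.ext rfl (rho_eq_one h))

theorem il_add (v w : V0) : il (v + w) = il v * il w := Subtype.ext (Semi.inl_add v w)

theorem il_zero : il 0 = 1 := rfl

theorem il_neg (v : V0) : il (-v) = (il v)⁻¹ := by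
  rw [eq_inv_iff_mul_eq_one, ← il_add, neg_add_cancel, il_zero]

theorem conj_il (x : N0) (w : V0) : x * il w * x⁻¹ = il (x.1.q • w) :=
  Subtype.ext (conj_inl x.1 w)

theorem il_injective {v w : V0} (h : il v = il w) : v = w :=
  congrArg (fun x : N0 => x.1.v) h

/-- The part of a subgroup inside `3⁴`. -/
def part0 (L : Subgroup N0) : AddSubgroup V0 where
  carrier := {v | il v ∈ L}
  add_mem' := by
    intro a b ha hb
    show il (a + b) ∈ L
    rw [il_add]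
    exact L.mul_mem ha hb
  zero_mem' := L.one_mem
  neg_mem' := by
    intro a ha
    show il (-a) ∈ L
    rw [il_neg]
    exact L.inv_mem ha

theorem mem_part0 {L : Subgroup N0} {v : V0} : v ∈ part0 L ↔ il v ∈ L := Iff.rfl

/-- The elements of `D₁₀` outside the rotations and a nontrivial rotation generate. -/
theorem D10_gen (D : Subgroup D10) {a b : ZMod 5} (ha : a ≠ 0) (h1 : (⟨a, 1⟩ : D10) ∈ D)
    (h2 : (⟨b, -1⟩ : D10) ∈ D) : D = ⊤ := by
  have h3 : ∀ v : ZMod 5, (Semi.inl v : D10) ∈ D := by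
    intro v
    have h4 : ∀ a v : ZMod 5, a ≠ 0 → ∃ k : Fin 5, k.val • a = v := by decide
    obtain ⟨k, hk⟩ := h4 a v ha
    rw [← hk, Semi.inl_nsmul]
    exact D.pow_mem h1 _
  rw [eq_top_iff]
  intro y _
  rw [mem_iff_inr h3] at h2 ⊢
  rcases Int.units_eq_one_or y.q with hy | hy
  · rw [hy, map_one]
    exact D.one_mem
  · rw [hy]
    exact h2

/-- The reflection in `3⁴ : D₁₀`. -/
def tau : N0 := ⟨Semi.inr (Semi.inr (-1)), Or.inr rfl⟩

theorem tau_mul : tau * tau = 1 := by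
  apply Subtype.ext
  show (Semi.inr (Semi.inr (-1)) : Big) * Semi.inr (Semi.inr (-1)) = 1
  rw [← map_mul, ← map_mul, neg_mul_neg, one_mul, map_one, map_one]

/-- The rotation in `3⁴ : D₁₀`. -/
def sig : N0 := ⟨Semi.inr (Semi.inl 1), Or.inl rfl⟩

theorem sig_pow : sig ^ 5 = 1 := by
  apply Subtype.ext
  show (Semi.inr (Semi.inl 1) : Big) ^ 5 = 1
  rw [← map_pow, ← Semi.inl_nsmul]
  have : (5 • (1 : ZMod 5)) = 0 := by decide
  rw [this]
  exact map_one Semi.inr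

theorem XX_quot : XX (Big ⧸ N0) := by
  apply XX_F20.surj ((QuotientGroup.mk' N0).comp (Semi.inr : F20 →* Big))
  intro x
  obtain ⟨y, rfl⟩ := QuotientGroup.mk'_surjective _ x
  refine ⟨y.q, ?_⟩
  show (QuotientGroup.mk (Semi.inr y.q) : Big ⧸ N0) = QuotientGroup.mk y
  rw [QuotientGroup.eq, mem_N0]
  left
  show (y.q.q)⁻¹ * y.q.q = 1
  exact inv_mul_cancel _

end Pool.Agent.V35
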