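import Mathlib
import Pool.Agent.V35.SchunckN

/-!
# The group `3⁴ : D₁₀` lies in the join, the group `3⁴ : (5 : 4)` does not
-/

set_option autoImplicit false

namespace Pool.Agent.V35

open Pool.Agent.V1135 Function

theorem exists_rotation (T : Subgroup N0) (hT : MaxSub (fun G _ => YY G) T) :
    ∃ x ∈ T, ∃ a : ZMod 5, a ≠ 0 ∧ rho x = ⟨a, 1⟩ := by
  have h5 : Fact (Nat.Prime 5) := ⟨by norm_num⟩
  have hne : T ≠ ⊥ := by
    intro hb
    have hY : YY (Subgroup.zpowers sig) := by
      refine ⟨inferInstance, inferInstance, ?_⟩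
      rw [IsPGroup.iff_card]
      have h1 : Nat.card (Subgroup.zpowers sig) = orderOf sig := Nat.card_zpowers sig
      have h2 : orderOf sig ∣ 5 := orderOf_dvd_of_pow_eq_one sig_pow
      rcases (Nat.dvd_prime (by norm_num)).mp h2 with h | h
      · exact ⟨0, by rw [h1, h]; norm_num⟩
      · exact ⟨1, by rw [h1, h]; norm_num⟩
    have h1 := hT.2 (Subgroup.zpowers sig) (by rw [hb]; exact bot_le) hY
    rw [hb, Subgroup.zpowers_eq_bot] at h1
    have h2 : (rho sig).v = (rho 1).v := by rw [h1]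
    have h3 : (1 : ZMod 5) = 0 := h2
    exact one_ne_zero h3
  obtain ⟨x, hx, hx1⟩ := (Subgroup.ne_bot_iff_exists_ne_one).mp hne |>.elim
    (fun x hx => (⟨x.1, x.2, fun h => hx (Subtype.ext h)⟩ : ∃ y, y ∈ T ∧ y ≠ 1))
  obtain ⟨k, hk⟩ := hT.1.2.2 ⟨x, hx⟩
  have hk' : x ^ (5 ^ k) = 1 := congrArg Subtype.val hk
  have hq : (rho x).q = 1 := by
    have h1 : (rho x).q ^ (5 ^ k) = 1 := by
      rw [← Semi.pow_q, ← map_pow, hk', map_one]
      rfl
    have hodd : Odd (5 ^ k) := Odd.pow (by decide)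
    rcases Int.units_eq_one_or (rho x).q with h | h
    · exact h
    · rw [h, hodd.neg_one_pow] at h1
      exact absurd h1 (by decide)
  refine ⟨x, hx, (rho x).v, ?_, Semi.ext rfl hq⟩
  intro hv
  have h1 : rho x = 1 := Semi.ext hv hq
  have h2 := eq_il h1
  have h3 : x ^ 3 = 1 := by
    have : ∀ (v : V0) (n : ℕ), il (n • v) = il v ^ n := by
      intro v n
      induction n with
      | zero => simp [il_zero]
      | succ n ih => rw [succ_nsmul, il_add, ih, pow_succ]
    rw [h2, ← this, three_V0, il_zero]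
  apply hx1
  have h4 : orderOf x ∣ 3 := orderOf_dvd_of_pow_eq_one h3
  have h6 : orderOf x ∣ 5 ^ k := orderOf_dvd_of_pow_eq_one hk'
  have h7 : Nat.Coprime 3 (5 ^ k) := Nat.Coprime.pow_right _ (by norm_num)
  exact orderOf_eq_one_iff.mp (Nat.eq_one_of_dvd_coprimes h7 h4 h6)

theorem exists_reflection (S : Subgroup N0) (hS : Projector (fun G _ => XX G) S) :
    ∃ s ∈ S, (rho s).q = -1 := by
  by_contra hcon
  push Not at hcon
  have hq : ∀ s ∈ S, (rho s).q = 1 := fun s hs =>
    (Int.units_eq_one_or _).resolve_right (hcon s hs)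
  have hXS : XX S := (hS.maxSub XX_schunck.iso).1
  let f : S →* Multiplicative (ZMod 5) :=
    { toFun := fun s => Multiplicative.ofAdd (rho s.1).v
      map_one' := rfl
      map_mul' := by
        intro x y
        show Multiplicative.ofAdd (rho (x.1 * y.1)).v = _
        rw [map_mul, Semi.mul_v, hq x.1 x.2, one_smul]
        rfl }
  have hf : f.range = ⊥ := by
    have : Fact (Nat.card (Multiplicative (ZMod 5))).Prime := by
      refine ⟨?_⟩
      rw [Nat.card_eq_fintype_card]
      decide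
    rcases Subgroup.eq_bot_or_eq_top_of_prime_card f.range with h | h
    · exact h
    · exact absurd (MonoidHom.range_eq_top.mp h) (hXS.2.2.1 5 (by norm_num) (by norm_num) f)
  have hker : ∀ s ∈ S, rho s = 1 := by
    intro s hs
    have h1 : f ⟨s, hs⟩ ∈ f.range := ⟨_, rfl⟩
    rw [hf, Subgroup.mem_bot] at h1
    exact Semi.ext (congrArg Multiplicative.toAdd h1) (hq s hs)
  obtain ⟨-, h2⟩ := hS rho.ker
  have h3 : S.map (QuotientGroup.mk' rho.ker) = ⊥ := by
    rw [Subgroup.map_eq_bot_iff, QuotientGroup.ker_mk']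
    intro s hs
    exact hker s hs
  let h : S3' →* N0 := homS3 1 tau (one_pow 3) tau_mul (by simp)
  have h4 := h2 ((QuotientGroup.mk' rho.ker).comp h).range (by rw [h3]; exact bot_le)
    (XX_S3'.range _)
  rw [h3] at h4
  have h5 : (QuotientGroup.mk' rho.ker) tau ∈ ((QuotientGroup.mk' rho.ker).comp h).range := by
    refine ⟨Semi.inr (-1), ?_⟩
    show (QuotientGroup.mk' rho.ker) (homS3 1 tau _ _ _ (Semi.inr (-1))) = _
    rw [homS3_t]
  rw [h4, Subgroup.mem_bot] at h5
  have h6 : tau ∈ rho.ker := (QuotientGroup.eq_one_iff _).mp h5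
  have h7 : (rho tau).q = 1 := congrArg Semi.q (MonoidHom.mem_ker.mp h6)
  have h8 : sgn5 (-1) = 1 := h7
  revert h8
  decide

theorem exists_moved : ∀ b : ZMod 5, ∃ i : ZMod 5,
    b + (((-1 : (ZMod 5)ˣ)) : ZMod 5) * i ≠ i := by decide

theorem join_N0 : Join (fun G _ => XX G) (fun G _ => YY G) N0 := by
  refine ⟨inferInstance, inferInstance, ?_⟩
  intro S T hS hT
  have hSm := hS.maxSub XX_schunck.iso
  have hTm := hT.maxSub YY_schunck.iso
  obtain ⟨x, hxT, a, ha, hxa⟩ := exists_rotation T hTm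
  obtain ⟨s, hsS, hs⟩ := exists_reflection S hS
  have hxL : x ∈ S ⊔ T := (le_sup_right : T ≤ S ⊔ T) hxT
  have hsL : s ∈ S ⊔ T := (le_sup_left : S ≤ S ⊔ T) hsS
  have hxq : x.1.q = (Semi.inl a : F20) := by
    apply Semi.ext
    · exact congrArg (fun y : D10 => y.v) hxa
    · exact sgn5_one _ x.2 (congrArg (fun y : D10 => y.q) hxa)
  have hinv1 : ∀ w ∈ part0 (S ⊔ T), (Semi.inl a : F20) • w ∈ part0 (S ⊔ T) := by
    intro w hw
    have h1 := (S ⊔ T).mul_mem ((S ⊔ T).mul_mem hxL hw) ((S ⊔ T).inv_mem hxL)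
    rw [conj_il, hxq] at h1
    exact h1
  have hinv : ∀ z : ZMod 5, ∀ w ∈ part0 (S ⊔ T), (Semi.inl z : F20) • w ∈ part0 (S ⊔ T) := by
    intro z
    have h4 : ∀ a v : ZMod 5, a ≠ 0 → ∃ k : Fin 5, k.val • a = v := by decide
    obtain ⟨k, hk⟩ := h4 a z ha
    rw [← hk, Semi.inl_nsmul]
    generalize k.val = n
    induction n with
    | zero =>
      intro w hw
      rw [pow_zero, one_smul]
      exact hw
    | succ n ih =>
      intro w hw
      rw [pow_succ', mul_smul]
      exact hinv1 _ (ih w hw)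
  rcases irr5 _ hinv with hW | hW
  · exfalso
    have hone : ∀ y ∈ S ⊔ T, rho y = 1 → y = 1 := by
      intro y hy hy1
      have h1 := eq_il hy1
      have h2 : y.1.v ∈ part0 (S ⊔ T) := by
        rw [mem_part0, ← h1]
        exact hy
      rw [hW, AddSubgroup.mem_bot] at h2
      rw [h1, h2, il_zero]
    have hss : s * s = 1 := by
      apply hone _ ((S ⊔ T).mul_mem hsL hsL)
      rw [map_mul]
      apply Semi.ext
      · rw [Semi.mul_v, hs]
        show (rho s).v + (-1 : ℤˣ) • (rho s).v = 0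
        rw [Units.neg_smul, one_smul, add_neg_cancel]
      · rw [Semi.mul_q, hs]
        rfl
    have hSq : ∀ z ∈ S, (rho z).q = 1 → z = 1 := by
      intro z hz hzq
      by_cases hzv : (rho z).v = 0
      · exact hone z ((le_sup_left : S ≤ S ⊔ T) hz) (Semi.ext hzv hzq)
      · exfalso
        have h1 : S.map rho = ⊤ := by
          apply D10_gen _ hzv (b := (rho s).v)
          · exact ⟨z, hz, Semi.ext rfl hzq⟩
          · exact ⟨s, hsS, Semi.ext rfl hs⟩
        have h2 : XX (S.map rho) := hSm.1.surj (rho.subgroupMap S) (rho.subgroupMap_surjective S)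
        exact not_XX_top h1 not_XX_D10 h2
    have hS2 : ∀ z ∈ S, z = 1 ∨ z = s := by
      intro z hz
      rcases Int.units_eq_one_or (rho z).q with h | h
      · exact Or.inl (hSq z hz h)
      · right
        have h1 : z * s = 1 := by
          apply hSq _ (S.mul_mem hz hsS)
          rw [map_mul, Semi.mul_q, h, hs]
          decide
        have h2 : z * s = s * s := by rw [h1, hss]
        exact mul_right_cancel h2
    -- the element of order three inverted by `s`
    let g : F20 := s.1.q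
    have hgg : g * g = 1 := congrArg (fun y : N0 => y.1.q) hss
    have hg : g⁻¹ = g := inv_eq_of_mul_eq_one_left hgg
    have hgq : g.q = -1 := sgn5_neg _ s.2 hs
    obtain ⟨i, hi⟩ := exists_moved g.v
    have hgi : g • i ≠ i := by
      rw [smul_def', hgq]
      exact hi
    let m : V0 := diff i (g • i) hgi
    have hm : g • m = -m := smul_diff g i hg hgi
    have ha3 : (il m) ^ 3 = 1 := by
      apply Subtype.ext
      show (Semi.inl m : Big) ^ 3 = 1
      rw [← Semi.inl_nsmul, three_V0]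
      rfl
    have hta : s * il m * s⁻¹ = (il m)⁻¹ := by
      rw [conj_il, ← il_neg]
      exact congrArg il hm
    have hU : XX (homS3 (il m) s ha3 hss hta).range := XX_S3'.range _
    have hSU : S ≤ (homS3 (il m) s ha3 hss hta).range := by
      intro z hz
      rcases hS2 z hz with rfl | rfl
      · exact Subgroup.one_mem _
      · exact ⟨Semi.inr (-1), homS3_t _ _ _ _ _⟩
    have h1 := hSm.2 _ hSU hU
    have h2 : il m ∈ S := by
      rw [← h1]
      exact ⟨Semi.inl 1, homS3_a _ _ _ _ _⟩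
    have h3 : m ∈ part0 (S ⊔ T) := (le_sup_left : S ≤ S ⊔ T) h2
    rw [hW, AddSubgroup.mem_bot] at h3
    exact diff_ne_zero _ _ _ h3
  · have h1 : (S ⊔ T).map rho = ⊤ := by
      apply D10_gen _ ha (b := (rho s).v)
      · exact ⟨x, hxL, hxa⟩
      · exact ⟨s, hsL, Semi.ext rfl hs⟩
    rw [eq_top_iff]
    intro y _
    have h2 : rho y ∈ (S ⊔ T).map rho := by rw [h1]; trivial
    obtain ⟨l, hl, hly⟩ := Subgroup.mem_map.mp h2
    have h3 : rho (l⁻¹ * y) = 1 := by
      rw [map_mul, map_inv, hly, inv_mul_cancel]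
    have h4 : l⁻¹ * y ∈ S ⊔ T := by
      rw [eq_il h3]
      have : (l⁻¹ * y).1.v ∈ part0 (S ⊔ T) := by rw [hW]; trivial
      exact this
    have h5 : y = l * (l⁻¹ * y) := by group
    rw [h5]
    exact (S ⊔ T).mul_mem hl h4

end Pool.Agent.V35
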